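import Mathlib

/-!
Polygonal billiards: tables, reflections, invariant functions.
-/

set_option linter.dupNamespace false

open MeasureTheory Complex
open scoped Real ENNReal ComplexConjugate

noncomputable section

namespace Pool.Agent.Helper90.BE

/-- The circle of directions. -/
abbrev Dir := AddCircle (2 * π)

instance factTwoPi : Fact (0 < 2 * π) := ⟨Real.two_pi_pos⟩

/-- The unit vector with direction `θ`. -/
def dir (θ : Dir) : ℂ := (AddCircle.toCircle θ : ℂ)

/-- A table: a bounded open set `Om` whose frontier is the union of the segments `[a i, b i]`, which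
meet only in common endpoints, at most two at each point. -/
structure Tab (ι : Type) where
  a : ι → ℂ
  b : ι → ℂ
  Om : Set ℂ
  ne : ∀ i, a i ≠ b i
  cross : ∀ i j, i ≠ j →
    segment ℝ (a i) (b i) ∩ segment ℝ (a j) (b j) ⊆ ({a i, b i} : Set ℂ) ∩ {a j, b j}
  triple : ∀ i j k, i ≠ j → j ≠ k → i ≠ k →
    segment ℝ (a i) (b i) ∩ segment ℝ (a j) (b j) ∩ segment ℝ (a k) (b k) = ∅
  isOpen : IsOpen Om
  bdd : Bornology.IsBounded Om
  fr : frontier Om = ⋃ i, segment ℝ (a i) (b i)

variable {ι : Type} (T : Tab ι)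

namespace Tab

/-- A side. -/
def side (i : ι) : Set ℂ := segment ℝ (T.a i) (T.b i)

/-- The set of vertices. -/
def V : Set ℂ := {p | ∃ i, p = T.a i ∨ p = T.b i}

/-- A side without its endpoints. -/
def sd (i : ι) : Set ℂ := T.side i \ T.V

/-- An affine function which vanishes on the line through the side `i`. -/
def ps (i : ι) (z : ℂ) : ℝ := ((z - T.a i) * conj (T.b i - T.a i)).im

/-- Its linear part. -/
def pl (i : ι) (w : ℂ) : ℝ := (w * conj (T.b i - T.a i)).im

/-- The linear part of the reflection in the side `i`. -/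
def L (i : ι) (w : ℂ) : ℂ := (T.b i - T.a i) / conj (T.b i - T.a i) * conj w

/-- The reflection in (the line through) the side `i`. -/
def R (i : ι) (z : ℂ) : ℂ := T.a i + T.L i (z - T.a i)

/-- The action of the reflection in the side `i` on directions. -/
def rho (i : ι) (θ : Dir) : Dir := ((2 * arg (T.b i - T.a i) : ℝ) : Dir) - θ

/-- A function on `Om × Dir` is invariant if it is constant along billiard trajectories. -/
structure Inv (u : ℂ → Dir → ℝ) : Prop where
  free : ∀ (x : ℂ) (θ : Dir) (t : ℝ), 0 ≤ t → (∀ s, 0 ≤ s → s ≤ t → x + s • dir θ ∈ T.Om) →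
    u (x + t • dir θ) θ = u x θ
  refl : ∀ (i : ι) (z : ℂ) (θ : Dir) (s t : ℝ), z ∈ T.sd i → 0 < s → 0 < t →
    (∀ r, 0 < r → r ≤ s → z - r • dir θ ∈ T.Om) →
    (∀ r, 0 < r → r ≤ t → z + r • dir (T.rho i θ) ∈ T.Om) →
    u (z + t • dir (T.rho i θ)) (T.rho i θ) = u (z - s • dir θ) θ

end Tab

end Pool.Agent.Helper90.BE
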