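import Mathlib
import Pool.Agent.Helper90.BE.Defs

/-!
Elementary geometry of reflections.
-/

set_option linter.dupNamespace false

open MeasureTheory Complex
open scoped Real ENNReal ComplexConjugate

noncomputable section

namespace Pool.Agent.Helper90.BE

lemma norm_dir (θ : Dir) : ‖dir θ‖ = 1 := Circle.norm_coe _

lemma dir_ne (θ : Dir) : dir θ ≠ 0 := by
  intro h
  have := norm_dir θ
  rw [h, norm_zero] at this
  exact zero_ne_one this

lemma dir_add (θ η : Dir) : dir (θ + η) = dir θ * dir η := by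
  simp [dir, AddCircle.toCircle_add]

lemma dir_neg (θ : Dir) : dir (-θ) = conj (dir θ) := by
  rw [dir, AddCircle.toCircle_neg, Circle.coe_inv_eq_conj, dir]

lemma dir_coe (x : ℝ) : dir (x : Dir) = exp (x * I) := by
  have h : (2 * π / (2 * π) : ℝ) = 1 := div_self Real.two_pi_pos.ne'
  rw [dir, AddCircle.toCircle_apply_mk, Circle.coe_exp, h, one_mul]

lemma dir_inj {θ η : Dir} (h : dir θ = dir η) : θ = η := by
  apply AddCircle.injective_toCircle (T := 2 * π) Real.two_pi_pos.ne'
  exact Subtype.ext h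

lemma continuous_dir : Continuous dir :=
  continuous_subtype_val.comp AddCircle.continuous_toCircle

lemma measurable_dir : Measurable dir := continuous_dir.measurable

variable {ι : Type} (T : Tab ι)

namespace Tab

lemma sub_ne (i : ι) : T.b i - T.a i ≠ 0 := sub_ne_zero.2 (T.ne i).symm

lemma conj_sub_ne (i : ι) : conj (T.b i - T.a i) ≠ 0 :=
  (map_ne_zero (starRingEnd ℂ)).2 (T.sub_ne i)

lemma ps_add (i : ι) (z w : ℂ) : T.ps i (z + w) = T.ps i z + T.pl i w := by
  simp only [ps, pl, ← Complex.add_im]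
  congr 1
  ring

lemma pl_smul (i : ι) (r : ℝ) (w : ℂ) : T.pl i (r • w) = r * T.pl i w := by
  simp only [pl, real_smul, mul_assoc, Complex.im_ofReal_mul]

lemma pl_neg (i : ι) (w : ℂ) : T.pl i (-w) = - T.pl i w := by
  simp [pl]

lemma pl_add (i : ι) (w w' : ℂ) : T.pl i (w + w') = T.pl i w + T.pl i w' := by
  simp only [pl, ← Complex.add_im]
  congr 1
  ring

lemma pl_sub (i : ι) (z w : ℂ) : T.pl i (z - w) = T.ps i z - T.ps i w := by
  simp only [ps, pl, ← Complex.sub_im]
  congr 1
  ring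

/-- `ps` on a segment. -/
lemma ps_lin (i : ι) (z w : ℂ) (s : ℝ) :
    T.ps i (z + s • (w - z)) = (1 - s) * T.ps i z + s * T.ps i w := by
  rw [ps_add, pl_smul, pl_sub]
  ring

lemma ps_a (i : ι) : T.ps i (T.a i) = 0 := by simp [ps]

lemma ps_b (i : ι) : T.ps i (T.b i) = 0 := by
  rw [ps, mul_conj]
  simp

lemma ps_side {i : ι} {z : ℂ} (h : z ∈ T.side i) : T.ps i z = 0 := by
  rw [side, segment_eq_image'] at h
  obtain ⟨s, hs, rfl⟩ := h
  rw [ps_lin, ps_a, ps_b]
  ring

/-- Points with `ps = 0` are on the line. -/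
lemma exists_of_ps {i : ι} {z : ℂ} (h : T.ps i z = 0) :
    ∃ s : ℝ, z = T.a i + s • (T.b i - T.a i) := by
  refine ⟨((z - T.a i) * conj (T.b i - T.a i)).re / normSq (T.b i - T.a i), ?_⟩
  have h1 : ((z - T.a i) * conj (T.b i - T.a i))
      = ((((z - T.a i) * conj (T.b i - T.a i)).re : ℝ) : ℂ) := by
    apply Complex.ext
    · simp
    · rw [ofReal_im]; exact h
  have h2 : (normSq (T.b i - T.a i) : ℂ) = (T.b i - T.a i) * conj (T.b i - T.a i) :=
    (mul_conj _).symm
  rw [real_smul, ofReal_div, ← h1, h2]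
  have h3 := T.sub_ne i
  have h4 := T.conj_sub_ne i
  field_simp
  ring

lemma L_add (i : ι) (w w' : ℂ) : T.L i (w + w') = T.L i w + T.L i w' := by
  simp only [L, map_add]
  ring

lemma L_smul (i : ι) (r : ℝ) (w : ℂ) : T.L i (r • w) = r • T.L i w := by
  simp only [L, real_smul, map_mul, conj_ofReal]
  ring

lemma L_neg (i : ι) (w : ℂ) : T.L i (-w) = - T.L i w := by
  simp [L]

lemma L_sub (i : ι) (w w' : ℂ) : T.L i (w - w') = T.L i w - T.L i w' := by
  simp only [L, map_sub]
  ring

lemma norm_L (i : ι) (w : ℂ) : ‖T.L i w‖ = ‖w‖ := by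
  have h : ‖T.b i - T.a i‖ ≠ 0 := norm_ne_zero_iff.2 (T.sub_ne i)
  rw [L, norm_mul, norm_div, Complex.norm_conj, Complex.norm_conj, div_self h, one_mul]

lemma L_L (i : ι) (w : ℂ) : T.L i (T.L i w) = w := by
  have h3 := T.sub_ne i
  have h4 := T.conj_sub_ne i
  have h5 : conj (T.b i) - conj (T.a i) ≠ 0 := by rw [← map_sub]; exact h4
  simp only [L, map_mul, map_div₀, conj_conj, map_sub]
  field_simp

lemma R_add (i : ι) (z w : ℂ) : T.R i (z + w) = T.R i z + T.L i w := by
  simp only [R]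
  rw [add_sub_right_comm, L_add]
  ring

lemma R_sub (i : ι) (z w : ℂ) : T.R i z - T.R i w = T.L i (z - w) := by
  simp only [R]
  rw [add_sub_add_left_eq_sub, ← L_sub]
  congr 1
  ring

lemma R_R (i : ι) (z : ℂ) : T.R i (T.R i z) = z := by
  simp only [R]
  rw [add_sub_cancel_left, L_L]
  ring

lemma R_inj (i : ι) {z w : ℂ} (h : T.R i z = T.R i w) : z = w := by
  rw [← T.R_R i z, h, R_R]

lemma L_inj (i : ι) {z w : ℂ} (h : T.L i z = T.L i w) : z = w := by
  rw [← T.L_L i z, h, L_L]

lemma pl_L (i : ι) (w : ℂ) : T.pl i (T.L i w) = - T.pl i w := by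
  have h4 := T.conj_sub_ne i
  simp only [pl, L]
  have : (T.b i - T.a i) / conj (T.b i - T.a i) * conj w * conj (T.b i - T.a i)
      = conj (w * conj (T.b i - T.a i)) := by
    rw [map_mul, conj_conj]
    field_simp
  rw [this, conj_im]

lemma L_of_pl {i : ι} {w : ℂ} (h : T.pl i w = 0) : T.L i w = w := by
  have h3 := T.sub_ne i
  have h4 := T.conj_sub_ne i
  have h1 : conj (w * conj (T.b i - T.a i)) = w * conj (T.b i - T.a i) := by
    rw [conj_eq_iff_im]
    exact h
  rw [map_mul, conj_conj] at h1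
  rw [L, div_mul_eq_mul_div, div_eq_iff h4, ← h1]
  ring

lemma R_of_ps {i : ι} {z : ℂ} (h : T.ps i z = 0) : T.R i z = z := by
  have h1 : T.pl i (z - T.a i) = 0 := by rw [pl_sub, h, ps_a, sub_zero]
  rw [R, L_of_pl T h1]
  ring

lemma R_side {i : ι} {z : ℂ} (h : z ∈ T.side i) : T.R i z = z := R_of_ps T (ps_side T h)

lemma dir_rho (i : ι) (θ : Dir) : dir (T.rho i θ) = T.L i (dir θ) := by
  have h3 := T.sub_ne i
  have h4 := T.conj_sub_ne i
  rw [rho, sub_eq_add_neg, dir_add, dir_neg, dir_coe, L]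
  congr 1
  have h1 : T.b i - T.a i = ‖T.b i - T.a i‖ * exp (arg (T.b i - T.a i) * I) :=
    (norm_mul_exp_arg_mul_I _).symm
  have h2 : conj (T.b i - T.a i) = ‖T.b i - T.a i‖ * exp (-(arg (T.b i - T.a i) * I)) := by
    conv_lhs => rw [h1]
    rw [map_mul, conj_ofReal, ← exp_conj, map_mul, conj_ofReal, conj_I, mul_neg]
  have h5 : (‖T.b i - T.a i‖ : ℂ) ≠ 0 := by
    rw [Ne, ofReal_eq_zero, norm_eq_zero]; exact h3
  rw [eq_div_iff h4]
  conv_lhs => rw [h2]
  conv_rhs => rw [h1]
  rw [ofReal_mul, ofReal_ofNat]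
  have : exp (2 * (arg (T.b i - T.a i) : ℂ) * I) * (‖T.b i - T.a i‖ * exp (-(arg (T.b i - T.a i) * I)))
      = ‖T.b i - T.a i‖ * (exp (2 * (arg (T.b i - T.a i) : ℂ) * I) * exp (-(arg (T.b i - T.a i) * I))) := by
    ring
  rw [this, ← Complex.exp_add]
  congr 2
  ring

lemma rho_rho (i : ι) (θ : Dir) : T.rho i (T.rho i θ) = θ := by
  simp [rho]

/-- A side is contained in the frontier. -/
lemma side_fr (i : ι) : T.side i ⊆ frontier T.Om := by
  rw [T.fr]
  exact Set.subset_iUnion (fun i => segment ℝ (T.a i) (T.b i)) i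

lemma not_mem_of_fr {z : ℂ} (h : z ∈ frontier T.Om) : z ∉ T.Om := by
  rw [T.isOpen.frontier_eq] at h
  exact h.2

lemma not_mem_of_side {i : ι} {z : ℂ} (h : z ∈ T.side i) : z ∉ T.Om :=
  T.not_mem_of_fr (T.side_fr i h)

lemma mem_side_of_fr {z : ℂ} (h : z ∈ frontier T.Om) : ∃ i, z ∈ T.side i := by
  rw [T.fr] at h
  exact Set.mem_iUnion.1 h

lemma side_isClosed (i : ι) : IsClosed (T.side i) := by
  have : IsCompact (T.side i) := by
    rw [side, segment_eq_image]
    apply isCompact_Icc.image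
    fun_prop
  exact this.isClosed

lemma side_isCompact (i : ι) : IsCompact (T.side i) := by
  rw [side, segment_eq_image]
  apply isCompact_Icc.image
  fun_prop

lemma a_mem_side (i : ι) : T.a i ∈ T.side i := left_mem_segment ℝ _ _

lemma b_mem_side (i : ι) : T.b i ∈ T.side i := right_mem_segment ℝ _ _

/-- Two sides meet only in vertices. -/
lemma eq_of_mem_sd {i j : ι} {z : ℂ} (h : z ∈ T.sd i) (h' : z ∈ T.side j) : i = j := by
  by_contra hij
  have h1 := (T.cross i j hij ⟨h.1, h'⟩).1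
  apply h.2
  rcases h1 with h1 | h1
  · exact ⟨i, Or.inl h1⟩
  · exact ⟨i, Or.inr h1⟩

/-- If a convex set `D` contains no vertex, and meets the side `i`, then it meets the line through
the side `i` only in the side. -/
lemma full_chord {D : Set ℂ} (hD : Convex ℝ D) (hV : ∀ p ∈ D, p ∉ T.V) {i : ι} {z z' : ℂ}
    (hz : z ∈ D) (hzi : z ∈ T.side i) (hz' : z' ∈ D) (h : T.ps i z' = 0) : z' ∈ T.side i := by
  obtain ⟨s, hs⟩ := exists_of_ps T h
  have hzi' := hzi
  rw [side, segment_eq_image'] at hzi'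
  obtain ⟨r, hr, hr'⟩ := hzi'
  have hseg := hD.segment_subset hz hz'
  simp only at hr'
  have key : ∀ q : ℝ, (r ≤ q ∧ q ≤ s) ∨ (s ≤ q ∧ q ≤ r) → T.a i + q • (T.b i - T.a i) ∈ D := by
    intro q hq
    apply hseg
    rw [segment_eq_image']
    by_cases hrs : r = s
    · refine ⟨0, by simp, ?_⟩
      have : q = r := by rcases hq with hq | hq <;> linarith
      rw [this, ← hr']
      simp
    · have hrs' : s - r ≠ 0 := fun h => hrs (by linarith)
      refine ⟨(q - r) / (s - r), ?_, ?_⟩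
      · rcases hq with hq | hq
        · have : 0 < s - r := lt_of_le_of_ne (by linarith) (Ne.symm hrs')
          constructor
          · apply div_nonneg <;> linarith
          · rw [div_le_one this]; linarith
        · have : s - r < 0 := lt_of_le_of_ne (by linarith) hrs'
          constructor
          · apply div_nonneg_of_nonpos <;> linarith
          · rw [div_le_one_of_neg this]; linarith
      · simp only
        rw [hs, ← hr', add_sub_add_left_eq_sub, ← sub_smul, smul_smul, div_mul_cancel₀ _ hrs',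
          add_assoc, ← add_smul]
        congr 2
        ring
  have hs0 : 0 ≤ s := by
    by_contra hs0
    push Not at hs0
    have := key 0 (Or.inr ⟨hs0.le, hr.1⟩)
    rw [zero_smul, add_zero] at this
    exact hV _ this ⟨i, Or.inl rfl⟩
  have hs1 : s ≤ 1 := by
    by_contra hs1
    push Not at hs1
    have := key 1 (Or.inl ⟨hr.2, hs1.le⟩)
    rw [one_smul, add_sub_cancel] at this
    exact hV _ this ⟨i, Or.inr rfl⟩
  rw [side, segment_eq_image']
  exact ⟨s, ⟨hs0, hs1⟩, hs.symm⟩

/-- A connected set which misses the frontier and meets `Om` is contained in `Om`. -/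
lemma subset_Om {D : Set ℂ} (hD : IsPreconnected D) (h : ∀ i, ∀ p ∈ D, p ∉ T.side i) {x : ℂ}
    (hx : x ∈ D) (hx' : x ∈ T.Om) : D ⊆ T.Om := by
  have h1 : D ⊆ T.Om ∪ (closure T.Om)ᶜ := by
    intro p hp
    by_cases hc : p ∈ closure T.Om
    · left
      by_contra hO
      have hf : p ∈ frontier T.Om := by
        rw [T.isOpen.frontier_eq]
        exact ⟨hc, hO⟩
      obtain ⟨i, hi⟩ := T.mem_side_of_fr hf
      exact h i p hp hi
    · exact Or.inr hc
  have h2 : D ∩ (T.Om ∩ (closure T.Om)ᶜ) = ∅ := by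
    ext p
    simp only [Set.mem_inter_iff, Set.mem_compl_iff, Set.mem_empty_iff_false, iff_false, not_and,
      not_not]
    intro _ hp
    exact subset_closure hp
  rcases isPreconnected_iff_subset_of_disjoint.1 hD _ _ T.isOpen isClosed_closure.isOpen_compl
    h1 h2 with h3 | h3
  · exact h3
  · exact absurd (subset_closure hx') (h3 hx)

end Tab

end Pool.Agent.Helper90.BE
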