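import Mathlib
import Pool.Agent.Helper90.BE.Geo

/-!
Billiard trajectories as words of collisions (most recent collision first).
-/

set_option linter.dupNamespace false

open MeasureTheory Complex
open scoped Real ENNReal ComplexConjugate

noncomputable section

namespace Pool.Agent.Helper90.BE

variable {ι : Type} (T : Tab ι)

namespace Tab

/-- The composition of the reflections of a word. -/
def gw : List ι → ℂ → ℂ
  | [], z => z
  | i :: w, z => T.R i (gw w z)

/-- Its linear part. -/
def Gw : List ι → ℂ → ℂ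
  | [], z => z
  | i :: w, z => T.L i (Gw w z)

/-- Its action on directions. -/
def rw' : List ι → Dir → Dir
  | [], θ => θ
  | i :: w, θ => T.rho i (rw' w θ)

/-- `Run w x W s`: the trajectory which starts at `x ∈ Om` with velocity `W` has the collisions `w`
(most recent first), the last one at the time `s`. -/
def Run : List ι → ℂ → ℂ → ℝ → Prop
  | [], x, _, s => s = 0 ∧ x ∈ T.Om
  | i :: w, x, W, s => ∃ s', Run w x W s' ∧ s' < s ∧
      (∀ r, s' < r → r < s → T.gw w x + r • T.Gw w W ∈ T.Om) ∧ T.gw w x + s • T.Gw w W ∈ T.sd i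

/-- After the collisions `w` the trajectory stays in `Om` up to the time `s` (excluded). -/
def Inc (w : List ι) (x W : ℂ) (s : ℝ) : Prop :=
  ∃ s', T.Run w x W s' ∧ s' < s ∧ ∀ r, s' < r → r < s → T.gw w x + r • T.Gw w W ∈ T.Om

/-- The trajectory has exactly the collisions `w` up to the time `1`, and is in `Om` then. -/
def Fin (w : List ι) (x W : ℂ) : Prop :=
  ∃ s', T.Run w x W s' ∧ s' < 1 ∧ ∀ r, s' < r → r ≤ 1 → T.gw w x + r • T.Gw w W ∈ T.Om

lemma Fin.inc {w : List ι} {x W : ℂ} (h : T.Fin w x W) : T.Inc w x W 1 := by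
  obtain ⟨s, h1, h2, h3⟩ := h
  exact ⟨s, h1, h2, fun r hr hr' => h3 r hr hr'.le⟩

lemma Gw_add (w : List ι) (z v : ℂ) : T.Gw w (z + v) = T.Gw w z + T.Gw w v := by
  induction w with
  | nil => rfl
  | cons i w ih => simp only [Gw, ih, L_add]

lemma Gw_smul (w : List ι) (r : ℝ) (z : ℂ) : T.Gw w (r • z) = r • T.Gw w z := by
  induction w with
  | nil => rfl
  | cons i w ih => simp only [Gw, ih, L_smul]

lemma Gw_neg (w : List ι) (z : ℂ) : T.Gw w (-z) = -T.Gw w z := by
  induction w with
  | nil => rfl
  | cons i w ih => simp only [Gw, ih, L_neg]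

lemma norm_Gw (w : List ι) (z : ℂ) : ‖T.Gw w z‖ = ‖z‖ := by
  induction w with
  | nil => rfl
  | cons i w ih => simp only [Gw, norm_L, ih]

lemma gw_add (w : List ι) (z v : ℂ) : T.gw w (z + v) = T.gw w z + T.Gw w v := by
  induction w with
  | nil => rfl
  | cons i w ih => simp only [gw, Gw, ih, R_add]

lemma gw_sub (w : List ι) (z v : ℂ) : T.gw w z - T.gw w v = T.Gw w (z - v) := by
  have := T.gw_add w v (z - v)
  rw [add_sub_cancel] at this
  rw [this]
  ring

lemma gw_inj (w : List ι) {z v : ℂ} (h : T.gw w z = T.gw w v) : z = v := by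
  induction w with
  | nil => exact h
  | cons i w ih => exact ih (T.R_inj i h)

lemma Gw_inj (w : List ι) {z v : ℂ} (h : T.Gw w z = T.Gw w v) : z = v := by
  induction w with
  | nil => exact h
  | cons i w ih => exact ih (T.L_inj i h)

lemma dir_rw' (w : List ι) (θ : Dir) : dir (T.rw' w θ) = T.Gw w (dir θ) := by
  induction w with
  | nil => rfl
  | cons i w ih => simp only [rw', Gw, dir_rho, ih]

/-- A collision point is fixed by the reflection. -/
lemma coll {i : ι} {w : List ι} {x W : ℂ} {s : ℝ} (h : T.gw w x + s • T.Gw w W ∈ T.side i) :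
    T.gw (i :: w) x + s • T.Gw (i :: w) W = T.gw w x + s • T.Gw w W := by
  simp only [gw, Gw]
  rw [← L_smul, ← R_add, R_side T h]

lemma Run.nonneg {w : List ι} {x W : ℂ} {s : ℝ} (h : T.Run w x W s) : 0 ≤ s := by
  induction w generalizing s with
  | nil => exact h.1.ge
  | cons i w ih =>
    obtain ⟨s', h1, h2, _⟩ := h
    exact (ih h1).trans h2.le

lemma Run.start {w : List ι} {x W : ℂ} {s : ℝ} (h : T.Run w x W s) : x ∈ T.Om := by
  induction w generalizing s with
  | nil => exact h.2
  | cons i w ih =>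
    obtain ⟨s', h1, _⟩ := h
    exact ih h1

lemma Run.unique {w : List ι} {x W : ℂ} {s t : ℝ} (h : T.Run w x W s) (h' : T.Run w x W t) :
    s = t := by
  induction w generalizing s t with
  | nil => rw [h.1, h'.1]
  | cons i w ih =>
    obtain ⟨s', h1, h2, h3, h4⟩ := h
    obtain ⟨t', h1', h2', h3', h4'⟩ := h'
    obtain rfl := ih h1 h1'
    by_contra hne
    rcases lt_or_gt_of_ne hne with hlt | hlt
    · exact T.not_mem_of_side h4.1 (h3' s h2 hlt)
    · exact T.not_mem_of_side h4'.1 (h3 t h2' hlt)

/-- Backward determinism. -/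
lemma back {w w' : List ι} {x x' W W' : ℂ} {s : ℝ} (h : T.Inc w x W s) (h' : T.Inc w' x' W' s)
    (hg : T.gw w x = T.gw w' x') (hG : T.Gw w W = T.Gw w' W') : w = w' := by
  induction w generalizing w' s with
  | nil =>
    cases w' with
    | nil => rfl
    | cons j w' =>
      exfalso
      obtain ⟨s1, h1, h2, h3⟩ := h
      obtain ⟨t1, k1, k2, k3⟩ := h'
      have hk1 := k1
      obtain ⟨t2, m1, m2, m3, m4⟩ := k1
      have e1 := T.coll m4.1
      have ht1 : 0 < t1 := lt_of_le_of_lt (Run.nonneg T m1) m2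
      rw [h1.1] at h3
      have := h3 t1 ht1 k2
      rw [hg, hG, e1] at this
      exact T.not_mem_of_side m4.1 this
  | cons i w ih =>
    cases w' with
    | nil =>
      exfalso
      obtain ⟨s1, h1, h2, h3⟩ := h
      obtain ⟨t1, k1, k2, k3⟩ := h'
      obtain ⟨s2, m1, m2, m3, m4⟩ := h1
      have e1 := T.coll m4.1
      have ht1 : 0 < s1 := lt_of_le_of_lt (Run.nonneg T m1) m2
      rw [k1.1] at k3
      have := k3 s1 ht1 h2
      rw [← hg, ← hG, e1] at this
      exact T.not_mem_of_side m4.1 this
    | cons j w' =>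
      obtain ⟨s1, h1, h2, h3⟩ := h
      obtain ⟨t1, k1, k2, k3⟩ := h'
      obtain ⟨s2, m1, m2, m3, m4⟩ := h1
      obtain ⟨t2, n1, n2, n3, n4⟩ := k1
      have e1 := T.coll m4.1
      have e2 := T.coll n4.1
      have hst : s1 = t1 := by
        by_contra hne
        rcases lt_or_gt_of_ne hne with hlt | hlt
        · have := h3 t1 hlt k2
          rw [hg, hG, e2] at this
          exact T.not_mem_of_side n4.1 this
        · have := k3 s1 hlt h2
          rw [← hg, ← hG, e1] at this
          exact T.not_mem_of_side m4.1 this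
      subst hst
      have hij : i = j := by
        apply T.eq_of_mem_sd m4
        rw [← e1, hg, hG, e2]
        exact n4.1
      subst hij
      have hw : w = w' := ih ⟨s2, m1, m2, m3⟩ ⟨t2, n1, n2, n3⟩ (T.R_inj i hg) (T.L_inj i hG)
      rw [hw]

/-- An invariant function is constant along a run. -/
lemma Run.inv {u : ℂ → Dir → ℝ} (hu : T.Inv u) {w : List ι} {x : ℂ} {θ : Dir} {l : ℝ} (hl : 0 < l)
    {s : ℝ} (h : T.Run w x (l • dir θ) s) {r : ℝ} (hsr : s < r)
    (hr : ∀ r', s < r' → r' ≤ r → T.gw w x + r' • T.Gw w (l • dir θ) ∈ T.Om) :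
    u (T.gw w x + r • T.Gw w (l • dir θ)) (T.rw' w θ) = u x θ := by
  induction w generalizing s r with
  | nil =>
    obtain ⟨rfl, hx⟩ := h
    simp only [gw, Gw, rw'] at hr ⊢
    rw [smul_smul]
    apply hu.free x θ _ (by positivity)
    intro q hq hq'
    rcases hq.eq_or_lt with rfl | hq0
    · rw [zero_smul, add_zero]; exact hx
    · have := hr (q / l) (by positivity) (by rw [div_le_iff₀ hl]; exact hq')
      rwa [smul_smul, div_mul_cancel₀ _ hl.ne'] at this
  | cons i w ih =>
    obtain ⟨s', h1, h2, h3, h4⟩ := h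
    have e1 := T.coll h4.1
    obtain ⟨q, hq1, hq2⟩ := exists_between h2
    have hprev := ih h1 hq1 (fun r' hr' hr'' => h3 r' hr' (lt_of_le_of_lt hr'' hq2))
    rw [← hprev]
    have hG : T.Gw w (l • dir θ) = l • dir (T.rw' w θ) := by rw [Gw_smul, dir_rw']
    have hG' : T.Gw (i :: w) (l • dir θ) = l • dir (T.rho i (T.rw' w θ)) := by
      rw [Gw_smul, ← dir_rw', rw']
    have key := hu.refl i (T.gw w x + s • T.Gw w (l • dir θ)) (T.rw' w θ) ((s - q) * l)
      ((r - s) * l) h4 (by apply mul_pos _ hl; linarith) (by apply mul_pos _ hl; linarith) ?_ ?_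
    · rw [rw']
      convert key using 2
      · rw [← e1, hG', add_assoc, smul_smul, smul_smul, ← add_smul]
        congr 2
        ring
      · rw [hG, add_sub_assoc, smul_smul, smul_smul, ← sub_smul]
        congr 2
        ring
    · intro r' hr' hr''
      have h5 := h3 (s - r' / l) (by
        have : r' / l ≤ s - q := by rw [div_le_iff₀ hl]; exact hr''
        linarith) (by
        have : 0 < r' / l := by positivity
        linarith)
      convert h5 using 1
      rw [hG, add_sub_assoc, smul_smul, smul_smul, ← sub_smul]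
      congr 2
      field_simp
    · intro r' hr' hr''
      have h5 := hr (s + r' / l) (by
        have : 0 < r' / l := by positivity
        linarith) (by
        have : r' / l ≤ r - s := by rw [div_le_iff₀ hl]; exact hr''
        linarith)
      convert h5 using 1
      rw [← e1, hG', add_assoc, smul_smul, smul_smul, ← add_smul]
      congr 2
      field_simp

lemma Fin.inv {u : ℂ → Dir → ℝ} (hu : T.Inv u) {w : List ι} {x : ℂ} {θ : Dir} {l : ℝ} (hl : 0 < l)
    (h : T.Fin w x (l • dir θ)) :
    u (T.gw w (x + l • dir θ)) (T.rw' w θ) = u x θ := by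
  obtain ⟨s, h1, h2, h3⟩ := h
  have := Run.inv T hu hl h1 h2 h3
  rwa [one_smul, ← gw_add] at this

/-- The end point of a finished run. -/
lemma Fin.mem {w : List ι} {x W : ℂ} (h : T.Fin w x W) : T.gw w (x + W) ∈ T.Om := by
  obtain ⟨s, h1, h2, h3⟩ := h
  have := h3 1 h2 le_rfl
  rwa [one_smul, ← gw_add] at this

end Tab

end Pool.Agent.Helper90.BE
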