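import Mathlib
import Pool.Agent.Helper90.BE.Run

/-!
The number of collisions of a trajectory of bounded length is bounded.
-/

set_option linter.dupNamespace false

open MeasureTheory Complex
open scoped Real ENNReal ComplexConjugate

noncomputable section

namespace Pool.Agent.Helper90.BE

/-- The real scalar product. -/
def ip (z w : ℂ) : ℝ := (z * conj w).re

lemma ip_sub_left (z z' w : ℂ) : ip (z - z') w = ip z w - ip z' w := by
  simp only [ip, sub_mul, sub_re]

lemma ip_add_left (z z' w : ℂ) : ip (z + z') w = ip z w + ip z' w := by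
  simp only [ip, add_mul, add_re]

lemma ip_sub_right (z w w' : ℂ) : ip z (w - w') = ip z w - ip z w' := by
  simp only [ip, map_sub, mul_sub, sub_re]

lemma ip_smul_left (r : ℝ) (z w : ℂ) : ip (r • z) w = r * ip z w := by
  simp only [ip, real_smul, mul_assoc, re_ofReal_mul]

lemma ip_comm (z w : ℂ) : ip z w = ip w z := by
  simp only [ip]
  rw [← conj_re, map_mul, conj_conj, mul_comm]

lemma ip_self (z : ℂ) : ip z z = ‖z‖ ^ 2 := by
  rw [ip, mul_conj, ofReal_re, normSq_eq_norm_sq]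

lemma abs_ip_le (z w : ℂ) : |ip z w| ≤ ‖z‖ * ‖w‖ := by
  rw [ip]
  refine (abs_re_le_norm _).trans ?_
  rw [norm_mul, norm_conj]

variable {ι : Type} (T : Tab ι)

namespace Tab

/-- An endpoint of a side. -/
def vert (i : ι) (σ : Bool) : ℂ := if σ then T.a i else T.b i

/-- The unit vector along the side from an endpoint. -/
def ev (i : ι) (σ : Bool) : ℂ :=
  (‖T.b i - T.a i‖⁻¹ : ℝ) • (if σ then T.b i - T.a i else T.a i - T.b i)

lemma len_pos (i : ι) : 0 < ‖T.b i - T.a i‖ := norm_pos_iff.2 (T.sub_ne i)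

lemma norm_ev (i : ι) (σ : Bool) : ‖T.ev i σ‖ = 1 := by
  have h := (T.len_pos i).ne'
  cases σ
  · simp only [ev, Bool.false_eq_true, if_false]
    rw [norm_smul, norm_inv, norm_norm, norm_sub_rev (T.a i) (T.b i), inv_mul_cancel₀ h]
  · simp only [ev, if_true]
    rw [norm_smul, norm_inv, norm_norm, inv_mul_cancel₀ h]

lemma mem_side_iff (i : ι) (σ : Bool) (z : ℂ) :
    z ∈ T.side i ↔ ∃ r : ℝ, 0 ≤ r ∧ r ≤ ‖T.b i - T.a i‖ ∧ z = T.vert i σ + r • T.ev i σ := by
  have hl := T.len_pos i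
  have hl' := hl.ne'
  cases σ
  · have : T.side i = segment ℝ (T.b i) (T.a i) := segment_symm ℝ _ _
    rw [this, segment_eq_image']
    simp only [vert, ev, Bool.false_eq_true, if_false]
    constructor
    · rintro ⟨s, hs, rfl⟩
      refine ⟨s * ‖T.b i - T.a i‖, mul_nonneg hs.1 hl.le, mul_le_of_le_one_left hl.le hs.2, ?_⟩
      rw [smul_smul, mul_assoc, mul_inv_cancel₀ hl', mul_one]
    · rintro ⟨r, hr, hr', rfl⟩
      refine ⟨r / ‖T.b i - T.a i‖, ⟨by positivity, by rwa [div_le_one hl]⟩, ?_⟩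
      simp only
      rw [smul_smul, div_eq_mul_inv]
  · rw [side, segment_eq_image']
    simp only [vert, ev, if_true]
    constructor
    · rintro ⟨s, hs, rfl⟩
      refine ⟨s * ‖T.b i - T.a i‖, mul_nonneg hs.1 hl.le, mul_le_of_le_one_left hl.le hs.2, ?_⟩
      rw [smul_smul, mul_assoc, mul_inv_cancel₀ hl', mul_one]
    · rintro ⟨r, hr, hr', rfl⟩
      refine ⟨r / ‖T.b i - T.a i‖, ⟨by positivity, by rwa [div_le_one hl]⟩, ?_⟩
      simp only
      rw [smul_smul, div_eq_mul_inv]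

lemma vert_mem_V (i : ι) (σ : Bool) : T.vert i σ ∈ T.V := by
  cases σ
  · exact ⟨i, Or.inr rfl⟩
  · exact ⟨i, Or.inl rfl⟩

lemma exists_pos_of_sd {i : ι} (σ : Bool) {z : ℂ} (h : z ∈ T.sd i) :
    ∃ r : ℝ, 0 < r ∧ z = T.vert i σ + r • T.ev i σ := by
  obtain ⟨r, hr, _, hz⟩ := (T.mem_side_iff i σ z).1 h.1
  refine ⟨r, lt_of_le_of_ne hr ?_, hz⟩
  rintro rfl
  apply h.2
  rw [hz, zero_smul, add_zero]
  exact T.vert_mem_V i σ

/-- The reflection preserves the component along the side. -/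
lemma ip_L (i : ι) (σ : Bool) (U : ℂ) : ip (T.L i U) (T.ev i σ) = ip U (T.ev i σ) := by
  have h3 := T.conj_sub_ne i
  have key : ∀ c : ℝ, ip (T.L i U) (c • (T.b i - T.a i)) = ip U (c • (T.b i - T.a i)) := by
    intro c
    simp only [ip, real_smul, map_mul, conj_ofReal]
    have e1 : T.L i U * ((c : ℂ) * conj (T.b i - T.a i))
        = conj (U * ((c : ℂ) * conj (T.b i - T.a i))) := by
      simp only [L, map_mul, conj_conj, conj_ofReal]
      field_simp
    rw [e1, conj_re]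
  cases σ
  · simp only [ev, Bool.false_eq_true, if_false]
    have := key (-‖T.b i - T.a i‖⁻¹)
    rwa [neg_smul, ← smul_neg, neg_sub] at this
  · simp only [ev, if_true]
    exact key _

/-- The unit vectors along two sides from a common vertex are different. -/
lemma ev_ne {i j : ι} (hij : i ≠ j) {σ τ : Bool} (h : T.vert i σ = T.vert j τ) :
    T.ev i σ ≠ T.ev j τ := by
  intro he
  obtain ⟨m, hm0, hm1, hm2⟩ : ∃ m : ℝ, 0 < m ∧ m < ‖T.b i - T.a i‖ ∧ m ≤ ‖T.b j - T.a j‖ := by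
    refine ⟨min (‖T.b i - T.a i‖ / 2) ‖T.b j - T.a j‖, ?_, ?_, min_le_right _ _⟩
    · exact lt_min (half_pos (T.len_pos i)) (T.len_pos j)
    · exact lt_of_le_of_lt (min_le_left _ _) (half_lt_self (T.len_pos i))
  have h1 : T.vert i σ + m • T.ev i σ ∈ T.side i :=
    (T.mem_side_iff i σ _).2 ⟨m, hm0.le, hm1.le, rfl⟩
  have h2 : T.vert i σ + m • T.ev i σ ∈ T.side j :=
    (T.mem_side_iff j τ _).2 ⟨m, hm0.le, hm2, by rw [h, he]⟩
  have h3 := (T.cross i j hij ⟨h1, h2⟩).1
  have hn := T.norm_ev i σ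
  have hd1 : ‖(T.vert i σ + m • T.ev i σ) - T.vert i σ‖ = m := by
    rw [add_sub_cancel_left, norm_smul, hn, mul_one, Real.norm_eq_abs, abs_of_pos hm0]
  have hopp : T.vert i (!σ) = T.vert i σ + ‖T.b i - T.a i‖ • T.ev i σ := by
    have hl' := (T.len_pos i).ne'
    cases σ
    · simp only [vert, ev, Bool.not_false, if_true, Bool.false_eq_true, if_false]
      rw [smul_smul, mul_inv_cancel₀ hl', one_smul]
      ring
    · simp only [vert, ev, Bool.not_true, if_true, Bool.false_eq_true, if_false]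
      rw [smul_smul, mul_inv_cancel₀ hl', one_smul]
      ring
  have hd2 : ‖(T.vert i σ + m • T.ev i σ) - T.vert i (!σ)‖ = ‖T.b i - T.a i‖ - m := by
    rw [hopp, add_sub_add_left_eq_sub, ← sub_smul, norm_smul, hn, mul_one, Real.norm_eq_abs,
      abs_of_neg (by linarith)]
    ring
  have h4 : T.vert i σ + m • T.ev i σ = T.vert i σ ∨ T.vert i σ + m • T.ev i σ = T.vert i (!σ) := by
    cases σ
    · rcases h3 with h3 | h3
      · right; exact h3
      · left; exact h3
    · rcases h3 with h3 | h3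
      · left; exact h3
      · right; exact h3
  rcases h4 with h4 | h4
  · rw [h4, sub_self, norm_zero] at hd1
    linarith
  · rw [h4, sub_self, norm_zero] at hd2
    linarith

lemma one_sub_ip_pos {i j : ι} (hij : i ≠ j) {σ τ : Bool} (h : T.vert i σ = T.vert j τ) :
    0 < 1 - ip (T.ev i σ) (T.ev j τ) := by
  have h1 := T.ev_ne hij h
  have h2 : 0 < ‖T.ev i σ - T.ev j τ‖ ^ 2 := by
    have : 0 < ‖T.ev i σ - T.ev j τ‖ := norm_pos_iff.2 (sub_ne_zero.2 h1)
    positivity
  rw [← ip_self, ip_sub_left, ip_sub_right, ip_sub_right, ip_self, ip_self, T.norm_ev, T.norm_ev,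
    ip_comm (T.ev j τ)] at h2
  linarith

lemma exists_kappa [Finite ι] : ∃ κ : ℝ, 0 < κ ∧ ∀ (i j : ι) (σ τ : Bool), i ≠ j →
    T.vert i σ = T.vert j τ → κ ≤ 1 - ip (T.ev i σ) (T.ev j τ) := by
  have h : ∀ q : ι × ι × Bool × Bool, ∀ᶠ κ in nhdsWithin (0 : ℝ) (Set.Ioi 0),
      (q.1 ≠ q.2.1 → T.vert q.1 q.2.2.1 = T.vert q.2.1 q.2.2.2 →
        κ ≤ 1 - ip (T.ev q.1 q.2.2.1) (T.ev q.2.1 q.2.2.2)) := by
    intro q
    by_cases h1 : q.1 ≠ q.2.1 ∧ T.vert q.1 q.2.2.1 = T.vert q.2.1 q.2.2.2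
    · have h2 := T.one_sub_ip_pos h1.1 h1.2
      have : ∀ᶠ κ in nhdsWithin (0 : ℝ) (Set.Ioi 0),
          κ < 1 - ip (T.ev q.1 q.2.2.1) (T.ev q.2.1 q.2.2.2) :=
        nhdsWithin_le_nhds (Iio_mem_nhds h2)
      filter_upwards [this] with κ hκ _ _
      exact hκ.le
    · refine Filter.Eventually.of_forall (fun κ h2 h3 => absurd ⟨h2, h3⟩ h1)
  have h2 := (Filter.eventually_all.2 h).and (self_mem_nhdsWithin (s := Set.Ioi (0 : ℝ)) (a := 0))
  obtain ⟨κ, hκ, hκ0⟩ := h2.exists
  exact ⟨κ, hκ0, fun i j σ τ => hκ (i, j, σ, τ)⟩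

lemma exists_r0 [Finite ι] : ∃ r0 : ℝ, 0 < r0 ∧
    (∀ i j k : ι, i ≠ j → j ≠ k → i ≠ k → ∀ z1 ∈ T.side i, ∀ z2 ∈ T.side j, ∀ z3 ∈ T.side k,
      r0 ≤ ‖z2 - z1‖ + ‖z3 - z2‖) ∧
    (∀ i j : ι, T.side i ∩ T.side j = ∅ → ∀ z1 ∈ T.side i, ∀ z2 ∈ T.side j, r0 ≤ ‖z2 - z1‖) := by
  have h1 : ∀ q : ι × ι × ι, ∀ᶠ r in nhdsWithin (0 : ℝ) (Set.Ioi 0),
      (q.1 ≠ q.2.1 → q.2.1 ≠ q.2.2 → q.1 ≠ q.2.2 → ∀ z1 ∈ T.side q.1, ∀ z2 ∈ T.side q.2.1,
        ∀ z3 ∈ T.side q.2.2, r ≤ ‖z2 - z1‖ + ‖z3 - z2‖) := by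
    intro q
    by_cases hq : q.1 ≠ q.2.1 ∧ q.2.1 ≠ q.2.2 ∧ q.1 ≠ q.2.2
    · have hc : IsCompact (T.side q.1 ×ˢ (T.side q.2.1 ×ˢ T.side q.2.2)) :=
        (T.side_isCompact _).prod ((T.side_isCompact _).prod (T.side_isCompact _))
      have hne : (T.side q.1 ×ˢ (T.side q.2.1 ×ˢ T.side q.2.2)).Nonempty :=
        ⟨(T.a _, T.a _, T.a _), T.a_mem_side _, T.a_mem_side _, T.a_mem_side _⟩
      obtain ⟨m, hm, hmin⟩ := hc.exists_isMinOn hne
        (f := fun z : ℂ × ℂ × ℂ => ‖z.2.1 - z.1‖ + ‖z.2.2 - z.2.1‖)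
        (Continuous.continuousOn (by fun_prop))
      have hpos : 0 < ‖m.2.1 - m.1‖ + ‖m.2.2 - m.2.1‖ := by
        by_contra hcon
        push Not at hcon
        have e1 : ‖m.2.1 - m.1‖ = 0 := le_antisymm (by linarith [norm_nonneg (m.2.2 - m.2.1)])
          (norm_nonneg _)
        have e2 : ‖m.2.2 - m.2.1‖ = 0 := le_antisymm (by linarith [norm_nonneg (m.2.1 - m.1)])
          (norm_nonneg _)
        rw [norm_eq_zero, sub_eq_zero] at e1 e2
        have h3 := T.triple q.1 q.2.1 q.2.2 hq.1 hq.2.1 hq.2.2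
        have : m.1 ∈ (∅ : Set ℂ) := by
          rw [← h3]
          refine ⟨⟨hm.1, ?_⟩, ?_⟩
          · rw [← e1]; exact hm.2.1
          · rw [← e1, ← e2]; exact hm.2.2
        exact this
      have : ∀ᶠ r in nhdsWithin (0 : ℝ) (Set.Ioi 0), r < ‖m.2.1 - m.1‖ + ‖m.2.2 - m.2.1‖ :=
        nhdsWithin_le_nhds (Iio_mem_nhds hpos)
      filter_upwards [this] with r hr _ _ _ z1 hz1 z2 hz2 z3 hz3
      exact hr.le.trans (hmin (a := (z1, z2, z3)) ⟨hz1, hz2, hz3⟩)
    · exact Filter.Eventually.of_forall (fun r h2 h3 h4 => absurd ⟨h2, h3, h4⟩ hq)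
  have h2 : ∀ q : ι × ι, ∀ᶠ r in nhdsWithin (0 : ℝ) (Set.Ioi 0),
      (T.side q.1 ∩ T.side q.2 = ∅ → ∀ z1 ∈ T.side q.1, ∀ z2 ∈ T.side q.2, r ≤ ‖z2 - z1‖) := by
    intro q
    by_cases hq : T.side q.1 ∩ T.side q.2 = ∅
    · have hc : IsCompact (T.side q.1 ×ˢ T.side q.2) :=
        (T.side_isCompact _).prod (T.side_isCompact _)
      have hne : (T.side q.1 ×ˢ T.side q.2).Nonempty :=
        ⟨(T.a _, T.a _), T.a_mem_side _, T.a_mem_side _⟩
      obtain ⟨m, hm, hmin⟩ := hc.exists_isMinOn hne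
        (f := fun z : ℂ × ℂ => ‖z.2 - z.1‖) (Continuous.continuousOn (by fun_prop))
      have hpos : 0 < ‖m.2 - m.1‖ := by
        rw [norm_pos_iff, sub_ne_zero]
        intro e
        have : m.1 ∈ (∅ : Set ℂ) := by
          rw [← hq]
          exact ⟨hm.1, by rw [← e]; exact hm.2⟩
        exact this
      have : ∀ᶠ r in nhdsWithin (0 : ℝ) (Set.Ioi 0), r < ‖m.2 - m.1‖ :=
        nhdsWithin_le_nhds (Iio_mem_nhds hpos)
      filter_upwards [this] with r hr _ z1 hz1 z2 hz2
      exact hr.le.trans (hmin (a := (z1, z2)) ⟨hz1, hz2⟩)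
    · exact Filter.Eventually.of_forall (fun r h2 => absurd h2 hq)
  have h3 := ((Filter.eventually_all.2 h1).and (Filter.eventually_all.2 h2)).and
    (self_mem_nhdsWithin (s := Set.Ioi (0 : ℝ)) (a := 0))
  obtain ⟨r, ⟨hr1, hr2⟩, hr0⟩ := h3.exists
  exact ⟨r, hr0, fun i j k => hr1 (i, j, k), fun i j => hr2 (i, j)⟩

/-- Consecutive collisions are on different sides. -/
lemma Run.ne {j k : ι} {w : List ι} {x W : ℂ} {s : ℝ} (h : T.Run (k :: j :: w) x W s) : k ≠ j := by
  rintro rfl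
  obtain ⟨s', h1, h2, h3, h4⟩ := h
  obtain ⟨s'', m1, m2, m3, m4⟩ := h1
  have e1 := T.coll m4.1
  obtain ⟨q, hq1, hq2⟩ := exists_between h2
  have h5 := h3 q hq1 hq2
  refine T.not_mem_of_side (i := k) ?_ h5
  have hc : Convex ℝ (T.side k) := convex_segment _ _
  rw [← e1] at m4
  have hss : s - s' ≠ 0 := by linarith
  have : T.gw (k :: w) x + q • T.Gw (k :: w) W ∈ segment ℝ
      (T.gw (k :: w) x + s' • T.Gw (k :: w) W) (T.gw (k :: w) x + s • T.Gw (k :: w) W) := by
    rw [segment_eq_image']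
    refine ⟨(q - s') / (s - s'), ⟨div_nonneg (by linarith) (by linarith), ?_⟩, ?_⟩
    · rw [div_le_one (by linarith)]; linarith
    · simp only
      rw [add_sub_add_left_eq_sub, ← sub_smul, smul_smul, div_mul_cancel₀ _ hss, add_assoc,
        ← add_smul]
      congr 2
      ring
  exact hc.segment_subset m4.1 h4.1 this

/-- The increment of the angle potential. -/
lemma Run.incr {κ : ℝ} (hκ : ∀ (i j : ι) (σ τ : Bool), i ≠ j →
    T.vert i σ = T.vert j τ → κ ≤ 1 - ip (T.ev i σ) (T.ev j τ)) {k l : ι} {w : List ι} {x W : ℂ}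
    {s : ℝ} (h : T.Run (l :: k :: w) x W s) {σ τ : Bool} (hv : T.vert k σ = T.vert l τ)
    (hκ0 : 0 < κ) :
    ip (T.Gw w W) (T.ev k σ) + κ * ‖W‖ ≤ ip (T.Gw (k :: w) W) (T.ev l τ) := by
  have hne := Run.ne T h
  obtain ⟨s', h1, h2, h3, h4⟩ := h
  obtain ⟨s'', m1, m2, m3, m4⟩ := h1
  have e1 := T.coll m4.1
  have hc := hκ k l σ τ hne.symm hv
  obtain ⟨r, hr, hzk⟩ := T.exists_pos_of_sd σ m4
  obtain ⟨r', hr', hzl⟩ := T.exists_pos_of_sd τ h4
  rw [← e1] at hzk
  have hU : ip (T.Gw w W) (T.ev k σ) = ip (T.Gw (k :: w) W) (T.ev k σ) := (T.ip_L k σ _).symm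
  rw [hU]
  set U := T.Gw (k :: w) W with hUd
  have hdiff : (s - s') • U = r' • T.ev l τ - r • T.ev k σ := by
    have : (s - s') • U = (T.gw (k :: w) x + s • U) - (T.gw (k :: w) x + s' • U) := by
      rw [add_sub_add_left_eq_sub, sub_smul]
    rw [this, hzl, hzk, hv]
    ring
  have h5 : (s - s') * (ip U (T.ev l τ) - ip U (T.ev k σ))
      = (r + r') * (1 - ip (T.ev k σ) (T.ev l τ)) := by
    have e3 : (s - s') * (ip U (T.ev l τ) - ip U (T.ev k σ))
        = ip ((s - s') • U) (T.ev l τ) - ip ((s - s') • U) (T.ev k σ) := by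
      rw [ip_smul_left, ip_smul_left]; ring
    rw [e3, hdiff, ip_sub_left, ip_sub_left, ip_smul_left, ip_smul_left, ip_smul_left, ip_smul_left,
      ip_self, ip_self, T.norm_ev, T.norm_ev, ip_comm (T.ev l τ) (T.ev k σ)]
    ring
  have h6 : (s - s') * ‖W‖ ≤ r + r' := by
    have e4 : ‖(s - s') • U‖ = (s - s') * ‖W‖ := by
      rw [norm_smul, hUd, T.norm_Gw, Real.norm_eq_abs, abs_of_pos (by linarith)]
    rw [← e4, hdiff]
    refine (norm_sub_le _ _).trans ?_
    rw [norm_smul, norm_smul, T.norm_ev, T.norm_ev, Real.norm_eq_abs, Real.norm_eq_abs,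
      abs_of_pos hr, abs_of_pos hr']
    linarith
  have h7 : (s - s') * (κ * ‖W‖) ≤ (s - s') * (ip U (T.ev l τ) - ip U (T.ev k σ)) := by
    rw [h5]
    calc (s - s') * (κ * ‖W‖) = κ * ((s - s') * ‖W‖) := by ring
      _ ≤ κ * (r + r') := mul_le_mul_of_nonneg_left h6 hκ0.le
      _ = (r + r') * κ := mul_comm _ _
      _ ≤ _ := mul_le_mul_of_nonneg_left hc (by linarith)
  have h8 := le_of_mul_le_mul_left h7 (by linarith : 0 < s - s')
  linarith

/-- The bound for the number of collisions. -/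
theorem exists_bounce [Finite ι] : ∃ A B : ℝ, 0 ≤ A ∧ 0 ≤ B ∧ ∀ (w : List ι) (x W : ℂ) (s : ℝ),
    W ≠ 0 → T.Run w x W s → (w.length : ℝ) ≤ A * (s * ‖W‖) + B := by
  obtain ⟨κ, hκ0, hκ⟩ := T.exists_kappa
  obtain ⟨r0, hr0, h3, h2⟩ := T.exists_r0
  set K : ℝ := 2 / κ + 1 with hK
  have hK0 : 0 < K := by positivity
  have main : ∀ (w : List ι) (j k : ι) (x W : ℂ) (s' s : ℝ), W ≠ 0 → T.Run (j :: w) x W s' →
      T.Run (k :: j :: w) x W s → ∃ Q : ℝ, 0 ≤ Q ∧ Q ≤ 2 / κ ∧
        (∀ σ τ : Bool, T.vert j σ = T.vert k τ →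
          Q ≤ (ip (T.Gw (j :: w) W) (T.ev k τ) / ‖W‖ + 1) / κ) ∧
        ((k :: j :: w).length : ℝ) ≤ K / r0 * ((s + s') * ‖W‖) + Q + 2 := by
    intro w
    induction w with
    | nil =>
      intro j k x W s' s hW h1 h2'
      have hWn : 0 < ‖W‖ := norm_pos_iff.2 hW
      refine ⟨0, le_rfl, by positivity, ?_, ?_⟩
      · intro σ τ _
        apply div_nonneg _ hκ0.le
        have := abs_ip_le (T.Gw [j] W) (T.ev k τ)
        rw [T.norm_Gw, T.norm_ev, mul_one] at this
        have h5 : -1 ≤ ip (T.Gw [j] W) (T.ev k τ) / ‖W‖ := by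
          rw [le_div_iff₀ hWn]
          linarith [(abs_le.1 this).1]
        linarith
      · have e1 := Run.nonneg T h1
        have e2 := Run.nonneg T h2'
        have : 0 ≤ K / r0 * ((s + s') * ‖W‖) := by positivity
        simp only [List.length_cons, List.length_nil]
        push_cast
        linarith
    | cons i w ih =>
      intro j k x W s' s hW h1 h2'
      have hWn : 0 < ‖W‖ := norm_pos_iff.2 hW
      have h1' := h1
      have h2'' := h2'
      obtain ⟨s'', m1, m2, m3, m4⟩ := h1'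
      obtain ⟨q', n1, n2, n3, n4⟩ := h2''
      obtain rfl := Run.unique T h1 n1
      obtain ⟨Q, hQ0, hQ1, hQ2, hQ3⟩ := ih i j x W s'' s' hW m1 h1
      have e1 := Run.nonneg T m1
      have hlen : ((k :: j :: i :: w).length : ℝ) = ((j :: i :: w).length : ℝ) + 1 := by
        simp
      rw [hlen]
      have hKr : 0 < K / r0 := by positivity
      by_cases hcase : k = i ∧ ∃ σ τ : Bool, T.vert i σ = T.vert j τ
      · obtain ⟨rfl, σ0, τ0, hvv⟩ := hcase
        have hinc : ∀ σ τ : Bool, T.vert j σ = T.vert k τ →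
            Q + 1 ≤ (ip (T.Gw (j :: k :: w) W) (T.ev k τ) / ‖W‖ + 1) / κ := by
          intro σ τ hst
          have h5 := Run.incr T hκ h2' hst hκ0
          have h6 := hQ2 τ σ hst.symm
          rw [le_div_iff₀ hκ0] at h6 ⊢
          have h7 : ip (T.Gw (k :: w) W) (T.ev j σ) / ‖W‖ + κ
              ≤ ip (T.Gw (j :: k :: w) W) (T.ev k τ) / ‖W‖ := by
            rw [le_div_iff₀ hWn, add_mul, div_mul_cancel₀ _ hWn.ne']
            exact h5
          linarith
        refine ⟨Q + 1, by linarith, ?_, hinc, ?_⟩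
        · have h8 := hinc τ0 σ0 hvv.symm
          refine h8.trans ?_
          apply div_le_div_of_nonneg_right _ hκ0.le
          have := abs_ip_le (T.Gw (j :: k :: w) W) (T.ev k σ0)
          rw [T.norm_Gw, T.norm_ev, mul_one] at this
          have h9 : ip (T.Gw (j :: k :: w) W) (T.ev k σ0) / ‖W‖ ≤ 1 := by
            rw [div_le_one hWn]
            linarith [(abs_le.1 this).2]
          linarith
        · have : K / r0 * ((s' + s'') * ‖W‖) ≤ K / r0 * ((s + s') * ‖W‖) := by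
            apply mul_le_mul_of_nonneg_left _ hKr.le
            apply mul_le_mul_of_nonneg_right _ hWn.le
            linarith
          linarith
      · refine ⟨0, le_rfl, by positivity, ?_, ?_⟩
        · intro σ τ _
          apply div_nonneg _ hκ0.le
          have := abs_ip_le (T.Gw (j :: i :: w) W) (T.ev k τ)
          rw [T.norm_Gw, T.norm_ev, mul_one] at this
          have h5 : -1 ≤ ip (T.Gw (j :: i :: w) W) (T.ev k τ) / ‖W‖ := by
            rw [le_div_iff₀ hWn]
            linarith [(abs_le.1 this).1]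
          linarith
        · -- the distance is at least `r0`
          have hkj := Run.ne T h2'
          have hji := Run.ne T h1
          obtain ⟨s3, p1, p2, p3, p4⟩ := m1
          have c1 := T.coll p4.1
          have c2 := T.coll m4.1
          have d1 : ‖(T.gw (i :: w) x + s' • T.Gw (i :: w) W)
              - (T.gw (i :: w) x + s'' • T.Gw (i :: w) W)‖ = (s' - s'') * ‖W‖ := by
            rw [add_sub_add_left_eq_sub, ← sub_smul, norm_smul, T.norm_Gw, Real.norm_eq_abs,
              abs_of_pos (by linarith)]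
          have d2 : ‖(T.gw (j :: i :: w) x + s • T.Gw (j :: i :: w) W)
              - (T.gw (j :: i :: w) x + s' • T.Gw (j :: i :: w) W)‖ = (s - s') * ‖W‖ := by
            rw [add_sub_add_left_eq_sub, ← sub_smul, norm_smul, T.norm_Gw, Real.norm_eq_abs,
              abs_of_pos (by linarith)]
          rw [c1] at d1
          rw [c2] at d2
          have hdist : r0 ≤ (s - s'') * ‖W‖ := by
            by_cases hki : k = i
            · have hdisj : T.side j ∩ T.side k = ∅ := by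
                by_contra hne
                obtain ⟨z, hz1, hz2⟩ := Set.nonempty_iff_ne_empty.2 hne
                have h5 := T.cross j k hkj.symm ⟨hz1, hz2⟩
                apply hcase
                refine ⟨hki, ?_⟩
                rw [← hki]
                have g1 : ∃ σ, T.vert k σ = z := by
                  rcases h5.2 with h | h
                  · exact ⟨true, h.symm⟩
                  · exact ⟨false, h.symm⟩
                have g2 : ∃ τ, T.vert j τ = z := by
                  rcases h5.1 with h | h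
                  · exact ⟨true, h.symm⟩
                  · exact ⟨false, h.symm⟩
                obtain ⟨σ, hσ⟩ := g1
                obtain ⟨τ, hτ⟩ := g2
                exact ⟨σ, τ, by rw [hσ, hτ]⟩
              have := h2 j k hdisj _ m4.1 _ n4.1
              rw [d2] at this
              refine this.trans ?_
              apply mul_le_mul_of_nonneg_right _ hWn.le
              linarith
            · have := h3 i j k hji.symm hkj.symm (Ne.symm hki) _ p4.1 _ m4.1 _ n4.1
              rw [d1, d2] at this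
              linarith
          have h9 : K ≤ K / r0 * ((s - s'') * ‖W‖) := by
            calc K = K / r0 * r0 := by field_simp
              _ ≤ _ := mul_le_mul_of_nonneg_left hdist hKr.le
          have h10 : K / r0 * ((s + s') * ‖W‖) = K / r0 * ((s' + s'') * ‖W‖)
              + K / r0 * ((s - s'') * ‖W‖) := by ring
          rw [h10]
          linarith
  refine ⟨2 * (K / r0), 2 / κ + 2, by positivity, by positivity, ?_⟩
  intro w x W s hW hrun
  have hWn : 0 < ‖W‖ := norm_pos_iff.2 hW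
  have e1 := Run.nonneg T hrun
  have hpos : 0 ≤ 2 * (K / r0) * (s * ‖W‖) := by positivity
  have hκ2 : 0 < 2 / κ := by positivity
  match w, hrun with
  | [], _ =>
    simp only [List.length_nil]
    push_cast
    linarith
  | [i], _ =>
    simp only [List.length_cons, List.length_nil]
    push_cast
    linarith
  | k :: j :: w, hrun =>
    have hrun' := hrun
    obtain ⟨s', n1, n2, _⟩ := hrun'
    obtain ⟨Q, _, hQ1, _, hQ3⟩ := main w j k x W s' s hW n1 hrun
    have h11 : K / r0 * ((s + s') * ‖W‖) ≤ K / r0 * ((s + s) * ‖W‖) := by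
      apply mul_le_mul_of_nonneg_left _ (by positivity)
      apply mul_le_mul_of_nonneg_right _ hWn.le
      linarith
    have h12 : K / r0 * ((s + s) * ‖W‖) = 2 * (K / r0) * (s * ‖W‖) := by ring
    linarith

end Tab

end Pool.Agent.Helper90.BE
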