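import Mathlib
import Pool.Agent.Helper90.BE.Bounce

/-!
If a thin triangle can be developed without meeting a vertex, then all its segments to the apex
have the same collisions.
-/

set_option linter.dupNamespace false

open MeasureTheory Complex
open scoped Real ENNReal ComplexConjugate

noncomputable section

namespace Pool.Agent.Helper90.BE

variable {ι : Type} (T : Tab ι)

namespace Tab

/-- The base `[p, p']` of a triangle with apex `c` is admissible: every side either misses the base,
or its line contains the base and not the apex. -/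
def Base (p p' c : ℂ) : Prop :=
  ∀ k, (∀ z ∈ segment ℝ p p', z ∉ T.side k) ∨ (T.ps k p = 0 ∧ T.ps k p' = 0 ∧ T.ps k c ≠ 0)

lemma ps_segment {k : ι} {x y z : ℂ} (hz : z ∈ segment ℝ x y) :
    ∃ s : ℝ, 0 ≤ s ∧ s ≤ 1 ∧ z = x + s • (y - x) ∧ T.ps k z = (1 - s) * T.ps k x + s * T.ps k y := by
  rw [segment_eq_image'] at hz
  obtain ⟨s, hs, rfl⟩ := hz
  exact ⟨s, hs.1, hs.2, rfl, T.ps_lin k x y s⟩

/-- An affine function without zero on a segment has the same sign at the endpoints. -/
lemma ps_sign {k : ι} {x y : ℂ} (h : ∀ z ∈ segment ℝ x y, T.ps k z ≠ 0) :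
    0 < T.ps k x * T.ps k y := by
  by_contra hcon
  push Not at hcon
  have hx : T.ps k x ≠ 0 := h x (left_mem_segment ℝ _ _)
  have hy : T.ps k y ≠ 0 := h y (right_mem_segment ℝ _ _)
  have hlt : T.ps k x * T.ps k y < 0 := lt_of_le_of_ne hcon (mul_ne_zero hx hy)
  have hxx : 0 < T.ps k x * T.ps k x := mul_self_pos.2 hx
  have hyy : 0 < T.ps k y * T.ps k y := mul_self_pos.2 hy
  have hd : T.ps k x - T.ps k y ≠ 0 := by
    intro h0
    have : T.ps k x = T.ps k y := by linarith
    rw [this] at hlt
    linarith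
  set s := T.ps k x / (T.ps k x - T.ps k y) with hs
  have hs1 : 0 ≤ s ∧ s ≤ 1 := by
    have e1 : s = (T.ps k x * T.ps k x - T.ps k x * T.ps k y) / (T.ps k x - T.ps k y) ^ 2 := by
      rw [hs]; field_simp
    have e2 : 1 - s = (T.ps k y * T.ps k y - T.ps k x * T.ps k y) / (T.ps k x - T.ps k y) ^ 2 := by
      rw [hs]; field_simp; ring
    constructor
    · rw [e1]; apply div_nonneg _ (sq_nonneg _); linarith
    · have : 0 ≤ 1 - s := by rw [e2]; apply div_nonneg _ (sq_nonneg _); linarith
      linarith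
  apply h (x + s • (y - x))
  · rw [segment_eq_image']
    exact ⟨s, hs1, rfl⟩
  · rw [T.ps_lin, hs]
    field_simp
    ring

/-- Two nonzero numbers of the sign of a third one, convex combination. -/
lemma comb_ne {a x y s : ℝ} (hx : 0 < a * x) (hy : 0 < a * y) (hs0 : 0 ≤ s) (hs1 : s ≤ 1) :
    0 < a * ((1 - s) * x + s * y) := by
  have e : a * ((1 - s) * x + s * y) = (1 - s) * (a * x) + s * (a * y) := by ring
  rw [e]
  rcases hs0.eq_or_lt with h | h
  · rw [← h]; linarith
  · have h1 : 0 ≤ (1 - s) * (a * x) := mul_nonneg (by linarith) hx.le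
    have h2 : 0 < s * (a * y) := mul_pos h hy
    linarith

/-- The last part of the development: no collision. -/
lemma last_part {D : Set ℂ} (hD : Convex ℝ D) (hV : ∀ z ∈ D, z ∉ T.V) {p p' c : ℂ} (hp : p ∈ D)
    (hp' : p' ∈ D) (hc : c ∈ D) (hb : T.Base p p' c)
    (h : ∀ s : ℝ, 0 < s → s ≤ 1 → p + s • (c - p) ∈ T.Om) :
    ∀ s : ℝ, 0 < s → s ≤ 1 → p' + s • (c - p') ∈ T.Om := by
  have hcO : c ∈ T.Om := by
    have := h 1 one_pos le_rfl
    rwa [one_smul, add_sub_cancel] at this
  -- no side meets the triangle off the base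
  have key : ∀ z ∈ segment ℝ p p', ∀ s : ℝ, 0 < s → s ≤ 1 → ∀ k, z + s • (c - z) ∉ T.side k := by
    intro z hz s hs0 hs1 k hk
    have hzD : z ∈ D := hD.segment_subset hp hp' hz
    have hbD : z + s • (c - z) ∈ D := by
      apply hD.segment_subset hzD hc
      rw [segment_eq_image']
      exact ⟨s, ⟨hs0.le, hs1⟩, rfl⟩
    rcases hb k with h1 | ⟨h1, h2, h3⟩
    · have hne : ∀ y ∈ D, y ∉ T.side k → T.ps k y ≠ 0 := fun y hy hyk h0 =>
        hyk (T.full_chord hD hV hbD hk hy h0)
      have s1 : 0 < T.ps k p * T.ps k z := by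
        apply T.ps_sign
        intro y hy
        have : y ∈ segment ℝ p p' := (convex_segment p p').segment_subset
          (left_mem_segment ℝ _ _) hz hy
        exact hne y (hD.segment_subset hp hp' this) (h1 y this)
      have s2 : 0 < T.ps k p * T.ps k c := by
        apply T.ps_sign
        intro y hy
        apply hne y (hD.segment_subset hp hc hy)
        rw [segment_eq_image'] at hy
        obtain ⟨r, hr, rfl⟩ := hy
        rcases hr.1.eq_or_lt with h0 | h0
        · simp only
          rw [← h0, zero_smul, add_zero]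
          exact h1 p (left_mem_segment ℝ _ _)
        · intro h5
          exact T.not_mem_of_side h5 (h r h0 hr.2)
      have s3 := comb_ne s1 s2 hs0.le hs1
      rw [← T.ps_lin, T.ps_side hk, mul_zero] at s3
      exact lt_irrefl _ s3
    · obtain ⟨r, _, _, _, hr⟩ := T.ps_segment (k := k) hz
      rw [h1, h2] at hr
      have h5 := T.ps_lin k z c s
      rw [T.ps_side hk, hr] at h5
      have h6 : s * T.ps k c = 0 := by linarith
      rcases mul_eq_zero.1 h6 with h7 | h7
      · exact hs0.ne' h7
      · exact h3 h7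
  intro s hs0 hs1
  have hseg : segment ℝ (p + s • (c - p)) (p' + s • (c - p')) ⊆ T.Om := by
    apply T.subset_Om (convex_segment _ _).isPreconnected _ (left_mem_segment ℝ _ _)
      (h s hs0 hs1)
    intro k y hy
    rw [segment_eq_image'] at hy
    obtain ⟨r, hr, rfl⟩ := hy
    have := key (p + r • (p' - p)) (by rw [segment_eq_image']; exact ⟨r, hr, rfl⟩) s hs0 hs1 k
    convert this using 1
    simp only [real_smul]
    ring
  exact hseg (right_mem_segment ℝ _ _)

/-- One collision. -/
lemma chord {D : Set ℂ} (hD : Convex ℝ D) (hV : ∀ z ∈ D, z ∉ T.V) {p p' c : ℂ} (hp : p ∈ D)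
    (hp' : p' ∈ D) (hc : c ∈ D) (hb : T.Base p p' c) {j : ι} {s0 : ℝ} (h0 : 0 < s0) (h1 : s0 < 1)
    (hq : p + s0 • (c - p) ∈ T.side j)
    (h : ∀ s : ℝ, 0 < s → s < s0 → p + s • (c - p) ∈ T.Om) :
    T.ps j c ≠ 0 ∧ ∃ s1 : ℝ, 0 < s1 ∧ s1 < 1 ∧ p' + s1 • (c - p') ∈ T.side j ∧
      ∀ s : ℝ, 0 < s → s < s1 → p' + s • (c - p') ∈ T.Om := by
  have hmemD : ∀ z ∈ D, ∀ s : ℝ, 0 ≤ s → s ≤ 1 → z + s • (c - z) ∈ D := by
    intro z hz s hs0 hs1
    apply hD.segment_subset hz hc
    rw [segment_eq_image']
    exact ⟨s, ⟨hs0, hs1⟩, rfl⟩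
  have hqD := hmemD p hp s0 h0.le h1.le
  have hq0 : (1 - s0) * T.ps j p + s0 * T.ps j c = 0 := by
    rw [← T.ps_lin]
    exact T.ps_side hq
  have hfull : ∀ y ∈ D, T.ps j y = 0 → y ∈ T.side j := fun y hy hy0 =>
    T.full_chord hD hV hqD hq hy hy0
  -- the base is not on the line
  have hbj : ∀ z ∈ segment ℝ p p', T.ps j z ≠ 0 := by
    rcases hb j with h2 | ⟨h2, _, h4⟩
    · intro z hz hz0
      exact h2 z hz (hfull z (hD.segment_subset hp hp' hz) hz0)
    · exfalso
      rw [h2, mul_zero, zero_add] at hq0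
      rcases mul_eq_zero.1 hq0 with h5 | h5
      · exact h0.ne' h5
      · exact h4 h5
  have hpj : T.ps j p ≠ 0 := hbj p (left_mem_segment ℝ _ _)
  have hpp : 0 < T.ps j p * T.ps j p := mul_self_pos.2 hpj
  have hac : T.ps j p * T.ps j c < 0 := by
    have e : s0 * (T.ps j p * T.ps j c) = - ((1 - s0) * (T.ps j p * T.ps j p)) := by
      have : s0 * T.ps j c = -((1 - s0) * T.ps j p) := by linarith
      calc s0 * (T.ps j p * T.ps j c) = T.ps j p * (s0 * T.ps j c) := by ring
        _ = _ := by rw [this]; ring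
    by_contra hcon
    push Not at hcon
    have h5 : 0 ≤ s0 * (T.ps j p * T.ps j c) := mul_nonneg h0.le hcon
    have h6 : 0 < (1 - s0) * (T.ps j p * T.ps j p) := mul_pos (by linarith) hpp
    linarith
  have hcj : T.ps j c ≠ 0 := by
    intro h5
    rw [h5, mul_zero] at hac
    exact lt_irrefl _ hac
  have hsz : ∀ z ∈ segment ℝ p p', 0 < T.ps j p * T.ps j z := by
    intro z hz
    apply T.ps_sign
    intro y hy
    exact hbj y ((convex_segment p p').segment_subset (left_mem_segment ℝ _ _) hz hy)
  -- no side meets the part of the triangle between base and line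
  have key : ∀ z ∈ segment ℝ p p', ∀ s : ℝ, 0 < s → s ≤ 1 →
      0 < T.ps j p * T.ps j (z + s • (c - z)) → ∀ k, z + s • (c - z) ∉ T.side k := by
    intro z hz s hs0 hs1 hpos k hk
    have hzD : z ∈ D := hD.segment_subset hp hp' hz
    have hbD : z + s • (c - z) ∈ D := hmemD z hzD s hs0.le hs1
    have hkj : k ≠ j := by
      rintro rfl
      rw [T.ps_side hk, mul_zero] at hpos
      exact lt_irrefl _ hpos
    rcases hb k with h2 | ⟨h2, h3, h4⟩
    · have hne : ∀ y ∈ D, y ∉ T.side k → T.ps k y ≠ 0 := fun y hy hyk h0 =>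
        hyk (T.full_chord hD hV hbD hk hy h0)
      have hnj : ∀ y ∈ D, y ∈ T.side j → y ∉ T.side k := by
        intro y hy hyj hyk
        exact hkj (T.eq_of_mem_sd ⟨hyk, hV y hy⟩ hyj)
      have s1 : 0 < T.ps k p * T.ps k z := by
        apply T.ps_sign
        intro y hy
        have : y ∈ segment ℝ p p' := (convex_segment p p').segment_subset
          (left_mem_segment ℝ _ _) hz hy
        exact hne y (hD.segment_subset hp hp' this) (h2 y this)
      have s2 : 0 < T.ps k p * T.ps k (p + s0 • (c - p)) := by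
        apply T.ps_sign
        intro y hy
        apply hne y (hD.segment_subset hp hqD hy)
        rw [segment_eq_image'] at hy
        obtain ⟨r, hr, rfl⟩ := hy
        simp only [add_sub_cancel_left, smul_smul]
        rcases hr.1.eq_or_lt with h5 | h5
        · rw [← h5, zero_mul, zero_smul, add_zero]
          exact h2 p (left_mem_segment ℝ _ _)
        · rcases hr.2.eq_or_lt with h6 | h6
          · rw [h6, one_mul]
            exact hnj _ hqD hq
          · intro h7
            refine T.not_mem_of_side h7 (h (r * s0) (by positivity) ?_)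
            calc r * s0 < 1 * s0 := mul_lt_mul_of_pos_right h6 h0
              _ = s0 := one_mul _
      -- the point of the chord on the segment from `z` to `c`
      have hz1 := hsz z hz
      have hden : T.ps j z - T.ps j c ≠ 0 := by
        intro h5
        have : T.ps j z = T.ps j c := by linarith
        rw [this] at hz1
        linarith
      set σ := T.ps j z / (T.ps j z - T.ps j c) with hσ
      have hden2 : 0 < T.ps j p * (T.ps j z - T.ps j c) := by
        rw [mul_sub]; linarith
      have hσ' : σ = (T.ps j p * T.ps j z) / (T.ps j p * (T.ps j z - T.ps j c)) := by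
        rw [hσ, mul_div_mul_left _ _ hpj]
      have hσ0 : 0 < σ := by rw [hσ']; exact div_pos hz1 hden2
      have hσ1 : σ < 1 := by
        rw [hσ', div_lt_one hden2, mul_sub]; linarith
      have hqz0 : T.ps j (z + σ • (c - z)) = 0 := by
        rw [T.ps_lin, hσ]
        field_simp
        ring
      have hqzD := hmemD z hzD σ hσ0.le hσ1.le
      have hqzj := hfull _ hqzD hqz0
      have hsσ : s < σ := by
        rw [T.ps_lin] at hpos
        rw [hσ', lt_div_iff₀ hden2]
        have e : T.ps j p * ((1 - s) * T.ps j z + s * T.ps j c)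
            = T.ps j p * T.ps j z - s * (T.ps j p * (T.ps j z - T.ps j c)) := by ring
        rw [e] at hpos
        linarith
      have s3 : 0 < T.ps k (p + s0 • (c - p)) * T.ps k (z + σ • (c - z)) := by
        apply T.ps_sign
        intro y hy
        have hyD : y ∈ D := hD.segment_subset hqD hqzD hy
        apply hne y hyD
        apply hnj y hyD
        exact (convex_segment (𝕜 := ℝ) (T.a j) (T.b j)).segment_subset hq hqzj hy
      have s4 : 0 < T.ps k p * T.ps k (z + σ • (c - z)) := by
        have e : (T.ps k (p + s0 • (c - p))) ^ 2 * (T.ps k p * T.ps k (z + σ • (c - z)))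
            = (T.ps k p * T.ps k (p + s0 • (c - p)))
              * (T.ps k (p + s0 • (c - p)) * T.ps k (z + σ • (c - z))) := by ring
        have h5 : 0 < (T.ps k (p + s0 • (c - p))) ^ 2 * (T.ps k p * T.ps k (z + σ • (c - z))) := by
          rw [e]; exact mul_pos s2 s3
        by_contra hcon
        push Not at hcon
        have h6 := mul_nonpos_of_nonneg_of_nonpos (sq_nonneg (T.ps k (p + s0 • (c - p)))) hcon
        linarith
      have hmu0 : 0 ≤ s / σ := by positivity
      have hmu1 : s / σ ≤ 1 := by rw [div_le_one hσ0]; exact hsσ.le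
      have s5 := comb_ne s1 s4 hmu0 hmu1
      rw [← T.ps_lin] at s5
      have e : z + (s / σ) • (z + σ • (c - z) - z) = z + s • (c - z) := by
        rw [add_sub_cancel_left, smul_smul, div_mul_cancel₀ _ hσ0.ne']
      rw [e, T.ps_side hk, mul_zero] at s5
      exact lt_irrefl _ s5
    · obtain ⟨r, _, _, _, hr⟩ := T.ps_segment (k := k) hz
      rw [h2, h3] at hr
      have h5 := T.ps_lin k z c s
      rw [T.ps_side hk, hr] at h5
      have h6 : s * T.ps k c = 0 := by linarith
      rcases mul_eq_zero.1 h6 with h7 | h7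
      · exact hs0.ne' h7
      · exact h4 h7
  -- the chord point on the edge of `p'`
  have hp'1 := hsz p' (right_mem_segment ℝ _ _)
  have hden2 : 0 < T.ps j p * (T.ps j p' - T.ps j c) := by
    rw [mul_sub]; linarith
  obtain ⟨s1, hs1⟩ : ∃ s1 : ℝ, s1 = (T.ps j p * T.ps j p') / (T.ps j p * (T.ps j p' - T.ps j c)) :=
    ⟨_, rfl⟩
  have hs10 : 0 < s1 := by rw [hs1]; exact div_pos hp'1 hden2
  have hs11 : s1 < 1 := by rw [hs1, div_lt_one hden2, mul_sub]; linarith
  have hval : ∀ s : ℝ, T.ps j p * T.ps j (p' + s • (c - p'))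
      = (s1 - s) * (T.ps j p * (T.ps j p' - T.ps j c)) := by
    intro s
    have hm : s1 * (T.ps j p * (T.ps j p' - T.ps j c)) = T.ps j p * T.ps j p' := by
      rw [hs1, div_mul_cancel₀ _ hden2.ne']
    rw [T.ps_lin, sub_mul s1 s, hm]
    ring
  have hq'0 : T.ps j (p' + s1 • (c - p')) = 0 := by
    have := hval s1
    rw [sub_self, zero_mul] at this
    rcases mul_eq_zero.1 this with h5 | h5
    · exact absurd h5 hpj
    · exact h5
  refine ⟨hcj, s1, hs10, hs11, hfull _ (hmemD p' hp' s1 hs10.le hs11.le) hq'0, ?_⟩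
  -- a small parameter
  obtain ⟨m, hm0, hm1, hm2⟩ : ∃ m : ℝ, 0 < m ∧ m ≤ T.ps j p * T.ps j p ∧
      m ≤ T.ps j p * T.ps j p' := ⟨min _ _, lt_min hpp hp'1, min_le_left _ _, min_le_right _ _⟩
  obtain ⟨t, ht0, ht1⟩ : ∃ t : ℝ, 0 < t ∧ t < min s0 (min s1 (m / (m - T.ps j p * T.ps j c))) := by
    apply exists_between
    apply lt_min h0
    apply lt_min hs10
    apply div_pos hm0
    linarith
  have hts0 : t < s0 := lt_of_lt_of_le ht1 (min_le_left _ _)
  have hts1 : t < s1 := lt_of_lt_of_le ht1 ((min_le_right _ _).trans (min_le_left _ _))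
  have htm : t < m / (m - T.ps j p * T.ps j c) :=
    lt_of_lt_of_le ht1 ((min_le_right _ _).trans (min_le_right _ _))
  rw [lt_div_iff₀ (by linarith)] at htm
  have hstart : p' + t • (c - p') ∈ T.Om := by
    have hseg : segment ℝ (p + t • (c - p)) (p' + t • (c - p')) ⊆ T.Om := by
      apply T.subset_Om (convex_segment _ _).isPreconnected _ (left_mem_segment ℝ _ _)
        (h t ht0 hts0)
      intro k y hy
      rw [segment_eq_image'] at hy
      obtain ⟨r, hr, rfl⟩ := hy
      have hz : p + r • (p' - p) ∈ segment ℝ p p' := by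
        rw [segment_eq_image']; exact ⟨r, hr, rfl⟩
      have := key (p + r • (p' - p)) hz t ht0 (by linarith) ?_ k
      · convert this using 1
        simp only [real_smul]
        ring
      · rw [T.ps_lin, T.ps_lin]
        have e : T.ps j p * ((1 - t) * ((1 - r) * T.ps j p + r * T.ps j p') + t * T.ps j c)
            = (1 - t) * ((1 - r) * (T.ps j p * T.ps j p) + r * (T.ps j p * T.ps j p'))
              + t * (T.ps j p * T.ps j c) := by ring
        rw [e]
        have h5 : m ≤ (1 - r) * (T.ps j p * T.ps j p) + r * (T.ps j p * T.ps j p') := by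
          have a1 := mul_le_mul_of_nonneg_left hm1 (show 0 ≤ 1 - r by linarith [hr.2])
          have a2 := mul_le_mul_of_nonneg_left hm2 hr.1
          linarith
        have h6 := mul_le_mul_of_nonneg_left h5 (show 0 ≤ 1 - t by linarith)
        linarith
    exact hseg (right_mem_segment ℝ _ _)
  intro s hs0 hs1'
  have hseg : segment ℝ (p' + t • (c - p')) (p' + s • (c - p')) ⊆ T.Om := by
    apply T.subset_Om (convex_segment _ _).isPreconnected _ (left_mem_segment ℝ _ _) hstart
    intro k y hy
    rw [segment_eq_image'] at hy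
    obtain ⟨r, hr, rfl⟩ := hy
    have e : p' + t • (c - p') + r • (p' + s • (c - p') - (p' + t • (c - p')))
        = p' + (t + r * (s - t)) • (c - p') := by
      simp only [real_smul]
      push_cast
      ring
    simp only
    rw [e]
    have h5 : 0 < t + r * (s - t) ∧ t + r * (s - t) < s1 := by
      have : t + r * (s - t) = (1 - r) * t + r * s := by ring
      rw [this]
      rcases hr.1.eq_or_lt with h6 | h6
      · rw [← h6]
        constructor <;> linarith
      · have a1 : 0 ≤ (1 - r) * t := mul_nonneg (by linarith [hr.2]) ht0.le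
        have a2 : 0 < r * s := mul_pos h6 hs0
        have a3 : (1 - r) * t ≤ (1 - r) * s1 :=
          mul_le_mul_of_nonneg_left hts1.le (by linarith [hr.2])
        have a4 : r * s < r * s1 := mul_lt_mul_of_pos_left hs1' h6
        constructor <;> linarith
    refine key p' (right_mem_segment ℝ _ _) _ h5.1 (by linarith) ?_ k
    rw [hval]
    exact mul_pos (by linarith) hden2
  exact hseg (right_mem_segment ℝ _ _)

lemma ps_R (k : ι) (z : ℂ) : T.ps k (T.R k z) = - T.ps k z := by
  have h1 : T.R k z = T.a k + T.L k (z - T.a k) := rfl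
  rw [h1, ps_add, pl_L, pl_sub, ps_a]
  ring

/-- The image of a convex set under a word is convex. -/
lemma convex_gw {D : Set ℂ} (hD : Convex ℝ D) (w : List ι) : Convex ℝ (T.gw w '' D) := by
  rintro _ ⟨x, hx, rfl⟩ _ ⟨y, hy, rfl⟩ a b ha hb hab
  refine ⟨a • x + b • y, hD hx hy ha hb hab, ?_⟩
  have e1 : a • x + b • y = x + b • (y - x) := by
    have : a = 1 - b := by linarith
    rw [this, sub_smul, one_smul, smul_sub]
    ring
  rw [e1, T.gw_add, T.Gw_smul, ← T.gw_sub]
  have : a = 1 - b := by linarith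
  rw [this, sub_smul, one_smul, smul_sub]
  ring

/-- The position on the last segment, in terms of the position of the last collision. -/
lemma pos_eq (w : List ι) (x W : ℂ) {s : ℝ} (hs : s < 1) (r : ℝ) :
    T.gw w x + (s + r * (1 - s)) • T.Gw w W
      = (T.gw w x + s • T.Gw w W) + r • (T.gw w (x + W) - (T.gw w x + s • T.Gw w W)) := by
  rw [T.gw_add]
  simp only [real_smul]
  push_cast
  ring

/-- All segments of the developed triangle have the same collisions: the inductive step. The
convex sets `D w` contain the parts of the triangle which are developed with the word `w`. -/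
lemma run_tri {D : List ι → Set ℂ} (hD : ∀ w, Convex ℝ (D w)) {x x' c : ℂ}
    (hc : ∀ w, c ∈ D w) (hseg : segment ℝ x x' ⊆ T.Om)
    (hX : ∀ (w : List ι) (s : ℝ), s < 1 → T.Run w x (c - x) s → x + s • (c - x) ∈ D w)
    (hX' : ∀ (w : List ι) (s : ℝ), s < 1 → T.Run w x' (c - x') s → x' + s • (c - x') ∈ D w) {M : ℕ}
    (hV : ∀ w : List ι, w.length ≤ M → ∀ z ∈ D w, T.gw w z ∉ T.V) :
    ∀ (w : List ι) (s : ℝ), w.length ≤ M → s < 1 → T.Run w x (c - x) s →
      ∃ s' : ℝ, s' < 1 ∧ T.Run w x' (c - x') s' ∧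
        T.Base (T.gw w x + s • T.Gw w (c - x)) (T.gw w x' + s' • T.Gw w (c - x')) (T.gw w c) := by
  intro w
  induction w with
  | nil =>
    intro s _ _ h
    obtain ⟨rfl, _⟩ := h
    refine ⟨0, one_pos, ⟨rfl, hseg (right_mem_segment ℝ _ _)⟩, ?_⟩
    intro k
    left
    intro z hz hzk
    simp only [gw, Gw, zero_smul, add_zero] at hz
    exact T.not_mem_of_side hzk (hseg hz)
  | cons j w ih =>
    intro s2 hlen hs2 h
    simp only [List.length_cons] at hlen
    obtain ⟨s, h1, h2, h3, h4⟩ := h
    have hs1 : s < 1 := h2.trans hs2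
    obtain ⟨s', hs'1, hrun', hbase⟩ := ih s (by omega) hs1 h1
    have hD' := T.convex_gw (hD w) w
    have hVw := hV w (by omega)
    have hV' : ∀ z ∈ T.gw w '' D w, z ∉ T.V := by
      rintro _ ⟨z, hz, rfl⟩
      exact hVw z hz
    have hxc : x + (c - x) = c := by ring
    have hxc' : x' + (c - x') = c := by ring
    -- the points of the last part of a trajectory
    have mem1 : ∀ (y : ℂ) (q r : ℝ), y + q • (c - y) ∈ D w → q < 1 → q ≤ r → r ≤ 1 →
        T.gw w y + r • T.Gw w (c - y) ∈ T.gw w '' D w := by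
      intro y q r hyq hq1 hqr hr1
      refine ⟨y + r • (c - y), ?_, ?_⟩
      · apply (hD w).segment_subset hyq (hc w)
        rw [segment_eq_image']
        have h1q : 0 < 1 - q := by linarith
        refine ⟨(r - q) / (1 - q), ⟨by apply div_nonneg <;> linarith, ?_⟩, ?_⟩
        · rw [div_le_one h1q]; linarith
        · have e1 : c - (y + q • (c - y)) = (1 - q) • (c - y) := by module
          simp only
          rw [e1, smul_smul, div_mul_cancel₀ _ h1q.ne', add_assoc, ← add_smul]
          congr 2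
          ring
      · rw [T.gw_add, T.Gw_smul]
    have hs0 := Run.nonneg T h1
    have hs'0 := Run.nonneg T hrun'
    have hxs := hX w s hs1 h1
    have hx's := hX' w s' hs'1 hrun'
    have hpD := mem1 x s s hxs hs1 le_rfl hs1.le
    have hp'D := mem1 x' s' s' hx's hs'1 le_rfl hs'1.le
    have hcD : T.gw w c ∈ T.gw w '' D w := ⟨c, hc w, rfl⟩
    -- the collision in the coordinates of the last segment
    have hpos : ∀ r : ℝ, T.gw w x + (s + r * (1 - s)) • T.Gw w (c - x)
        = (T.gw w x + s • T.Gw w (c - x)) + r • (T.gw w c - (T.gw w x + s • T.Gw w (c - x))) := by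
      intro r
      rw [T.pos_eq w x (c - x) hs1 r, hxc]
    have hpos' : ∀ r : ℝ, T.gw w x' + (s' + r * (1 - s')) • T.Gw w (c - x')
        = (T.gw w x' + s' • T.Gw w (c - x'))
          + r • (T.gw w c - (T.gw w x' + s' • T.Gw w (c - x'))) := by
      intro r
      rw [T.pos_eq w x' (c - x') hs'1 r, hxc']
    obtain ⟨s0, hs0d⟩ : ∃ s0 : ℝ, s0 = (s2 - s) / (1 - s) := ⟨_, rfl⟩
    have h1s : 0 < 1 - s := by linarith
    have hs00 : 0 < s0 := by rw [hs0d]; apply div_pos <;> linarith
    have hs01 : s0 < 1 := by rw [hs0d, div_lt_one h1s]; linarith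
    have hs2e : s + s0 * (1 - s) = s2 := by rw [hs0d, div_mul_cancel₀ _ h1s.ne']; ring
    have hq : (T.gw w x + s • T.Gw w (c - x))
        + s0 • (T.gw w c - (T.gw w x + s • T.Gw w (c - x))) ∈ T.side j := by
      rw [← hpos, hs2e]
      exact h4.1
    obtain ⟨hcj, s1, hs10, hs11, hq', hpath⟩ := T.chord hD' hV' hpD hp'D hcD hbase hs00 hs01 hq (by
      intro r hr0 hr1
      rw [← hpos]
      apply h3
      · have : 0 < r * (1 - s) := by positivity
        linarith
      · have : r * (1 - s) < s0 * (1 - s) := mul_lt_mul_of_pos_right hr1 h1s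
        linarith)
    have h1s' : 0 < 1 - s' := by linarith
    obtain ⟨s2', hs2'⟩ : ∃ s2' : ℝ, s2' = s' + s1 * (1 - s') := ⟨_, rfl⟩
    have hs2'1 : s2' < 1 := by
      have : s1 * (1 - s') < 1 * (1 - s') := mul_lt_mul_of_pos_right hs11 h1s'
      linarith
    have hs2's : s' < s2' := by
      have : 0 < s1 * (1 - s') := by positivity
      linarith
    rw [← hpos', ← hs2'] at hq'
    have hq'D := mem1 x' s' s2' hx's hs'1 hs2's.le hs2'1.le
    have hqD := mem1 x s s2 hxs hs1 h2.le hs2.le
    refine ⟨s2', hs2'1, ⟨s', hrun', hs2's, ?_, ⟨hq', hV' _ hq'D⟩⟩, ?_⟩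
    · intro r hr0 hr1
      have := hpath ((r - s') / (1 - s')) (by apply div_pos <;> linarith) (by
        rw [div_lt_iff₀ h1s']; linarith)
      rw [← hpos', div_mul_cancel₀ _ h1s'.ne'] at this
      convert this using 3
      ring
    · rw [T.coll h4.1, T.coll hq']
      intro k
      by_cases hkj : k = j
      · right
        subst hkj
        refine ⟨T.ps_side h4.1, T.ps_side hq', ?_⟩
        have : T.gw (k :: w) c = T.R k (T.gw w c) := rfl
        rw [this, T.ps_R, neg_ne_zero]
        exact hcj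
      · left
        intro z hz hzk
        have hzD : z ∈ T.gw w '' D w := hD'.segment_subset hqD hq'D hz
        have hzj : z ∈ T.side j :=
          (convex_segment (𝕜 := ℝ) (T.a j) (T.b j)).segment_subset h4.1 hq' hz
        exact hkj (T.eq_of_mem_sd ⟨hzk, hV' z hzD⟩ hzj)

/-- All segments of the developed triangle have the same collisions. -/
theorem fin_tri {D : List ι → Set ℂ} (hD : ∀ w, Convex ℝ (D w)) {x x' c : ℂ}
    (hc : ∀ w, c ∈ D w) (hseg : segment ℝ x x' ⊆ T.Om)
    (hX : ∀ (w : List ι) (s : ℝ), s < 1 → T.Run w x (c - x) s → x + s • (c - x) ∈ D w)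
    (hX' : ∀ (w : List ι) (s : ℝ), s < 1 → T.Run w x' (c - x') s → x' + s • (c - x') ∈ D w) {M : ℕ}
    (hV : ∀ w : List ι, w.length ≤ M → ∀ z ∈ D w, T.gw w z ∉ T.V) {w : List ι} (hw : w.length ≤ M)
    (h : T.Fin w x (c - x)) : T.Fin w x' (c - x') := by
  obtain ⟨s, h1, hs1, h3⟩ := h
  obtain ⟨s', hs'1, hrun', hbase⟩ := T.run_tri hD hc hseg hX hX' hV w s hw hs1 h1
  have hD' := T.convex_gw (hD w) w
  have hVw := hV w hw
  have hV' : ∀ z ∈ T.gw w '' D w, z ∉ T.V := by
    rintro _ ⟨z, hz, rfl⟩
    exact hVw z hz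
  have hxc : x + (c - x) = c := by ring
  have hxc' : x' + (c - x') = c := by ring
  have mem1 : ∀ (y : ℂ) (r : ℝ), y + r • (c - y) ∈ D w →
      T.gw w y + r • T.Gw w (c - y) ∈ T.gw w '' D w := by
    intro y r hy
    refine ⟨y + r • (c - y), hy, ?_⟩
    rw [T.gw_add, T.Gw_smul]
  have hs0 := Run.nonneg T h1
  have hs'0 := Run.nonneg T hrun'
  have h1s : 0 < 1 - s := by linarith
  have h1s' : 0 < 1 - s' := by linarith
  have hlast := T.last_part hD' hV' (mem1 x s (hX w s hs1 h1)) (mem1 x' s' (hX' w s' hs'1 hrun'))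
    (⟨c, hc w, rfl⟩ : T.gw w c ∈ T.gw w '' D w) hbase (by
      intro r hr0 hr1
      have := T.pos_eq w x (c - x) hs1 r
      rw [hxc] at this
      rw [← this]
      apply h3
      · have : 0 < r * (1 - s) := by positivity
        linarith
      · have : r * (1 - s) ≤ 1 * (1 - s) := mul_le_mul_of_nonneg_right hr1 h1s.le
        linarith)
  refine ⟨s', hrun', hs'1, ?_⟩
  intro r hr0 hr1
  have := hlast ((r - s') / (1 - s')) (by apply div_pos <;> linarith) (by
    rw [div_le_one h1s']; linarith)
  have e := T.pos_eq w x' (c - x') hs'1 ((r - s') / (1 - s'))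
  rw [hxc'] at e
  rw [← e, div_mul_cancel₀ _ h1s'.ne'] at this
  convert this using 3
  ring

/-- Just after a collision the trajectory is in `Om`. -/
lemma leave [Finite ι] {i : ι} {X U : ℂ} {s s' : ℝ} (hs : s' < s)
    (h : ∀ r, s' < r → r < s → X + r • U ∈ T.Om) (hz : X + s • U ∈ T.sd i) :
    ∃ η : ℝ, 0 < η ∧ ∀ r, s < r → r < s + η → T.R i X + r • T.L i U ∈ T.Om := by
  have hcoll : T.R i X + s • T.L i U = X + s • U := by
    rw [← L_smul, ← R_add, R_side T hz.1]
  set p := X + s • U with hp
  -- a small ball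
  have hev : ∀ᶠ z in nhds p, (∀ k, z ≠ T.a k ∧ z ≠ T.b k) ∧ (∀ k, k ≠ i → z ∉ T.side k) := by
    apply Filter.Eventually.and
    · rw [Filter.eventually_all]
      intro k
      apply Filter.Eventually.and
      · apply isOpen_ne.mem_nhds
        intro h0
        exact hz.2 ⟨k, Or.inl h0⟩
      · apply isOpen_ne.mem_nhds
        intro h0
        exact hz.2 ⟨k, Or.inr h0⟩
    · rw [Filter.eventually_all]
      intro k
      by_cases hk : k = i
      · exact Filter.Eventually.of_forall (fun _ h0 => absurd hk h0)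
      · have : (T.side k)ᶜ ∈ nhds p := by
          apply (T.side_isClosed k).isOpen_compl.mem_nhds
          intro h0
          exact hk (T.eq_of_mem_sd hz h0).symm
        filter_upwards [this] with z hz' _
        exact hz'
  obtain ⟨ρ, hρ, hball⟩ := Metric.eventually_nhds_iff_ball.1 hev
  have hconv := convex_ball p ρ
  have hVb : ∀ z ∈ Metric.ball p ρ, z ∉ T.V := by
    rintro z hz' ⟨k, hk | hk⟩
    · exact ((hball z hz').1 k).1 hk
    · exact ((hball z hz').1 k).2 hk
  have hUn : 0 < ‖U‖ + 1 := by positivity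
  have hps : T.ps i p = 0 := T.ps_side hz.1
  -- a point before the collision
  obtain ⟨r1, hr1, hr1'⟩ : ∃ r1, max s' (s - ρ / (‖U‖ + 1)) < r1 ∧ r1 < s := by
    apply exists_between
    apply max_lt hs
    have : 0 < ρ / (‖U‖ + 1) := by positivity
    linarith
  have hr1a : s' < r1 := lt_of_le_of_lt (le_max_left _ _) hr1
  have hr1b : s - ρ / (‖U‖ + 1) < r1 := lt_of_le_of_lt (le_max_right _ _) hr1
  have hx1 := h r1 hr1a hr1'
  have hnear : ∀ (q : ℝ) (U' : ℂ), ‖U'‖ = ‖U‖ → |q| < ρ / (‖U‖ + 1) →
      p + q • U' ∈ Metric.ball p ρ := by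
    intro q U' hU' hq
    rw [Metric.mem_ball, dist_eq_norm, add_sub_cancel_left, norm_smul, hU', Real.norm_eq_abs]
    rw [lt_div_iff₀ hUn] at hq
    have h1 : |q| * ‖U‖ ≤ |q| * (‖U‖ + 1) :=
      mul_le_mul_of_nonneg_left (by linarith) (abs_nonneg q)
    linarith
  have hx1e : X + r1 • U = p + (r1 - s) • U := by
    rw [hp, add_assoc, ← add_smul]
    congr 2
    ring
  have hx1b : X + r1 • U ∈ Metric.ball p ρ := by
    rw [hx1e]
    apply hnear _ _ rfl
    rw [abs_of_neg (by linarith)]
    linarith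
  have hpsx1 : T.ps i (X + r1 • U) = (r1 - s) * T.pl i U := by
    rw [hx1e, ps_add, pl_smul, hps, zero_add]
  have hne1 : T.ps i (X + r1 • U) ≠ 0 := by
    intro h0
    exact T.not_mem_of_side (T.full_chord hconv hVb (Metric.mem_ball_self hρ) hz.1 hx1b h0) hx1
  refine ⟨ρ / (‖U‖ + 1), by positivity, ?_⟩
  intro r hr hr'
  have hye : T.R i X + r • T.L i U = p + (r - s) • T.L i U := by
    rw [← hcoll, add_assoc, ← add_smul]
    congr 2
    ring
  have hyb : T.R i X + r • T.L i U ∈ Metric.ball p ρ := by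
    rw [hye]
    apply hnear _ _ (T.norm_L i U)
    rw [abs_of_pos (by linarith)]
    linarith
  have hpsy : T.ps i (T.R i X + r • T.L i U) = -((r - s) * T.pl i U) := by
    rw [hye, ps_add, pl_smul, hps, zero_add, pl_L]
    ring
  have hpl : T.pl i U ≠ 0 := by
    intro h0
    apply hne1
    rw [hpsx1, h0, mul_zero]
  have hsame : 0 < T.ps i (X + r1 • U) * T.ps i (T.R i X + r • T.L i U) := by
    rw [hpsx1, hpsy]
    have e : (r1 - s) * T.pl i U * -((r - s) * T.pl i U)
        = ((s - r1) * (r - s)) * (T.pl i U * T.pl i U) := by ring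
    rw [e]
    apply mul_pos
    · apply mul_pos <;> linarith
    · exact mul_self_pos.2 hpl
  have hsub : segment ℝ (X + r1 • U) (T.R i X + r • T.L i U) ⊆ T.Om := by
    apply T.subset_Om (convex_segment _ _).isPreconnected _ (left_mem_segment ℝ _ _) hx1
    intro k z hz' hzk
    have hzb : z ∈ Metric.ball p ρ := hconv.segment_subset hx1b hyb hz'
    by_cases hk : k = i
    · subst hk
      obtain ⟨q, hq0, hq1, _, hq⟩ := T.ps_segment (k := k) hz'
      rw [T.ps_side hzk] at hq
      have := comb_ne (a := T.ps k (X + r1 • U)) (mul_self_pos.2 hne1) hsame hq0 hq1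
      rw [← hq, mul_zero] at this
      exact lt_irrefl _ this
    · exact (hball z hzb).2 k hk hzk
  exact hsub (right_mem_segment ℝ _ _)

/-- A trajectory which meets no vertex finishes. -/
theorem exists_fin [Finite ι] {x W : ℂ} (hx : x ∈ T.Om) {M : ℕ}
    (hM : ∀ (w : List ι) (s : ℝ), s ≤ 1 → T.Run w x W s → w.length ≤ M)
    (hV : ∀ w : List ι, w.length ≤ M → ∀ s r : ℝ, T.Run w x W s → s < r → r ≤ 1 →
      T.gw w x + r • T.Gw w W ∉ T.V)
    (hF : ∀ w : List ι, w.length ≤ M → T.gw w (x + W) ∉ frontier T.Om) :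
    ∃ w : List ι, w.length ≤ M ∧ T.Fin w x W := by
  by_contra hcon
  push Not at hcon
  have claim : ∀ m : ℕ, ∃ (w : List ι) (s : ℝ), w.length = m ∧ s < 1 ∧ T.Run w x W s := by
    intro m
    induction m with
    | zero => exact ⟨[], 0, rfl, one_pos, rfl, hx⟩
    | succ m ih =>
      obtain ⟨w, s, hw, hs, hrun⟩ := ih
      have hwM := hM w s hs.le hrun
      have hnot := hcon w hwM
      have hs0 := Run.nonneg T hrun
      -- the trajectory is in `Om` for a while
      obtain ⟨η, hη, hη'⟩ : ∃ η : ℝ, 0 < η ∧ ∀ r, s < r → r < s + η →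
          T.gw w x + r • T.Gw w W ∈ T.Om := by
        cases w with
        | nil =>
          obtain ⟨rfl, _⟩ := hrun
          have hc : Continuous (fun r : ℝ => T.gw [] x + r • T.Gw [] W) := by fun_prop
          have hmem : {r : ℝ | T.gw [] x + r • T.Gw [] W ∈ T.Om} ∈ nhds (0 : ℝ) := by
            apply (T.isOpen.preimage hc).mem_nhds
            simpa [gw, Gw] using hx
          obtain ⟨η, hη, hb⟩ := Metric.mem_nhds_iff.1 hmem
          refine ⟨η, hη, ?_⟩
          intro r hr hr'
          apply hb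
          rw [Metric.mem_ball, Real.dist_eq, abs_of_pos (by linarith)]
          linarith
        | cons i w =>
          obtain ⟨s', _, h2, h3, h4⟩ := hrun
          exact T.leave h2 h3 h4
      have hex : ∃ r, s < r ∧ r ≤ 1 ∧ T.gw w x + r • T.Gw w W ∉ T.Om := by
        by_contra hc
        push Not at hc
        exact hnot ⟨s, hrun, hs, hc⟩
      obtain ⟨r', hr's, hr'1, hr'O⟩ := hex
      have hc : Continuous (fun r : ℝ => T.gw w x + r • T.Gw w W) := by fun_prop
      set C : Set ℝ := Set.Icc (s + η) 1 ∩ {r | T.gw w x + r • T.Gw w W ∉ T.Om} with hC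
      have hCc : IsCompact C := by
        apply isCompact_Icc.inter_right
        exact (T.isOpen.preimage hc).isClosed_compl
      have hr'C : r' ∈ C := by
        refine ⟨⟨?_, hr'1⟩, hr'O⟩
        by_contra h0
        push Not at h0
        exact hr'O (hη' r' hr's h0)
      obtain ⟨r0, hr0C, hr0min⟩ := hCc.exists_isLeast ⟨r', hr'C⟩
      have hpath : ∀ r, s < r → r < r0 → T.gw w x + r • T.Gw w W ∈ T.Om := by
        intro r hr hr0
        by_contra h0
        rcases lt_or_ge r (s + η) with h1 | h1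
        · exact h0 (hη' r hr h1)
        · have := hr0min ⟨⟨h1, hr0.le.trans hr0C.1.2⟩, h0⟩
          linarith
      have hsr0 : s < r0 := by linarith [hr0C.1.1]
      have hfr : T.gw w x + r0 • T.Gw w W ∈ frontier T.Om := by
        rw [T.isOpen.frontier_eq]
        refine ⟨?_, hr0C.2⟩
        have htend : Filter.Tendsto (fun r : ℝ => T.gw w x + r • T.Gw w W)
            (nhdsWithin r0 (Set.Iio r0)) (nhds (T.gw w x + r0 • T.Gw w W)) :=
          (hc.tendsto r0).mono_left nhdsWithin_le_nhds
        apply mem_closure_of_tendsto htend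
        have : Set.Ioo s r0 ∈ nhdsWithin r0 (Set.Iio r0) := Ioo_mem_nhdsLT hsr0
        filter_upwards [this] with r hr
        exact hpath r hr.1 hr.2
      obtain ⟨i, hi⟩ := T.mem_side_of_fr hfr
      have hr01 : r0 < 1 := by
        rcases hr0C.1.2.eq_or_lt with h1 | h1
        · exfalso
          rw [h1, one_smul, ← T.gw_add] at hfr
          exact hF w hwM hfr
        · exact h1
      refine ⟨i :: w, r0, by simp [hw], hr01, s, hrun, hsr0, hpath, hi, ?_⟩
      exact hV w hwM s r0 hrun hsr0 hr01.le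
  obtain ⟨w, s, hw, hs, hrun⟩ := claim (M + 1)
  have := hM w s hs.le hrun
  omega

end Tab

end Pool.Agent.Helper90.BE
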