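import Mathlib
import Pool.Agent.Helper90.BE.Tri

/-!
Measurability of the sets of trajectories with given collisions, and invariance of the measure.
-/

set_option linter.dupNamespace false

open MeasureTheory Complex
open scoped Real ENNReal ComplexConjugate

noncomputable section

namespace Pool.Agent.Helper90.BE

/-- Openness of a condition quantified over a compact set. -/
lemma isOpen_forall {A B Z : Type*} [TopologicalSpace A] [TopologicalSpace B] [TopologicalSpace Z]
    {K : Set B} (hK : IsCompact K) {O : Set Z} (hO : IsOpen O) {g : A × B → Z} (hg : Continuous g) :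
    IsOpen {q : A | ∀ y ∈ K, g (q, y) ∈ O} := by
  rw [isOpen_iff_mem_nhds]
  intro q hq
  apply hK.eventually_forall_of_forall_eventually (P := fun q y => g (q, y) ∈ O)
  intro y hy
  exact (hO.preimage hg).mem_nhds (hq y hy)

lemma measurable_forall_Ioo {A Z : Type*} [TopologicalSpace A] [MeasurableSpace A]
    [OpensMeasurableSpace A] [TopologicalSpace Z] {O : Set Z} (hO : IsOpen O)
    {f : A × ℝ → Z} (hf : Continuous f) {s s' : A → ℝ} (hs : Continuous s) (hs' : Continuous s') :
    MeasurableSet {q : A | s' q < s q ∧ ∀ r, s' q < r → r < s q → f (q, r) ∈ O} := by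
  have h1 : {q : A | s' q < s q ∧ ∀ r, s' q < r → r < s q → f (q, r) ∈ O}
      = {q | s' q < s q} ∩ ⋂ k : ℕ, {q : A | ∀ y ∈ Set.Icc (1 / ((k : ℝ) + 2)) (1 - 1 / ((k : ℝ) + 2)),
          (fun p : A × ℝ => f (p.1, s' p.1 + p.2 * (s p.1 - s' p.1))) (q, y) ∈ O} := by
    ext q
    simp only [Set.mem_setOf_eq, Set.mem_inter_iff, Set.mem_iInter]
    constructor
    · rintro ⟨h1, h2⟩
      refine ⟨h1, fun k y hy => ?_⟩
      have hk : (0 : ℝ) < 1 / ((k : ℝ) + 2) := by positivity
      have hd : 0 < s q - s' q := by linarith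
      apply h2
      · have : 0 < y * (s q - s' q) := mul_pos (lt_of_lt_of_le hk hy.1) hd
        linarith
      · have : y * (s q - s' q) < 1 * (s q - s' q) :=
          mul_lt_mul_of_pos_right (by linarith [hy.2]) hd
        linarith
    · rintro ⟨h1, h2⟩
      refine ⟨h1, fun r hr hr' => ?_⟩
      have hd : 0 < s q - s' q := by linarith
      set y := (r - s' q) / (s q - s' q) with hy
      have hy0 : 0 < y := by rw [hy]; apply div_pos <;> linarith
      have hy1 : y < 1 := by rw [hy, div_lt_one hd]; linarith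
      obtain ⟨k, hk⟩ := exists_nat_gt (max (1 / y) (1 / (1 - y)))
      have hk1 : 1 / y < (k : ℝ) + 2 := by linarith [le_max_left (1 / y) (1 / (1 - y))]
      have hk2 : 1 / (1 - y) < (k : ℝ) + 2 := by linarith [le_max_right (1 / y) (1 / (1 - y))]
      have := h2 k y ⟨?_, ?_⟩
      · rw [hy, div_mul_cancel₀ _ hd.ne'] at this
        convert this using 3
        ring
      · rw [div_le_iff₀ (by positivity)]
        rw [div_lt_iff₀ hy0] at hk1
        linarith
      · rw [div_lt_iff₀ (by linarith)] at hk2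
        have : 1 / ((k : ℝ) + 2) ≤ 1 - y := by
          rw [div_le_iff₀ (by positivity)]
          linarith
        linarith
  rw [h1]
  apply MeasurableSet.inter (isOpen_lt hs' hs).measurableSet
  apply MeasurableSet.iInter
  intro k
  apply IsOpen.measurableSet
  refine isOpen_forall isCompact_Icc hO
    (g := fun p : A × ℝ => f (p.1, s' p.1 + p.2 * (s p.1 - s' p.1))) ?_
  apply hf.comp
  exact continuous_fst.prodMk ((hs'.comp continuous_fst).add
    (continuous_snd.mul ((hs.comp continuous_fst).sub (hs'.comp continuous_fst))))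

variable {ι : Type} (T : Tab ι)

namespace Tab

lemma continuous_L (i : ι) : Continuous (T.L i) := by
  unfold L
  fun_prop

lemma continuous_R (i : ι) : Continuous (T.R i) := by
  have := T.continuous_L i
  unfold R
  fun_prop

lemma continuous_gw (w : List ι) : Continuous (T.gw w) := by
  induction w with
  | nil => exact continuous_id
  | cons i w ih => exact (T.continuous_R i).comp ih

lemma continuous_Gw (w : List ι) : Continuous (T.Gw w) := by
  induction w with
  | nil => exact continuous_id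
  | cons i w ih => exact (T.continuous_L i).comp ih

lemma V_finite [Finite ι] : T.V.Finite := by
  have : T.V = Set.range T.a ∪ Set.range T.b := by
    ext p
    simp only [V, Set.mem_setOf_eq, Set.mem_union, Set.mem_range]
    constructor
    · rintro ⟨i, h | h⟩
      · exact Or.inl ⟨i, h.symm⟩
      · exact Or.inr ⟨i, h.symm⟩
    · rintro (⟨i, h⟩ | ⟨i, h⟩)
      · exact ⟨i, Or.inl h.symm⟩
      · exact ⟨i, Or.inr h.symm⟩
  rw [this]
  exact (Set.finite_range _).union (Set.finite_range _)

lemma measurable_sd [Finite ι] (i : ι) : MeasurableSet (T.sd i) :=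
  (T.side_isClosed i).measurableSet.diff T.V_finite.measurableSet

lemma measurable_run [Finite ι] (w : List ι) :
    MeasurableSet {q : ℂ × ℂ × ℝ | T.Run w q.1 q.2.1 q.2.2} := by
  induction w with
  | nil =>
    have h1 : MeasurableSet {q : ℂ × ℂ × ℝ | q.2.2 = 0} :=
      (isClosed_eq (by fun_prop) (by fun_prop)).measurableSet
    have h2 : MeasurableSet {q : ℂ × ℂ × ℝ | q.1 ∈ T.Om} :=
      (T.isOpen.preimage continuous_fst).measurableSet
    exact h1.inter h2
  | cons i w ih =>
    -- (x, W, s', s)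
    set S : Set (ℂ × ℂ × ℝ × ℝ) := {q | T.Run w q.1 q.2.1 q.2.2.1 ∧ (q.2.2.1 < q.2.2.2 ∧
      ∀ r, q.2.2.1 < r → r < q.2.2.2 → T.gw w q.1 + r • T.Gw w q.2.1 ∈ T.Om) ∧
      T.gw w q.1 + q.2.2.2 • T.Gw w q.2.1 ∈ T.sd i} with hS
    have hSm : MeasurableSet S := by
      apply MeasurableSet.inter
      · exact (show Measurable (fun q : ℂ × ℂ × ℝ × ℝ => (q.1, q.2.1, q.2.2.1)) by fun_prop) ih
      · apply MeasurableSet.inter
        · have hf : Continuous (fun p : (ℂ × ℂ × ℝ × ℝ) × ℝ =>
              T.gw w p.1.1 + p.2 • T.Gw w p.1.2.1) := by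
            have h1 := T.continuous_gw w
            have h2 := T.continuous_Gw w
            fun_prop
          exact measurable_forall_Ioo T.isOpen hf (s := fun q : ℂ × ℂ × ℝ × ℝ => q.2.2.2)
            (s' := fun q : ℂ × ℂ × ℝ × ℝ => q.2.2.1) (by fun_prop) (by fun_prop)
        · have hf : Continuous (fun q : ℂ × ℂ × ℝ × ℝ => T.gw w q.1 + q.2.2.2 • T.Gw w q.2.1) := by
            have h1 := T.continuous_gw w
            have h2 := T.continuous_Gw w
            fun_prop
          exact hf.measurable (T.measurable_sd i)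
    have himg : {q : ℂ × ℂ × ℝ | T.Run (i :: w) q.1 q.2.1 q.2.2}
        = (fun q : ℂ × ℂ × ℝ × ℝ => (q.1, q.2.1, q.2.2.2)) '' S := by
      ext q
      simp only [Set.mem_setOf_eq, Set.mem_image, hS]
      constructor
      · rintro ⟨s', h1, h2, h3, h4⟩
        exact ⟨(q.1, q.2.1, s', q.2.2), ⟨h1, ⟨h2, h3⟩, h4⟩, rfl⟩
      · rintro ⟨p, ⟨h1, ⟨h2, h3⟩, h4⟩, rfl⟩
        exact ⟨p.2.2.1, h1, h2, h3, h4⟩
    rw [himg]
    apply hSm.image_of_measurable_injOn (by fun_prop)
    rintro ⟨x, W, s', s⟩ hp ⟨x2, W2, s2', s2⟩ hp2 heq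
    simp only [Prod.mk.injEq] at heq
    obtain ⟨rfl, rfl, rfl⟩ := heq
    have := Run.unique T hp.1 hp2.1
    simp only at this
    rw [this]

lemma measurable_fin [Finite ι] (w : List ι) :
    MeasurableSet {q : ℂ × ℂ | T.Fin w q.1 q.2} := by
  set S : Set (ℂ × ℂ × ℝ) := {q | T.Run w q.1 q.2.1 q.2.2 ∧ (q.2.2 < 1 ∧
      ∀ r, q.2.2 < r → r < 1 → T.gw w q.1 + r • T.Gw w q.2.1 ∈ T.Om) ∧
      T.gw w q.1 + (1 : ℝ) • T.Gw w q.2.1 ∈ T.Om} with hS
  have hSm : MeasurableSet S := by
    apply MeasurableSet.inter (T.measurable_run w)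
    apply MeasurableSet.inter
    · have hf : Continuous (fun p : (ℂ × ℂ × ℝ) × ℝ => T.gw w p.1.1 + p.2 • T.Gw w p.1.2.1) := by
        have h1 := T.continuous_gw w
        have h2 := T.continuous_Gw w
        fun_prop
      exact measurable_forall_Ioo T.isOpen hf (s := fun _ : ℂ × ℂ × ℝ => 1)
        (s' := fun q : ℂ × ℂ × ℝ => q.2.2) (by fun_prop) (by fun_prop)
    · have hf : Continuous (fun q : ℂ × ℂ × ℝ => T.gw w q.1 + (1 : ℝ) • T.Gw w q.2.1) := by
        have h1 := T.continuous_gw w
        have h2 := T.continuous_Gw w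
        fun_prop
      exact (T.isOpen.preimage hf).measurableSet
  have himg : {q : ℂ × ℂ | T.Fin w q.1 q.2}
      = (fun q : ℂ × ℂ × ℝ => (q.1, q.2.1)) '' S := by
    ext q
    simp only [Set.mem_setOf_eq, Set.mem_image, hS]
    constructor
    · rintro ⟨s', h1, h2, h3⟩
      exact ⟨(q.1, q.2, s'), ⟨h1, ⟨h2, fun r hr hr' => h3 r hr hr'.le⟩, h3 1 h2 le_rfl⟩, rfl⟩
    · rintro ⟨p, ⟨h1, ⟨h2, h3⟩, h4⟩, rfl⟩
      refine ⟨p.2.2, h1, h2, fun r hr hr' => ?_⟩
      rcases hr'.eq_or_lt with h | h
      · rw [h]; exact h4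
      · exact h3 r hr h
  rw [himg]
  apply hSm.image_of_measurable_injOn (by fun_prop)
  rintro ⟨x, W, s⟩ hp ⟨x2, W2, s2⟩ hp2 heq
  simp only [Prod.mk.injEq] at heq
  obtain ⟨rfl, rfl⟩ := heq
  have := Run.unique T hp.1 hp2.1
  simp only at this
  rw [this]

/-- The set of starting points (direction, position) whose trajectory of length `t` has the
collisions `w`. -/
def Fs (t : ℝ) (w : List ι) : Set (Dir × ℂ) := {p | T.Fin w p.2 (t • dir p.1)}

lemma measurable_Fs [Finite ι] (t : ℝ) (w : List ι) : MeasurableSet (T.Fs t w) := by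
  have : Measurable (fun p : Dir × ℂ => (p.2, t • dir p.1)) :=
    measurable_snd.prodMk ((measurable_dir.comp measurable_fst).const_smul t)
  exact this (T.measurable_fin w)

/-- The end point of the trajectory of length `t` with collisions `w`. -/
def Ph (t : ℝ) (w : List ι) (p : Dir × ℂ) : Dir × ℂ :=
  (T.rw' w p.1, T.gw w (p.2 + t • dir p.1))

lemma unit_ratio (i : ι) : ‖(T.b i - T.a i) / conj (T.b i - T.a i)‖ = 1 := by
  have h : ‖T.b i - T.a i‖ ≠ 0 := norm_ne_zero_iff.2 (T.sub_ne i)
  rw [norm_div, Complex.norm_conj, div_self h]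

lemma mp_L (i : ι) : MeasurePreserving (T.L i) volume volume := by
  have h1 : MeasurePreserving (fun z : ℂ => conj z) volume volume :=
    conjLIE.measurePreserving
  have h2 : MeasurePreserving (rotation (⟨(T.b i - T.a i) / conj (T.b i - T.a i), by
    rw [Submonoid.unitSphere]; exact mem_sphere_zero_iff_norm.2 (T.unit_ratio i)⟩ : Circle))
      volume volume :=
    (rotation _).measurePreserving
  have := h2.comp h1
  exact this

lemma mp_R (i : ι) : MeasurePreserving (T.R i) volume volume := by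
  have h1 := (measurePreserving_add_left (volume : Measure ℂ) (T.a i)).comp
    ((T.mp_L i).comp (measurePreserving_sub_right (volume : Measure ℂ) (T.a i)))
  exact h1

lemma mp_gw (w : List ι) : MeasurePreserving (T.gw w) volume volume := by
  induction w with
  | nil => exact MeasurePreserving.id _
  | cons i w ih => exact (T.mp_R i).comp ih

lemma mp_rho (i : ι) : MeasurePreserving (T.rho i) volume volume := by
  have h1 : MeasurePreserving (fun θ : Dir => -θ) volume volume :=
    Measure.measurePreserving_neg _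
  have h2 := (measurePreserving_add_left (volume : Measure Dir)
    ((2 * arg (T.b i - T.a i) : ℝ) : Dir)).comp h1
  have e : T.rho i = (fun x => ((2 * arg (T.b i - T.a i) : ℝ) : Dir) + x) ∘ (fun θ => -θ) := by
    funext θ
    simp only [rho, Function.comp, sub_eq_add_neg]
  rw [e]
  exact h2

lemma mp_rw (w : List ι) : MeasurePreserving (T.rw' w) volume volume := by
  induction w with
  | nil => exact MeasurePreserving.id _
  | cons i w ih => exact (T.mp_rho i).comp ih

lemma rw'_inj (w : List ι) : Function.Injective (T.rw' w) := by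
  induction w with
  | nil => exact Function.injective_id
  | cons i w ih =>
    intro θ η h
    apply ih
    have h' : T.rho i (T.rw' w θ) = T.rho i (T.rw' w η) := h
    rw [← T.rho_rho i (T.rw' w θ), h', T.rho_rho]

lemma measurable_Ph (t : ℝ) (w : List ι) : Measurable (T.Ph t w) := by
  apply Measurable.prodMk
  · exact (T.mp_rw w).measurable.comp measurable_fst
  · apply (T.continuous_gw w).measurable.comp
    exact measurable_snd.add ((measurable_dir.comp measurable_fst).const_smul t)

lemma mp_Ph (t : ℝ) (w : List ι) :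
    MeasurePreserving (T.Ph t w) (volume : Measure (Dir × ℂ)) volume := by
  have := (T.mp_rw w).skew_product (μc := (volume : Measure ℂ)) (μd := (volume : Measure ℂ))
    (g := fun θ x => T.gw w (x + t • dir θ)) ?_ ?_
  · exact this
  · apply (T.continuous_gw w).measurable.comp
    exact measurable_snd.add ((measurable_dir.comp measurable_fst).const_smul t)
  · refine Filter.Eventually.of_forall (fun θ => ?_)
    exact ((T.mp_gw w).comp (measurePreserving_add_right (volume : Measure ℂ) (t • dir θ))).map_eq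

lemma Ph_inj (t : ℝ) (w : List ι) : Function.Injective (T.Ph t w) := by
  rintro ⟨θ, x⟩ ⟨η, y⟩ h
  simp only [Ph, Prod.mk.injEq] at h
  obtain ⟨h1, h2⟩ := h
  have h3 := T.rw'_inj w h1
  subst h3
  have h4 := T.gw_inj w h2
  simp only [add_left_inj] at h4
  rw [h4]

lemma emb_Ph (t : ℝ) (w : List ι) : MeasurableEmbedding (T.Ph t w) :=
  (T.measurable_Ph t w).measurableEmbedding (T.Ph_inj t w)

/-- The images of the sets `Fs` are disjoint. -/
lemma disj_Ph {t : ℝ} : Pairwise (fun w w' : List ι =>
    Disjoint (T.Ph t w '' T.Fs t w) (T.Ph t w' '' T.Fs t w')) := by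
  intro w w' hne
  rw [Set.disjoint_left]
  rintro _ ⟨⟨θ, x⟩, h1, rfl⟩ ⟨⟨η, y⟩, h2, h3⟩
  apply hne
  simp only [Ph, Prod.mk.injEq] at h3
  obtain ⟨h4, h5⟩ := h3
  have hG : T.Gw w (t • dir θ) = T.Gw w' (t • dir η) := by
    rw [Gw_smul, Gw_smul, ← dir_rw', ← dir_rw', h4]
  have hg : T.gw w x = T.gw w' y := by
    rw [T.gw_add, T.gw_add, hG] at h5
    exact (add_right_cancel h5).symm
  exact T.back (Fin.inc T h1) (Fin.inc T h2) hg hG

/-- The main inequality for the change of variables. -/
lemma sum_lintegral_le [Finite ι] {t : ℝ} {K : Dir × ℂ → ℝ≥0∞} :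
    ∑' w : List ι, ∫⁻ p in T.Fs t w, K (T.Ph t w p) ≤
      ∫⁻ q in {q : Dir × ℂ | q.2 ∈ T.Om}, K q := by
  have : Countable ι := Finite.to_countable
  have h1 : ∀ w : List ι, ∫⁻ p in T.Fs t w, K (T.Ph t w p) =
      ∫⁻ q in T.Ph t w '' T.Fs t w, K q := fun w =>
    (T.mp_Ph t w).setLIntegral_comp_emb (T.emb_Ph t w) K (T.Fs t w)
  rw [tsum_congr h1, ← lintegral_iUnion (fun w => (T.emb_Ph t w).measurableSet_image.2
    (T.measurable_Fs t w)) T.disj_Ph]
  apply lintegral_mono_set
  rintro _ hq
  obtain ⟨w, hw⟩ := Set.mem_iUnion.1 hq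
  obtain ⟨p, hp, rfl⟩ := hw
  exact Fin.mem T hp

end Tab

end Pool.Agent.Helper90.BE
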