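import Mathlib
import Pool.Agent.Helper90.BE.Flow

/-!
The set of points whose thin triangles on both sides meet developed vertices is small.
-/

set_option linter.dupNamespace false

open MeasureTheory Complex
open scoped Real ENNReal ComplexConjugate

noncomputable section

namespace Pool.Agent.Helper90.BE

lemma volume_singleton (θ : Dir) : volume ({θ} : Set Dir) = 0 := by
  have h := AddCircle.volume_closedBall (2 * π) (x := θ) 0
  rw [Metric.closedBall_zero, mul_zero, min_eq_right Real.two_pi_pos.le, ENNReal.ofReal_zero] at h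
  exact h

lemma volume_of_finite {s : Set Dir} (hs : s.Finite) : volume s = 0 := by
  rw [← Set.biUnion_of_singleton s]
  refine (measure_biUnion_null_iff hs.countable).2 (fun θ _ => volume_singleton θ)

/-- Directions whose scalar product with a nonzero vector vanishes. -/
lemma finite_ip {w : ℂ} (hw : w ≠ 0) : {θ : Dir | ip w (dir θ) = 0}.Finite := by
  have hwn : (‖w‖ : ℂ) ≠ 0 := by rw [Ne, ofReal_eq_zero, norm_eq_zero]; exact hw
  have hsub : {θ : Dir | ip w (dir θ) = 0} ⊆
      {θ | dir θ = I * w / ‖w‖} ∪ {θ | dir θ = -(I * w / ‖w‖)} := by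
    intro θ hθ
    simp only [Set.mem_setOf_eq, ip] at hθ
    have h1 : w * conj (dir θ) = (w * conj (dir θ)).im * I := by
      apply Complex.ext
      · simp [hθ]
      · simp
    set r := (w * conj (dir θ)).im with hr
    have h2 : dir θ * conj (dir θ) = 1 := by
      rw [mul_conj, normSq_eq_norm_sq, norm_dir]
      norm_num
    have h3 : w = r * I * dir θ := by
      calc w = w * (dir θ * conj (dir θ)) := by rw [h2, mul_one]
        _ = (w * conj (dir θ)) * dir θ := by ring
        _ = _ := by rw [h1]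
    have h4 : ‖w‖ = |r| := by
      rw [h3, norm_mul, norm_mul, norm_dir, norm_I, norm_real]
      simp
    simp only [Set.mem_union, Set.mem_setOf_eq]
    have hr0 : (r : ℂ) ≠ 0 := by
      intro h0
      rw [h0] at h3
      apply hw
      rw [h3]
      ring
    have hI : I * w = -(r * dir θ) := by
      rw [h3]
      have : I * (r * I * dir θ) = (I * I) * (r * dir θ) := by ring
      rw [this, I_mul_I]
      ring
    rcases abs_cases r with ⟨h5, _⟩ | ⟨h5, _⟩
    · right
      rw [hI, h4, h5]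
      field_simp
    · left
      rw [hI, h4, h5, ofReal_neg]
      field_simp
  apply Set.Finite.subset _ hsub
  apply Set.Finite.union
  · apply Set.Subsingleton.finite
    intro θ hθ η hη
    exact dir_inj (hθ.trans hη.symm)
  · apply Set.Subsingleton.finite
    intro θ hθ η hη
    exact dir_inj (hθ.trans hη.symm)

lemma ip_I (w : ℂ) (θ : Dir) : ip w (I * dir θ) = -ip (I * w) (dir θ) := by
  simp only [ip, map_mul, conj_I]
  have : w * (-I * conj (dir θ)) = -(I * w * conj (dir θ)) := by ring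
  rw [this, neg_re]

lemma volume_ip_null {w : ℂ} (hw : w ≠ 0) : volume {θ : Dir | ip w (I * dir θ) = 0} = 0 := by
  have h1 : {θ : Dir | ip w (I * dir θ) = 0} = {θ : Dir | ip (I * w) (dir θ) = 0} := by
    ext θ
    simp only [Set.mem_setOf_eq, ip_I, neg_eq_zero]
  rw [h1]
  exact volume_of_finite (finite_ip (mul_ne_zero I_ne_zero hw))

lemma continuous_ip_dir (w : ℂ) : Continuous (fun θ : Dir => ip w (I * dir θ)) := by
  have := continuous_dir
  unfold ip
  fun_prop

lemma continuous_ip1 (a : ℂ) : Continuous (fun p : Dir × ℂ => ip (a - p.2) (I * dir p.1)) := by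
  have hc : Continuous (fun p : Dir × ℂ => dir p.1) := continuous_dir.comp continuous_fst
  unfold ip
  fun_prop

lemma continuous_ip2 (a : ℂ) : Continuous (fun p : Dir × ℂ => ip (a - p.2) (dir p.1)) := by
  have hc : Continuous (fun p : Dir × ℂ => dir p.1) := continuous_dir.comp continuous_fst
  unfold ip
  fun_prop

lemma isClosed_ip1 (a : ℂ) (h : ℝ) :
    IsClosed {p : Dir × ℂ | |ip (a - p.2) (I * dir p.1)| ≤ h} :=
  isClosed_le (continuous_ip1 a).abs continuous_const

lemma isClosed_ip0 (w : ℂ) (h : ℝ) : IsClosed {p : Dir × ℂ | |ip w (I * dir p.1)| ≤ h} :=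
  isClosed_le ((continuous_ip_dir w).comp continuous_fst).abs continuous_const

/-- Small strips of directions. -/
lemma volume_strip_small {w : ℂ} (hw : w ≠ 0) {δ : ℝ≥0∞} (hδ : 0 < δ) :
    ∃ h0 : ℝ, 0 < h0 ∧ ∀ h : ℝ, 0 < h → h < h0 →
      volume {θ : Dir | |ip w (I * dir θ)| ≤ h} < δ := by
  set s : ℕ → Set Dir := fun k => {θ | |ip w (I * dir θ)| ≤ 1 / ((k : ℝ) + 1)} with hs
  have hanti : Antitone s := by
    intro k l hkl θ hθ
    simp only [hs, Set.mem_setOf_eq] at hθ ⊢
    refine hθ.trans ?_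
    apply one_div_le_one_div_of_le (by positivity)
    have : (k : ℝ) ≤ l := by exact_mod_cast hkl
    linarith
  have hclosed : ∀ k, MeasurableSet (s k) := fun k =>
    (isClosed_le (continuous_ip_dir w).abs continuous_const).measurableSet
  have hlim := tendsto_measure_iInter_atTop (μ := (volume : Measure Dir)) (s := s)
    (fun k => (hclosed k).nullMeasurableSet) hanti ⟨0, measure_ne_top _ _⟩
  have hint : (⋂ k, s k) = {θ : Dir | ip w (I * dir θ) = 0} := by
    ext θ
    simp only [Set.mem_iInter, hs, Set.mem_setOf_eq]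
    constructor
    · intro h
      rw [← abs_nonpos_iff]
      refine le_of_forall_pos_lt_add ?_
      intro ε hε
      obtain ⟨k, hk⟩ := exists_nat_one_div_lt hε
      rw [zero_add]
      exact lt_of_le_of_lt (h k) hk
    · intro h k
      rw [h, abs_zero]
      positivity
  rw [hint, volume_ip_null hw] at hlim
  obtain ⟨k, hk⟩ := (hlim.eventually (gt_mem_nhds hδ)).exists
  refine ⟨1 / ((k : ℝ) + 1), by positivity, ?_⟩
  intro h _ hh
  refine lt_of_le_of_lt (measure_mono ?_) hk
  intro θ hθ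
  exact le_trans hθ hh.le

/-- The area of a strip in a ball. -/
lemma volume_strip (a : ℂ) (θ : Dir) {R h : ℝ} (hR : 0 ≤ R) (hh : 0 ≤ h) :
    volume {x : ℂ | ‖x - a‖ ≤ R ∧ |ip (a - x) (I * dir θ)| ≤ h} ≤ ENNReal.ofReal (4 * R * h) := by
  -- move to coordinates
  have hu : ‖conj (dir θ)‖ = 1 := by rw [norm_conj, norm_dir]
  have h1 : MeasurePreserving (fun x : ℂ => conj (dir θ) * (x - a)) volume volume := by
    have h2 : MeasurePreserving (rotation (⟨conj (dir θ), by
      rw [Submonoid.unitSphere]; exact mem_sphere_zero_iff_norm.2 hu⟩ : Circle))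
        volume volume := (rotation _).measurePreserving
    have := h2.comp (measurePreserving_sub_right (volume : Measure ℂ) a)
    exact this
  have h3 := Complex.volume_preserving_equiv_real_prod.comp h1
  have hsub : {x : ℂ | ‖x - a‖ ≤ R ∧ |ip (a - x) (I * dir θ)| ≤ h} ⊆
      (measurableEquivRealProd ∘ fun x : ℂ => conj (dir θ) * (x - a)) ⁻¹'
        (Set.Icc (-R) R ×ˢ Set.Icc (-h) h) := by
    rintro x ⟨hx1, hx2⟩
    simp only [Set.mem_preimage, Function.comp, measurableEquivRealProd_apply, Set.mem_prod,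
      Set.mem_Icc, ← abs_le]
    constructor
    · refine (abs_re_le_norm _).trans ?_
      rw [norm_mul, hu, one_mul]
      exact hx1
    · have : ip (a - x) (I * dir θ) = -(conj (dir θ) * (x - a)).im := by
        rw [ip, map_mul, conj_I]
        have e : (a - x) * (-I * conj (dir θ)) = I * (conj (dir θ) * (x - a)) := by ring
        rw [e, I_mul_re]
      rw [this, abs_neg] at hx2
      exact hx2
  refine (measure_mono hsub).trans ?_
  rw [h3.measure_preimage (measurableSet_Icc.prod measurableSet_Icc).nullMeasurableSet,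
    Measure.volume_eq_prod, Measure.prod_prod, Real.volume_Icc, Real.volume_Icc,
    ← ENNReal.ofReal_mul (by linarith)]
  apply ENNReal.ofReal_le_ofReal
  apply le_of_eq
  ring

/-- The measure of the set of lines close to two given points. -/
lemma volume_two (a b : ℂ) {R h : ℝ} (hR : 0 ≤ R) (hh : 0 ≤ h) :
    volume {p : Dir × ℂ | ‖p.2 - a‖ ≤ R ∧ |ip (a - p.2) (I * dir p.1)| ≤ h ∧
      |ip (a - b) (I * dir p.1)| ≤ h} ≤
      ENNReal.ofReal (4 * R * h) * volume {θ : Dir | |ip (a - b) (I * dir θ)| ≤ h} := by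
  have hm1 : MeasurableSet {p : Dir × ℂ | ‖p.2 - a‖ ≤ R ∧ |ip (a - p.2) (I * dir p.1)| ≤ h ∧
      |ip (a - b) (I * dir p.1)| ≤ h} := by
    apply IsClosed.measurableSet
    have h1 : IsClosed {p : Dir × ℂ | ‖p.2 - a‖ ≤ R} :=
      isClosed_le (by fun_prop) continuous_const
    exact h1.inter ((isClosed_ip1 a h).inter (isClosed_ip0 (a - b) h))
  rw [Measure.volume_eq_prod, Measure.prod_apply hm1]
  have hle : ∀ θ : Dir, volume (Prod.mk θ ⁻¹' {p : Dir × ℂ | ‖p.2 - a‖ ≤ R ∧
      |ip (a - p.2) (I * dir p.1)| ≤ h ∧ |ip (a - b) (I * dir p.1)| ≤ h}) ≤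
      {θ : Dir | |ip (a - b) (I * dir θ)| ≤ h}.indicator
        (fun _ => ENNReal.ofReal (4 * R * h)) θ := by
    intro θ
    by_cases hθ : θ ∈ {θ : Dir | |ip (a - b) (I * dir θ)| ≤ h}
    · rw [Set.indicator_of_mem hθ]
      refine (measure_mono ?_).trans (volume_strip a θ hR hh)
      rintro x ⟨hx1, hx2, _⟩
      exact ⟨hx1, hx2⟩
    · rw [Set.indicator_of_notMem hθ]
      have : (Prod.mk θ ⁻¹' {p : Dir × ℂ | ‖p.2 - a‖ ≤ R ∧
          |ip (a - p.2) (I * dir p.1)| ≤ h ∧ |ip (a - b) (I * dir p.1)| ≤ h}) = ∅ := by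
        ext x
        simp only [Set.mem_preimage, Set.mem_setOf_eq, Set.mem_empty_iff_false, iff_false]
        rintro ⟨_, _, h3⟩
        exact hθ h3
      rw [this, measure_empty]
  refine (lintegral_mono hle).trans ?_
  have hm2 : MeasurableSet {θ : Dir | |ip (a - b) (I * dir θ)| ≤ h} :=
    (isClosed_le (continuous_ip_dir _).abs continuous_const).measurableSet
  rw [lintegral_indicator hm2, setLIntegral_const]

/-- The set of points whose thin triangles on both sides are close to two different points of the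
finite set `P`. -/
def BC (Om : Set ℂ) (P : Set ℂ) (h : ℝ) : Set (Dir × ℂ) :=
  {p | p.2 ∈ Om ∧ ∃ a ∈ P, ∃ b ∈ P, a ≠ b ∧ |ip (a - p.2) (I * dir p.1)| ≤ h ∧
    |ip (a - b) (I * dir p.1)| ≤ h}

/-- Its measure is `o(h)`. -/
lemma volume_BC {Om : Set ℂ} (hO : Bornology.IsBounded Om) {P : Set ℂ} (hP : P.Finite) {δ : ℝ}
    (hδ : 0 < δ) : ∃ h0 : ℝ, 0 < h0 ∧ ∀ h : ℝ, 0 < h → h < h0 →
      volume (BC Om P h) ≤ ENNReal.ofReal (δ * h) := by
  obtain ⟨R, hR0, hR⟩ : ∃ R : ℝ, 0 ≤ R ∧ ∀ a ∈ P, ∀ x ∈ Om, ‖x - a‖ ≤ R := by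
    obtain ⟨R1, hR1⟩ := hO.exists_norm_le
    obtain ⟨R2, hR2⟩ := hP.isBounded.exists_norm_le
    refine ⟨max R1 0 + max R2 0, by positivity, ?_⟩
    intro a ha x hx
    refine (norm_sub_le _ _).trans ?_
    exact add_le_add ((hR1 x hx).trans (le_max_left _ _)) ((hR2 a ha).trans (le_max_left _ _))
  -- the finite set of pairs
  set Q : Set (ℂ × ℂ) := {q | q ∈ P ×ˢ P ∧ q.1 ≠ q.2} with hQ
  have hQf : Q.Finite := (hP.prod hP).subset (fun q hq => hq.1)
  set N : ℝ := (hQf.toFinset.card : ℝ) + 1 with hN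
  have hN0 : 0 < N := by positivity
  set η : ℝ := δ / (N * (4 * R + 1)) with hη
  have hη0 : 0 < η := by positivity
  have hev : ∀ q ∈ hQf.toFinset, ∀ᶠ h in nhdsWithin (0 : ℝ) (Set.Ioi 0),
      volume {θ : Dir | |ip (q.1 - q.2) (I * dir θ)| ≤ h} < ENNReal.ofReal η := by
    intro q hq
    rw [Set.Finite.mem_toFinset] at hq
    obtain ⟨h0, hh0, hlt⟩ := volume_strip_small (sub_ne_zero.2 hq.2) (ENNReal.ofReal_pos.2 hη0)
    filter_upwards [Ioo_mem_nhdsGT hh0] with h hh
    exact hlt h hh.1 hh.2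
  have hev2 := (Filter.eventually_all_finset _).2 hev
  rw [eventually_nhdsWithin_iff, Metric.eventually_nhds_iff] at hev2
  obtain ⟨h0, hh0, hlt⟩ := hev2
  refine ⟨h0, hh0, ?_⟩
  intro h hh hh'
  have hl := hlt (y := h) (by rw [Real.dist_eq, sub_zero, abs_of_pos hh]; exact hh') hh
  have hsub : BC Om P h ⊆ ⋃ q ∈ hQf.toFinset, {p : Dir × ℂ | ‖p.2 - q.1‖ ≤ R ∧
      |ip (q.1 - p.2) (I * dir p.1)| ≤ h ∧ |ip (q.1 - q.2) (I * dir p.1)| ≤ h} := by
    rintro p ⟨hp1, a, ha, b, hb, hab, h1, h2⟩
    rw [Set.mem_iUnion₂]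
    refine ⟨(a, b), ?_, hR a ha _ hp1, h1, h2⟩
    rw [Set.Finite.mem_toFinset]
    exact ⟨⟨ha, hb⟩, hab⟩
  refine (measure_mono hsub).trans ((measure_biUnion_finset_le _ _).trans ?_)
  have hterm : ∀ q ∈ hQf.toFinset, volume {p : Dir × ℂ | ‖p.2 - q.1‖ ≤ R ∧
      |ip (q.1 - p.2) (I * dir p.1)| ≤ h ∧ |ip (q.1 - q.2) (I * dir p.1)| ≤ h} ≤
      ENNReal.ofReal (4 * R * h * η) := by
    intro q hq
    refine (volume_two q.1 q.2 hR0 hh.le).trans ?_
    have e1 : ENNReal.ofReal (4 * R * h * η) = ENNReal.ofReal (4 * R * h) * ENNReal.ofReal η :=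
      ENNReal.ofReal_mul (by positivity)
    rw [e1]
    exact mul_le_mul_right (hl q hq).le _
  refine (Finset.sum_le_sum hterm).trans ?_
  rw [Finset.sum_const, nsmul_eq_mul, ← ENNReal.ofReal_natCast, ← ENNReal.ofReal_mul (by positivity)]
  apply ENNReal.ofReal_le_ofReal
  have e : δ * h = N * (4 * R + 1) * (h * η) := by
    rw [hη]; field_simp
  rw [e]
  have h1 : (hQf.toFinset.card : ℝ) ≤ N := by rw [hN]; linarith
  have h2 : 4 * R * h * η ≤ (4 * R + 1) * (h * η) := by
    have : 0 < h * η := by positivity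
    linarith
  calc (hQf.toFinset.card : ℝ) * (4 * R * h * η) ≤ N * ((4 * R + 1) * (h * η)) := by
        apply mul_le_mul h1 h2 (by positivity) hN0.le
    _ = _ := by ring

lemma measurable_BC {Om : Set ℂ} (hO : IsOpen Om) {P : Set ℂ} (hP : P.Finite) (h : ℝ) :
    MeasurableSet (BC Om P h) := by
  have e : BC Om P h = {p : Dir × ℂ | p.2 ∈ Om} ∩ ⋃ a ∈ P, ⋃ b ∈ {b | b ∈ P ∧ a ≠ b},
      {p : Dir × ℂ | |ip (a - p.2) (I * dir p.1)| ≤ h ∧ |ip (a - b) (I * dir p.1)| ≤ h} := by
    ext p
    simp only [BC, Set.mem_setOf_eq, Set.mem_inter_iff, Set.mem_iUnion, exists_prop]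
    constructor
    · rintro ⟨h1, a, ha, b, hb, hab, h2, h3⟩
      exact ⟨h1, a, ha, b, ⟨hb, hab⟩, h2, h3⟩
    · rintro ⟨h1, a, ha, b, ⟨hb, hab⟩, h2, h3⟩
      exact ⟨h1, a, ha, b, hb, hab, h2, h3⟩
  rw [e]
  apply MeasurableSet.inter (hO.preimage continuous_snd).measurableSet
  apply MeasurableSet.biUnion hP.countable
  intro a _
  apply MeasurableSet.biUnion (hP.subset (fun b hb => hb.1)).countable
  intro b _
  exact ((isClosed_ip1 a h).inter (isClosed_ip0 (a - b) h)).measurableSet

/-- Lines are null sets. -/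
lemma volume_line {c : ℂ} (hc : c ≠ 0) (a : ℂ) : volume {x : ℂ | ((x - a) * c).im = 0} = 0 := by
  set S : Submodule ℝ ℂ :=
    { carrier := {y : ℂ | (y * c).im = 0}
      add_mem' := by
        intro x y hx hy
        simp only [Set.mem_setOf_eq] at hx hy ⊢
        rw [add_mul, add_im, hx, hy, add_zero]
      zero_mem' := by simp
      smul_mem' := by
        intro r x hx
        simp only [Set.mem_setOf_eq] at hx ⊢
        rw [real_smul, mul_assoc, im_ofReal_mul, hx, mul_zero] } with hS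
  have hne : S ≠ ⊤ := by
    intro h
    have : I / c ∈ S := by rw [h]; exact Submodule.mem_top
    have h2 : (I / c * c).im = 0 := this
    rw [div_mul_cancel₀ _ hc, I_im] at h2
    exact one_ne_zero h2
  have h1 := Measure.addHaar_submodule (volume : Measure ℂ) S hne
  have h2 := (measurePreserving_sub_right (volume : Measure ℂ) a).measure_preimage
    (s := (S : Set ℂ)) (Submodule.closed_of_finiteDimensional S).measurableSet.nullMeasurableSet
  rw [h1] at h2
  exact h2

/-- The points whose direction is orthogonal to the vector to a given point. -/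
lemma volume_orth (a : ℂ) : volume {p : Dir × ℂ | ip (a - p.2) (dir p.1) = 0} = 0 := by
  have hm : MeasurableSet {p : Dir × ℂ | ip (a - p.2) (dir p.1) = 0} :=
    (isClosed_eq (continuous_ip2 a) continuous_const).measurableSet
  rw [Measure.volume_eq_prod, Measure.measure_prod_null hm]
  refine Filter.Eventually.of_forall (fun θ => ?_)
  have hne : I * conj (dir θ) ≠ 0 :=
    mul_ne_zero I_ne_zero ((map_ne_zero (starRingEnd ℂ)).2 (dir_ne θ))
  have h1 := volume_line hne a
  simp only [Pi.zero_apply]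
  refine measure_mono_null ?_ h1
  intro x hx
  have hx' : ip (a - x) (dir θ) = 0 := hx
  show ((x - a) * (I * conj (dir θ))).im = 0
  have e : (x - a) * (I * conj (dir θ)) = -(I * ((a - x) * conj (dir θ))) := by ring
  rw [e, neg_im, I_mul_im]
  rw [ip] at hx'
  rw [hx', neg_zero]

variable {ι : Type} (T : Tab ι)

namespace Tab

lemma volume_ps (i : ι) : volume {x : ℂ | T.ps i x = 0} = 0 :=
  volume_line (T.conj_sub_ne i) (T.a i)

lemma volume_frontier [Finite ι] : volume (frontier T.Om) = 0 := by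
  rw [T.fr]
  have : Countable ι := Finite.to_countable
  rw [measure_iUnion_null_iff]
  intro i
  exact measure_mono_null (fun x hx => T.ps_side hx) (T.volume_ps i)

/-- The developed vertices of the words of length at most `M`. -/
def Pv (M : ℕ) : Set ℂ := {p | ∃ w : List ι, w.length ≤ M ∧ T.gw w p ∈ T.V}

lemma Pv_finite [Finite ι] (M : ℕ) : (T.Pv M).Finite := by
  have h1 : {w : List ι | w.length ≤ M}.Finite := List.finite_length_le ι M
  have h2 : T.Pv M = ⋃ w ∈ {w : List ι | w.length ≤ M}, T.gw w ⁻¹' T.V := by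
    ext p
    simp only [Pv, Set.mem_setOf_eq, Set.mem_iUnion, exists_prop, Set.mem_preimage]
  rw [h2]
  apply h1.biUnion
  intro w _
  exact T.V_finite.preimage (fun x _ y _ h => T.gw_inj w h)

/-- The exceptional null set: a trajectory of length `t` ends on the frontier. -/
lemma null_end [Finite ι] (t : ℝ) :
    ∀ᵐ p : Dir × ℂ, ∀ w : List ι, T.gw w (p.2 + t • dir p.1) ∉ frontier T.Om := by
  have : Countable ι := Finite.to_countable
  rw [ae_all_iff]
  intro w
  have h1 : volume (Prod.snd ⁻¹' (frontier T.Om) : Set (Dir × ℂ)) = 0 := by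
    rw [← Set.univ_prod, Measure.volume_eq_prod, Measure.prod_prod, T.volume_frontier, mul_zero]
  have hm : MeasurableSet (Prod.snd ⁻¹' (frontier T.Om) : Set (Dir × ℂ)) :=
    measurable_snd isClosed_frontier.measurableSet
  have h2 := (T.mp_Ph t w).measure_preimage hm.nullMeasurableSet
  rw [h1] at h2
  have h3 : {p : Dir × ℂ | ¬ T.gw w (p.2 + t • dir p.1) ∉ frontier T.Om} =
      T.Ph t w ⁻¹' (Prod.snd ⁻¹' (frontier T.Om)) := by
    ext p
    simp only [not_not, Ph, Set.mem_preimage]
    rfl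
  rw [ae_iff, h3, h2]

/-- The exceptional null set of `volume_orth`. -/
lemma null_orth [Finite ι] (M : ℕ) :
    ∀ᵐ p : Dir × ℂ, ∀ a ∈ T.Pv M, ip (a - p.2) (dir p.1) ≠ 0 := by
  rw [ae_ball_iff (T.Pv_finite M).countable]
  intro a _
  rw [ae_iff]
  simpa using volume_orth a

end Tab

end Pool.Agent.Helper90.BE
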