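import Mathlib
import Pool.Agent.Helper90.BE.Cut

/-!
Quantitative bound for the set of points whose thin triangles on both sides meet developed vertices.
-/

set_option linter.dupNamespace false

open MeasureTheory Complex
open scoped Real ENNReal ComplexConjugate

noncomputable section

namespace Pool.Agent.Helper90.BE

lemma exists_rep (a : Dir) : ∃ y : ℝ, -π < y ∧ y ≤ π ∧ (y : Dir) = a :=
  ⟨Real.Angle.toReal a, Real.Angle.neg_pi_lt_toReal a, Real.Angle.toReal_le_pi a,
    Real.Angle.coe_toReal a⟩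

lemma norm_coe_le (y : ℝ) : ‖(y : Dir)‖ ≤ |y| := by
  have := QuotientAddGroup.norm_mk_le_norm (S := AddSubgroup.zmultiples (2 * π)) (m := y)
  exact this

/-- Directions almost parallel to a given vector. -/
lemma volume_strip_le {w : ℂ} (hw : w ≠ 0) {h : ℝ} (hh : 0 ≤ h) :
    volume {θ : Dir | |ip w (I * dir θ)| ≤ h} ≤ ENNReal.ofReal (2 * π * h / ‖w‖) := by
  have hn : 0 < ‖w‖ := norm_pos_iff.2 hw
  have hpi := Real.pi_pos
  set φ : Dir := ((arg w : ℝ) : Dir) with hφ
  set r : ℝ := π / 2 * (h / ‖w‖) with hr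
  have hr0 : 0 ≤ r := by positivity
  have hsub : {θ : Dir | |ip w (I * dir θ)| ≤ h} ⊆
      Metric.closedBall φ r ∪ Metric.closedBall (φ + ((π : ℝ) : Dir)) r := by
    intro θ hθ
    have hθ' : |ip w (I * dir θ)| ≤ h := hθ
    obtain ⟨y, hy1, hy2, hy⟩ := exists_rep (φ - θ)
    have h1 : w * conj (dir θ) = ‖w‖ * exp (y * I) := by
      have hw' : w = ‖w‖ * dir φ := by
        rw [hφ, dir_coe]
        exact (norm_mul_exp_arg_mul_I w).symm
      conv_lhs => rw [hw']
      rw [mul_assoc, ← dir_neg, ← dir_add, ← sub_eq_add_neg, ← hy, dir_coe]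
    have h2 : ip w (I * dir θ) = ‖w‖ * Real.sin y := by
      rw [ip, map_mul, conj_I]
      have : w * (-I * conj (dir θ)) = -(I * (w * conj (dir θ))) := by ring
      rw [this, h1, neg_re, I_mul_re, neg_neg, im_ofReal_mul, exp_ofReal_mul_I_im]
    rw [h2, abs_mul, abs_of_pos hn] at hθ'
    have hsin : |Real.sin y| ≤ h / ‖w‖ := by
      rw [le_div_iff₀ hn, mul_comm]
      exact hθ'
    have small : ∀ z : ℝ, |z| ≤ π / 2 → |Real.sin z| ≤ h / ‖w‖ → |z| ≤ r := by
      intro z hz hs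
      have h3 := Real.mul_abs_le_abs_sin hz
      rw [hr]
      have h4 : 2 / π * |z| ≤ h / ‖w‖ := h3.trans hs
      calc |z| = π / 2 * (2 / π * |z|) := by field_simp
        _ ≤ π / 2 * (h / ‖w‖) := mul_le_mul_of_nonneg_left h4 (by positivity)
    by_cases hc : |y| ≤ π / 2
    · left
      rw [Metric.mem_closedBall, dist_comm, dist_eq_norm, ← hy]
      exact (norm_coe_le y).trans (small y hc hsin)
    · right
      have h2pi : ((2 * π : ℝ) : Dir) = 0 := AddCircle.coe_period _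
      rw [Metric.mem_closedBall, dist_comm, dist_eq_norm]
      push Not at hc
      rcases lt_abs.1 hc with h5 | h5
      · -- `y > π / 2`
        have e : φ + ((π : ℝ) : Dir) - θ = ((y - π : ℝ) : Dir) := by
          have e1 : φ + ((π : ℝ) : Dir) - θ = (y : Dir) + (π : Dir) := by rw [hy]; abel
          rw [e1, ← AddCircle.coe_add]
          have e2 : y + π = (y - π) + 2 * π := by ring
          rw [e2, AddCircle.coe_add, h2pi, add_zero]
        rw [e]
        refine (norm_coe_le _).trans (small _ ?_ ?_)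
        · rw [abs_le]; constructor <;> linarith
        · rw [Real.sin_sub_pi, abs_neg]; exact hsin
      · have e : φ + ((π : ℝ) : Dir) - θ = ((y + π : ℝ) : Dir) := by
          have e1 : φ + ((π : ℝ) : Dir) - θ = (y : Dir) + (π : Dir) := by rw [hy]; abel
          rw [e1, ← AddCircle.coe_add]
        rw [e]
        refine (norm_coe_le _).trans (small _ ?_ ?_)
        · rw [abs_le]; constructor <;> linarith
        · rw [Real.sin_add_pi, abs_neg]; exact hsin
  refine (measure_mono hsub).trans ((measure_union_le _ _).trans ?_)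
  rw [AddCircle.volume_closedBall, AddCircle.volume_closedBall]
  have e : 2 * π * h / ‖w‖ = 2 * r + 2 * r := by
    rw [hr]; ring
  rw [e, ENNReal.ofReal_add (by positivity) (by positivity)]
  have hm : ENNReal.ofReal (min (2 * π) (2 * r)) ≤ ENNReal.ofReal (2 * r) :=
    ENNReal.ofReal_le_ofReal (min_le_right _ _)
  exact add_le_add hm hm

/-- The set of points whose thin triangles on both sides are close to two points of `P` at distance
at least `δ`. -/
def BD (P : Set ℂ) (δ R h : ℝ) : Set (Dir × ℂ) :=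
  {p | ∃ a ∈ P, ∃ b ∈ P, δ ≤ ‖a - b‖ ∧ ‖p.2 - a‖ ≤ R ∧ |ip (a - p.2) (I * dir p.1)| ≤ h ∧
    |ip (a - b) (I * dir p.1)| ≤ h}

lemma volume_BD {P : Set ℂ} (hP : P.Finite) {δ R h : ℝ} (hδ : 0 < δ) (hR : 0 ≤ R) (hh : 0 ≤ h) :
    volume (BD P δ R h) ≤ ENNReal.ofReal ((P.ncard : ℝ) ^ 2 * (8 * π * R * h ^ 2 / δ)) := by
  have hpi := Real.pi_pos
  set F := hP.toFinset with hF
  have hsub : BD P δ R h ⊆ ⋃ q ∈ F ×ˢ F, {p : Dir × ℂ | δ ≤ ‖q.1 - q.2‖ ∧ ‖p.2 - q.1‖ ≤ R ∧
      |ip (q.1 - p.2) (I * dir p.1)| ≤ h ∧ |ip (q.1 - q.2) (I * dir p.1)| ≤ h} := by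
    rintro p ⟨a, ha, b, hb, h0, h1, h2, h3⟩
    rw [Set.mem_iUnion₂]
    refine ⟨(a, b), ?_, h0, h1, h2, h3⟩
    rw [Finset.mem_product, hF, Set.Finite.mem_toFinset, Set.Finite.mem_toFinset]
    exact ⟨ha, hb⟩
  refine (measure_mono hsub).trans ((measure_biUnion_finset_le _ _).trans ?_)
  have hterm : ∀ q ∈ F ×ˢ F, volume {p : Dir × ℂ | δ ≤ ‖q.1 - q.2‖ ∧ ‖p.2 - q.1‖ ≤ R ∧
      |ip (q.1 - p.2) (I * dir p.1)| ≤ h ∧ |ip (q.1 - q.2) (I * dir p.1)| ≤ h} ≤
      ENNReal.ofReal (8 * π * R * h ^ 2 / δ) := by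
    intro q _
    by_cases hq : δ ≤ ‖q.1 - q.2‖
    · have hne : q.1 - q.2 ≠ 0 := by
        intro h0
        rw [h0, norm_zero] at hq
        linarith
      have h1 : {p : Dir × ℂ | δ ≤ ‖q.1 - q.2‖ ∧ ‖p.2 - q.1‖ ≤ R ∧
          |ip (q.1 - p.2) (I * dir p.1)| ≤ h ∧ |ip (q.1 - q.2) (I * dir p.1)| ≤ h} ⊆
          {p : Dir × ℂ | ‖p.2 - q.1‖ ≤ R ∧ |ip (q.1 - p.2) (I * dir p.1)| ≤ h ∧
          |ip (q.1 - q.2) (I * dir p.1)| ≤ h} := fun p hp => hp.2
      refine (measure_mono h1).trans ((volume_two q.1 q.2 hR hh).trans ?_)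
      have h2 := volume_strip_le hne hh
      calc ENNReal.ofReal (4 * R * h) * volume {θ : Dir | |ip (q.1 - q.2) (I * dir θ)| ≤ h}
          ≤ ENNReal.ofReal (4 * R * h) * ENNReal.ofReal (2 * π * h / δ) := by
            gcongr
            refine h2.trans (ENNReal.ofReal_le_ofReal ?_)
            gcongr
        _ = ENNReal.ofReal (8 * π * R * h ^ 2 / δ) := by
            rw [← ENNReal.ofReal_mul (by positivity)]
            congr 1
            ring
    · have : {p : Dir × ℂ | δ ≤ ‖q.1 - q.2‖ ∧ ‖p.2 - q.1‖ ≤ R ∧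
          |ip (q.1 - p.2) (I * dir p.1)| ≤ h ∧ |ip (q.1 - q.2) (I * dir p.1)| ≤ h} = ∅ := by
        ext p
        constructor
        · intro hp
          exact (hq hp.1).elim
        · intro hp
          exact hp.elim
      rw [this, measure_empty]
      exact zero_le
  refine (Finset.sum_le_sum hterm).trans ?_
  rw [Finset.sum_const, nsmul_eq_mul, Finset.card_product, ← ENNReal.ofReal_natCast,
    ← ENNReal.ofReal_mul (by positivity)]
  apply ENNReal.ofReal_le_ofReal
  apply le_of_eq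
  rw [Set.ncard_eq_toFinset_card P hP]
  push_cast
  ring

lemma measurable_BD {P : Set ℂ} (hP : P.Finite) (δ R h : ℝ) : MeasurableSet (BD P δ R h) := by
  have e : BD P δ R h = ⋃ a ∈ P, ⋃ b ∈ {b | b ∈ P ∧ δ ≤ ‖a - b‖},
      {p : Dir × ℂ | ‖p.2 - a‖ ≤ R ∧ |ip (a - p.2) (I * dir p.1)| ≤ h ∧
        |ip (a - b) (I * dir p.1)| ≤ h} := by
    ext p
    simp only [BD, Set.mem_setOf_eq, Set.mem_iUnion, exists_prop]
    constructor
    · rintro ⟨a, ha, b, hb, hab, h2, h3⟩
      exact ⟨a, ha, b, ⟨hb, hab⟩, h2, h3⟩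
    · rintro ⟨a, ha, b, ⟨hb, hab⟩, h2, h3⟩
      exact ⟨a, ha, b, hb, hab, h2, h3⟩
  rw [e]
  apply MeasurableSet.biUnion hP.countable
  intro a _
  apply MeasurableSet.biUnion (hP.subset (fun b hb => hb.1)).countable
  intro b _
  have h1 : IsClosed {p : Dir × ℂ | ‖p.2 - a‖ ≤ R} :=
    isClosed_le (by fun_prop) continuous_const
  exact (h1.inter ((isClosed_ip1 a h).inter (isClosed_ip0 (a - b) h))).measurableSet

/-- The number of words. -/
lemma ncard_words {ι : Type} [Finite ι] (M : ℕ) :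
    {w : List ι | w.length ≤ M}.ncard ≤ (Nat.card ι + 1) ^ M := by
  have hinj : Set.InjOn (fun w : List ι => fun i : Fin M => w[(i : ℕ)]?)
      {w : List ι | w.length ≤ M} := by
    intro w hw w' hw' h
    apply List.ext_getElem?
    intro n
    by_cases hn : n < M
    · exact congrFun h ⟨n, hn⟩
    · have h1 : w.length ≤ n := le_trans hw (by omega)
      have h2 : w'.length ≤ n := le_trans hw' (by omega)
      rw [List.getElem?_eq_none h1, List.getElem?_eq_none h2]
  calc {w : List ι | w.length ≤ M}.ncard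
      ≤ (Set.univ : Set (Fin M → Option ι)).ncard :=
        Set.ncard_le_ncard_of_injOn _ (fun _ _ => Set.mem_univ _) hinj Set.finite_univ
    _ = (Nat.card ι + 1) ^ M := by
        rw [Set.ncard_univ, Nat.card_fun, Finite.card_option, Nat.card_fin]

variable {ι : Type} (T : Tab ι)

namespace Tab

lemma ncard_Pv [Finite ι] (M : ℕ) : (T.Pv M).ncard ≤ (Nat.card ι + 1) ^ M * T.V.ncard := by
  classical
  have hch : ∀ p : ℂ, ∃ w : List ι, p ∈ T.Pv M → (w.length ≤ M ∧ T.gw w p ∈ T.V) := by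
    intro p
    by_cases hp : p ∈ T.Pv M
    · obtain ⟨w, h1, h2⟩ := hp
      exact ⟨w, fun _ => ⟨h1, h2⟩⟩
    · exact ⟨[], fun h => absurd h hp⟩
  choose W hW using hch
  have hfin : {w : List ι | w.length ≤ M}.Finite := List.finite_length_le ι M
  calc (T.Pv M).ncard ≤ ({w : List ι | w.length ≤ M} ×ˢ T.V).ncard := by
        refine Set.ncard_le_ncard_of_injOn (fun p => (W p, T.gw (W p) p)) ?_ ?_
          (hfin.prod T.V_finite)
        · intro p hp
          exact ⟨(hW p hp).1, (hW p hp).2⟩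
        · intro p hp q hq h
          simp only [Prod.mk.injEq] at h
          obtain ⟨h1, h2⟩ := h
          rw [← h1] at h2
          exact T.gw_inj _ h2
    _ = {w : List ι | w.length ≤ M}.ncard * T.V.ncard := Set.ncard_prod
    _ ≤ _ := Nat.mul_le_mul_right _ (ncard_words M)

end Tab

end Pool.Agent.Helper90.BE
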