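import Mathlib
import Pool.Agent.Helper90.BE.Cut

/-!
The main inequality: transversal differences are bounded by angular differences.
-/

set_option linter.dupNamespace false

open MeasureTheory Complex
open scoped Real ENNReal ComplexConjugate

noncomputable section

namespace Pool.Agent.Helper90.BE

lemma dir_pi : dir ((π : ℝ) : Dir) = -1 := by
  rw [dir_coe, exp_pi_mul_I]

lemma pi_add_pi : ((π : ℝ) : Dir) + ((π : ℝ) : Dir) = 0 := by
  have : ((π : ℝ) : Dir) + ((π : ℝ) : Dir) = ((2 * π : ℝ) : Dir) := by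
    rw [← AddCircle.coe_add]
    congr 1
    ring
  rw [this]
  exact AddCircle.coe_period _

lemma dir_add_pi (θ : Dir) : dir (θ + ((π : ℝ) : Dir)) = -dir θ := by
  rw [dir_add, dir_pi]
  ring

lemma dir_sub_coe (θ : Dir) (ε : ℝ) :
    dir (θ - (ε : Dir)) = (Real.cos ε) • dir θ - (Real.sin ε) • (I * dir θ) := by
  have h1 : dir (ε : Dir) = Real.cos ε + Real.sin ε * I := by
    rw [dir_coe, exp_mul_I, ← ofReal_cos, ← ofReal_sin]
  rw [sub_eq_add_neg, dir_add, dir_neg, h1, map_add, map_mul, conj_ofReal, conj_ofReal, conj_I,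
    real_smul, real_smul]
  ring

lemma ip_dir_dir (θ : Dir) : ip (dir θ) (dir θ) = 1 := by
  rw [ip_self, norm_dir]; norm_num

lemma ip_I_dir (θ : Dir) : ip (I * dir θ) (I * dir θ) = 1 := by
  rw [ip_self, norm_mul, norm_I, norm_dir]; norm_num

lemma ip_dir_I (θ : Dir) : ip (dir θ) (I * dir θ) = 0 := by
  have h2 : dir θ * conj (dir θ) = 1 := by
    rw [mul_conj, normSq_eq_norm_sq, norm_dir]
    norm_num
  rw [ip, map_mul, conj_I]
  have : dir θ * (-I * conj (dir θ)) = -I * (dir θ * conj (dir θ)) := by ring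
  rw [this, h2]
  simp

lemma ip_I_dir' (θ : Dir) : ip (I * dir θ) (dir θ) = 0 := by
  rw [ip_comm, ip_dir_I]

lemma convex_ip_ge (x w : ℂ) (c : ℝ) : Convex ℝ {z : ℂ | c ≤ ip (z - x) w} := by
  intro y hy z hz a b ha hb hab
  simp only [Set.mem_setOf_eq] at hy hz ⊢
  have e : a • y + b • z - x = a • (y - x) + b • (z - x) := by
    have hx : x = a • x + b • x := by rw [← add_smul, hab, one_smul]
    conv_lhs => rw [hx]
    simp only [smul_sub]
    abel
  rw [e, ip_add_left, ip_smul_left, ip_smul_left]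
  have h1 := mul_le_mul_of_nonneg_left hy ha
  have h2 := mul_le_mul_of_nonneg_left hz hb
  have h3 : a * c + b * c = c := by rw [← add_mul, hab, one_mul]
  linarith

lemma convex_ip_le (x w : ℂ) (c : ℝ) : Convex ℝ {z : ℂ | ip (z - x) w ≤ c} := by
  intro y hy z hz a b ha hb hab
  simp only [Set.mem_setOf_eq] at hy hz ⊢
  have e : a • y + b • z - x = a • (y - x) + b • (z - x) := by
    have hx : x = a • x + b • x := by rw [← add_smul, hab, one_smul]
    conv_lhs => rw [hx]
    simp only [smul_sub]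
    abel
  rw [e, ip_add_left, ip_smul_left, ip_smul_left]
  have h1 := mul_le_mul_of_nonneg_left hy ha
  have h2 := mul_le_mul_of_nonneg_left hz hb
  have h3 : a * c + b * c = c := by rw [← add_mul, hab, one_mul]
  linarith

/-- Points of the forward triangle. -/
lemma hull_fwd {x : ℂ} {θ : Dir} {h t : ℝ} (hh : 0 ≤ h) (ht : 0 ≤ t) {a : ℂ}
    (ha : a ∈ convexHull ℝ {x, x + h • (I * dir θ), x + t • dir θ}) :
    |ip (a - x) (I * dir θ)| ≤ h ∧ 0 ≤ ip (a - x) (I * dir θ) ∧ 0 ≤ ip (a - x) (dir θ) := by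
  have hsub : convexHull ℝ {x, x + h • (I * dir θ), x + t • dir θ} ⊆
      {z : ℂ | 0 ≤ ip (z - x) (I * dir θ)} ∩ ({z : ℂ | ip (z - x) (I * dir θ) ≤ h} ∩
        {z : ℂ | 0 ≤ ip (z - x) (dir θ)}) := by
    apply convexHull_min
    · intro z hz
      simp only [Set.mem_insert_iff, Set.mem_singleton_iff] at hz
      simp only [Set.mem_inter_iff, Set.mem_setOf_eq]
      rcases hz with rfl | rfl | rfl
      · rw [sub_self]
        simp [ip, hh]
      · rw [add_sub_cancel_left, ip_smul_left, ip_smul_left, ip_I_dir, ip_I_dir']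
        simp [hh]
      · rw [add_sub_cancel_left, ip_smul_left, ip_smul_left, ip_dir_I, ip_dir_dir]
        simp [hh, ht]
    · exact (convex_ip_ge x _ 0).inter ((convex_ip_le x _ h).inter (convex_ip_ge x _ 0))
  obtain ⟨h1, h2, h3⟩ := hsub ha
  exact ⟨by rw [abs_of_nonneg h1]; exact h2, h1, h3⟩

/-- Points of the backward triangle. -/
lemma hull_bwd {x : ℂ} {θ : Dir} {h t : ℝ} (hh : 0 ≤ h) (ht : 0 ≤ t) {a : ℂ}
    (ha : a ∈ convexHull ℝ {x, x + h • (I * dir θ), x - t • dir θ}) :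
    |ip (a - x) (I * dir θ)| ≤ h ∧ 0 ≤ ip (a - x) (I * dir θ) ∧ ip (a - x) (dir θ) ≤ 0 := by
  have hsub : convexHull ℝ {x, x + h • (I * dir θ), x - t • dir θ} ⊆
      {z : ℂ | 0 ≤ ip (z - x) (I * dir θ)} ∩ ({z : ℂ | ip (z - x) (I * dir θ) ≤ h} ∩
        {z : ℂ | ip (z - x) (dir θ) ≤ 0}) := by
    apply convexHull_min
    · intro z hz
      simp only [Set.mem_insert_iff, Set.mem_singleton_iff] at hz
      simp only [Set.mem_inter_iff, Set.mem_setOf_eq]
      rcases hz with rfl | rfl | rfl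
      · rw [sub_self]
        simp [ip, hh]
      · rw [add_sub_cancel_left, ip_smul_left, ip_smul_left, ip_I_dir, ip_I_dir']
        simp [hh]
      · rw [sub_sub_cancel_left, ← neg_smul, ip_smul_left, ip_smul_left, ip_dir_I, ip_dir_dir]
        simp [hh, ht]
    · exact (convex_ip_ge x _ 0).inter ((convex_ip_le x _ h).inter (convex_ip_le x _ 0))
  obtain ⟨h1, h2, h3⟩ := hsub ha
  exact ⟨by rw [abs_of_nonneg h1]; exact h2, h1, h3⟩

/-- The sum of the differences of `u` in the two directions `θ ± ε`. -/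
def Kf (u : ℂ → Dir → ℝ) (ε : ℝ) (p : Dir × ℂ) : ℝ≥0∞ :=
  ‖u p.2 (p.1 - (ε : Dir)) - u p.2 p.1‖ₑ + ‖u p.2 (p.1 + (ε : Dir)) - u p.2 p.1‖ₑ

lemma Kf_neg (u : ℂ → Dir → ℝ) (ε : ℝ) : Kf u (-ε) = Kf u ε := by
  funext p
  simp only [Kf, AddCircle.coe_neg, sub_neg_eq_add, ← sub_eq_add_neg]
  rw [add_comm]

lemma measurable_shift {u : ℂ → Dir → ℝ} (hm : Measurable (fun p : Dir × ℂ => u p.2 p.1))
    (δ : Dir) : Measurable (fun p : Dir × ℂ => u p.2 (p.1 + δ)) := by
  have h1 : Measurable (fun p : Dir × ℂ => (p.1 + δ, p.2)) :=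
    (measurable_fst.add_const δ).prodMk measurable_snd
  exact hm.comp h1

lemma measurable_Kf {u : ℂ → Dir → ℝ} (hm : Measurable (fun p : Dir × ℂ => u p.2 p.1)) (ε : ℝ) :
    Measurable (Kf u ε) := by
  unfold Kf
  simp only [sub_eq_add_neg _ (ε : Dir)]
  exact ((measurable_shift hm _).sub hm).enorm.add ((measurable_shift hm _).sub hm).enorm

lemma mp_shift (δ : Dir) : MeasurePreserving (fun p : Dir × ℂ => (p.1 + δ, p.2)) volume volume := by
  have h1 := (measurePreserving_add_right (volume : Measure Dir) δ).prod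
    (MeasurePreserving.id (volume : Measure ℂ))
  exact h1

/-- A translation of the position by a multiple of the rotated direction. -/
lemma mp_trans (h : ℝ) :
    MeasurePreserving (fun p : Dir × ℂ => (p.1, p.2 + h • (I * dir p.1))) volume volume := by
  have := (MeasurePreserving.id (volume : Measure Dir)).skew_product
    (μc := (volume : Measure ℂ)) (μd := (volume : Measure ℂ))
    (g := fun θ x => x + h • (I * dir θ)) ?_ ?_
  · exact this
  · have h1 : Measurable (fun p : Dir × ℂ => dir p.1) := measurable_dir.comp measurable_fst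
    exact measurable_snd.add ((measurable_const.mul h1).const_smul h)
  · refine Filter.Eventually.of_forall (fun θ => ?_)
    exact (measurePreserving_add_right (volume : Measure ℂ) (h • (I * dir θ))).map_eq

variable {ι : Type} (T : Tab ι)

namespace Tab

/-- The angular difference of `u`. -/
def Dv (u : ℂ → Dir → ℝ) (ε : ℝ) : ℝ≥0∞ :=
  ∫⁻ p in {p : Dir × ℂ | p.2 ∈ T.Om}, ‖u p.2 (p.1 + (ε : Dir)) - u p.2 p.1‖ₑ

lemma measurable_Om : MeasurableSet {p : Dir × ℂ | p.2 ∈ T.Om} :=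
  (T.isOpen.preimage continuous_snd).measurableSet

lemma Dv_sub {u : ℂ → Dir → ℝ} (hm : Measurable (fun p : Dir × ℂ => u p.2 p.1)) (ε : ℝ) :
    ∫⁻ p in {p : Dir × ℂ | p.2 ∈ T.Om}, ‖u p.2 (p.1 - (ε : Dir)) - u p.2 p.1‖ₑ = T.Dv u ε := by
  have hmeas : Measurable (fun p : Dir × ℂ => ‖u p.2 (p.1 - (ε : Dir)) - u p.2 p.1‖ₑ) := by
    simp only [sub_eq_add_neg _ (ε : Dir)]
    exact ((measurable_shift hm _).sub hm).enorm
  have h1 := (mp_shift (ε : Dir)).setLIntegral_comp_preimage T.measurable_Om hmeas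
  rw [← h1, Dv]
  have e : (fun p : Dir × ℂ => (p.1 + (ε : Dir), p.2)) ⁻¹' {p : Dir × ℂ | p.2 ∈ T.Om}
      = {p : Dir × ℂ | p.2 ∈ T.Om} := rfl
  rw [e]
  congr 1
  funext p
  simp only [add_sub_cancel_right]
  rw [← enorm_neg, neg_sub]

lemma lintegral_Kf {u : ℂ → Dir → ℝ} (hm : Measurable (fun p : Dir × ℂ => u p.2 p.1)) (ε : ℝ) :
    ∫⁻ p in {p : Dir × ℂ | p.2 ∈ T.Om}, Kf u ε p = 2 * T.Dv u ε := by
  have hk : Measurable (fun p : Dir × ℂ => ‖u p.2 (p.1 + (ε : Dir)) - u p.2 p.1‖ₑ) :=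
    ((measurable_shift hm _).sub hm).enorm
  unfold Kf
  rw [lintegral_add_right _ hk, T.Dv_sub hm]
  exact (two_mul (T.Dv u ε)).symm

/-- Angular differences at the translated point. -/
lemma lintegral_trans {u : ℂ → Dir → ℝ} (hm : Measurable (fun p : Dir × ℂ => u p.2 p.1)) (ε h : ℝ) :
    ∫⁻ p : Dir × ℂ, {p : Dir × ℂ | p.2 ∈ T.Om}.indicator
      (fun p => ‖u p.2 (p.1 + (ε : Dir)) - u p.2 p.1‖ₑ) (p.1, p.2 + h • (I * dir p.1))
      = T.Dv u ε := by
  have hmeas : Measurable ({p : Dir × ℂ | p.2 ∈ T.Om}.indicator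
      (fun p => ‖u p.2 (p.1 + (ε : Dir)) - u p.2 p.1‖ₑ)) :=
    Measurable.indicator ((measurable_shift hm _).sub hm).enorm T.measurable_Om
  have h1 := (mp_trans h).lintegral_comp hmeas
  rw [h1, lintegral_indicator T.measurable_Om]
  rfl

/-- The time reversal of a function. -/
def rev (u : ℂ → Dir → ℝ) (x : ℂ) (θ : Dir) : ℝ := u x (θ + ((π : ℝ) : Dir))

lemma rev_inv {u : ℂ → Dir → ℝ} (hu : T.Inv u) : T.Inv (rev u) := by
  constructor
  · intro x θ t ht hpath
    have h1 := hu.free (x + t • dir θ) (θ + ((π : ℝ) : Dir)) t ht ?_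
    · rw [dir_add_pi] at h1
      have e : x + t • dir θ + t • -dir θ = x := by
        rw [smul_neg]; ring
      rw [e] at h1
      exact h1.symm
    · intro s hs hs'
      rw [dir_add_pi]
      have e : x + t • dir θ + s • -dir θ = x + (t - s) • dir θ := by
        rw [smul_neg, sub_smul]; ring
      rw [e]
      exact hpath (t - s) (by linarith) (by linarith)
  · intro i z θ s t hz hs ht h1 h2
    have hρ : T.rho i (T.rho i θ + ((π : ℝ) : Dir)) = θ + ((π : ℝ) : Dir) := by
      simp only [rho]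
      have e := pi_add_pi
      have : (π : Dir) = -(π : Dir) := by
        rw [eq_neg_iff_add_eq_zero]; exact e
      have h3 : ((2 * arg (T.b i - T.a i) : ℝ) : Dir) -
          (((2 * arg (T.b i - T.a i) : ℝ) : Dir) - θ + (π : Dir)) = θ + -(π : Dir) := by abel
      rw [h3, ← this]
    have key := hu.refl i z (T.rho i θ + ((π : ℝ) : Dir)) t s hz ht hs ?_ ?_
    · rw [hρ, dir_add_pi, dir_add_pi] at key
      simp only [smul_neg, sub_neg_eq_add, ← sub_eq_add_neg] at key
      exact key.symm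
    · intro r hr hr'
      rw [dir_add_pi, smul_neg, sub_neg_eq_add]
      exact h2 r hr hr'
    · intro r hr hr'
      rw [hρ, dir_add_pi, smul_neg, ← sub_eq_add_neg]
      exact h1 r hr hr'

lemma rev_measurable {u : ℂ → Dir → ℝ} (hm : Measurable (fun p : Dir × ℂ => u p.2 p.1)) :
    Measurable (fun p : Dir × ℂ => rev u p.2 p.1) := measurable_shift hm _

lemma Dv_rev {u : ℂ → Dir → ℝ} (hm : Measurable (fun p : Dir × ℂ => u p.2 p.1)) (ε : ℝ) :
    T.Dv (rev u) ε = T.Dv u ε := by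
  have hmeas : Measurable (fun p : Dir × ℂ => ‖u p.2 (p.1 + (ε : Dir)) - u p.2 p.1‖ₑ) :=
    ((measurable_shift hm _).sub hm).enorm
  have h1 := (mp_shift ((π : ℝ) : Dir)).setLIntegral_comp_preimage T.measurable_Om hmeas
  have e : (fun p : Dir × ℂ => (p.1 + ((π : ℝ) : Dir), p.2)) ⁻¹' {p : Dir × ℂ | p.2 ∈ T.Om}
      = {p : Dir × ℂ | p.2 ∈ T.Om} := rfl
  rw [e] at h1
  rw [Dv, Dv, ← h1]
  congr 1
  funext p
  simp only [rev, add_right_comm]

lemma rw'_parity (w : List ι) : (∀ θ δ : Dir, T.rw' w (θ + δ) = T.rw' w θ + δ) ∨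
    (∀ θ δ : Dir, T.rw' w (θ + δ) = T.rw' w θ - δ) := by
  induction w with
  | nil => exact Or.inl (fun _ _ => rfl)
  | cons i w ih =>
    rcases ih with h | h
    · right
      intro θ δ
      simp only [rw', rho, h]
      abel
    · left
      intro θ δ
      simp only [rw', rho, h]
      abel

/-- The first collision is not in a ball around the starting point. -/
lemma Run.far {x W : ℂ} {δ : ℝ} (hb : Metric.ball x δ ⊆ T.Om) {i : ι} {w : List ι} {s : ℝ}
    (h : T.Run (i :: w) x W s) : δ ≤ s * ‖W‖ := by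
  induction w generalizing i s with
  | nil =>
    obtain ⟨s', ⟨rfl, _⟩, h2, _, h4⟩ := h
    by_contra hc
    push Not at hc
    apply T.not_mem_of_side h4.1
    simp only [gw, Gw]
    apply hb
    rw [Metric.mem_ball, dist_eq_norm, add_sub_cancel_left, norm_smul, Real.norm_eq_abs,
      abs_of_pos h2]
    exact hc
  | cons j w ih =>
    obtain ⟨s', h1, h2, _⟩ := h
    exact (ih h1).trans (mul_le_mul_of_nonneg_right h2.le (norm_nonneg _))

lemma norm_smul_I (h : ℝ) (θ : Dir) : ‖h • (I * dir θ)‖ = |h| := by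
  rw [norm_smul, norm_mul, norm_I, norm_dir, mul_one, mul_one, Real.norm_eq_abs]

/-- Points of the thin triangle. -/
lemma hull_abs {x : ℂ} {θ : Dir} {h t : ℝ} (ht : 0 ≤ t) {a : ℂ}
    (ha : a ∈ convexHull ℝ {x, x + h • (I * dir θ), x + t • dir θ}) :
    |ip (a - x) (I * dir θ)| ≤ |h| ∧ 0 ≤ ip (a - x) (dir θ) ∧ ip (a - x) (dir θ) ≤ t := by
  have hsub : convexHull ℝ {x, x + h • (I * dir θ), x + t • dir θ} ⊆
      ({z : ℂ | -|h| ≤ ip (z - x) (I * dir θ)} ∩ {z : ℂ | ip (z - x) (I * dir θ) ≤ |h|}) ∩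
        ({z : ℂ | 0 ≤ ip (z - x) (dir θ)} ∩ {z : ℂ | ip (z - x) (dir θ) ≤ t}) := by
    apply convexHull_min
    · intro z hz
      simp only [Set.mem_insert_iff, Set.mem_singleton_iff] at hz
      simp only [Set.mem_inter_iff, Set.mem_setOf_eq]
      rcases hz with rfl | rfl | rfl
      · rw [sub_self]
        simp [ip, ht]
      · rw [add_sub_cancel_left, ip_smul_left, ip_smul_left, ip_I_dir, ip_I_dir']
        simp [neg_abs_le, le_abs_self, ht]
      · rw [add_sub_cancel_left, ip_smul_left, ip_smul_left, ip_dir_I, ip_dir_dir]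
        simp [ht]
    · exact ((convex_ip_ge x _ _).inter (convex_ip_le x _ _)).inter
        ((convex_ip_ge x _ 0).inter (convex_ip_le x _ t))
  obtain ⟨⟨h1, h2⟩, h3, h4⟩ := hsub ha
  exact ⟨abs_le.2 ⟨h1, h2⟩, h3, h4⟩

lemma norm_le_ip (z : ℂ) (θ : Dir) : ‖z‖ ≤ |ip z (dir θ)| + |ip z (I * dir θ)| := by
  have h1 : ‖z‖ = ‖z * conj (dir θ)‖ := by
    rw [norm_mul, norm_conj, norm_dir, mul_one]
  have h2 : ip z (I * dir θ) = (z * conj (dir θ)).im := by
    rw [ip, map_mul, conj_I]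
    have : z * (-I * conj (dir θ)) = -(I * (z * conj (dir θ))) := by ring
    rw [this, neg_re, I_mul_re, neg_neg]
  rw [h1, h2, ip]
  exact norm_le_abs_re_add_abs_im _

/-- The forward comparison. -/
lemma fwd [Finite ι] {u : ℂ → Dir → ℝ} (hu : T.Inv u) {l ε δ : ℝ} (hl : 0 < l) (hδ : 0 < δ)
    (hε : 0 < Real.cos ε) (hh : |l * Real.sin ε| ≤ δ / 4) (ht : δ / 2 ≤ l * Real.cos ε)
    {x : ℂ} {θ : Dir} {M : ℕ} (hball : Metric.ball x δ ⊆ T.Om)
    (hM : ∀ (w : List ι) (s : ℝ), s ≤ 1 → T.Run w x ((l * Real.cos ε) • dir θ) s → w.length ≤ M)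
    (hP : ∀ a ∈ T.Pv M, a ∈ convexHull ℝ {x, x + (l * Real.sin ε) • (I * dir θ),
      x + (l * Real.cos ε) • dir θ} → ip (a - x) (dir θ) < δ / 2)
    (hF : ∀ w : List ι, T.gw w (x + (l * Real.cos ε) • dir θ) ∉ frontier T.Om) :
    ∃ w : List ι, (θ, x) ∈ T.Fs (l * Real.cos ε) w ∧
      ‖u (x + (l * Real.sin ε) • (I * dir θ)) (θ - (ε : Dir)) - u x θ‖ₑ ≤
        Kf u ε (T.Ph (l * Real.cos ε) w (θ, x)) := by
  set t := l * Real.cos ε with htd
  set h := l * Real.sin ε with hhd
  have hl' : 0 < t := mul_pos hl hε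
  set x' := x + h • (I * dir θ) with hx'
  set c := x + t • dir θ with hc
  set D0 := convexHull ℝ {x, x', c} with hD0
  set D : List ι → Set ℂ := fun w => if w = [] then D0 else D0 ∩ {z | δ / 2 ≤ ip (z - x) (dir θ)}
    with hDd
  have hD0c : Convex ℝ D0 := convex_convexHull _ _
  have hxD : x ∈ D0 := subset_convexHull ℝ _ (by simp)
  have hx'D : x' ∈ D0 := subset_convexHull ℝ _ (by simp)
  have hcD : c ∈ D0 := subset_convexHull ℝ _ (by simp)
  have hDc : ∀ w, Convex ℝ (D w) := by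
    intro w
    simp only [hDd]
    split_ifs
    · exact hD0c
    · exact hD0c.inter (convex_ip_ge x _ _)
  have hW : c - x = t • dir θ := by rw [hc]; ring
  have hcw : ∀ w, c ∈ D w := by
    intro w
    simp only [hDd]
    split_ifs
    · exact hcD
    · refine ⟨hcD, ?_⟩
      simp only [Set.mem_setOf_eq]
      rw [hW, ip_smul_left, ip_dir_dir, mul_one]
      exact ht
  have hnW : ‖c - x‖ = t := by
    rw [hW, norm_smul, norm_dir, mul_one, Real.norm_eq_abs, abs_of_pos hl']
  have hW' : c - x' = l • dir (θ - (ε : Dir)) := by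
    rw [dir_sub_coe, hc, hx', smul_sub, smul_smul, smul_smul]
    ring
  have hnW' : ‖c - x'‖ = l := by
    rw [hW', norm_smul, norm_dir, mul_one, Real.norm_eq_abs, abs_of_pos hl]
  have hxO : x ∈ T.Om := hball (Metric.mem_ball_self hδ)
  -- a point of the triangle with small coordinate is in the ball
  have hnear : ∀ z ∈ D0, ip (z - x) (dir θ) < δ / 2 → z ∈ Metric.ball x δ := by
    intro z hz hz2
    obtain ⟨g1, g2, g3⟩ := hull_abs hl'.le hz
    rw [Metric.mem_ball, dist_eq_norm]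
    have := norm_le_ip (z - x) θ
    rw [abs_of_nonneg g2] at this
    linarith
  have hVD : ∀ w : List ι, w.length ≤ M → ∀ z ∈ D w, T.gw w z ∉ T.V := by
    intro w hw z hz hzV
    have hzP : z ∈ T.Pv M := ⟨w, hw, hzV⟩
    by_cases hw0 : w = []
    · subst hw0
      have hz0 : z ∈ D0 := by
        simp only [hDd, if_true] at hz
        exact hz
      have h1 := hnear z hz0 (hP z hzP hz0)
      have h2 : z ∈ T.V := hzV
      have h3 : ∃ i, z ∈ T.side i := by
        obtain ⟨i, hi | hi⟩ := h2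
        · exact ⟨i, by rw [hi]; exact T.a_mem_side i⟩
        · exact ⟨i, by rw [hi]; exact T.b_mem_side i⟩
      obtain ⟨i, hi⟩ := h3
      exact T.not_mem_of_side hi (hball h1)
    · simp only [hDd, if_neg hw0] at hz
      have h1 := hP z hzP hz.1
      have h2 : δ / 2 ≤ ip (z - x) (dir θ) := hz.2
      linarith
  have hxs : ∀ r : ℝ, 0 ≤ r → r ≤ 1 → x + r • (c - x) ∈ D0 := by
    intro r hr0 hr1
    apply hD0c.segment_subset hxD hcD
    rw [segment_eq_image']
    exact ⟨r, ⟨hr0, hr1⟩, rfl⟩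
  have hX : ∀ (w : List ι) (s r : ℝ), s ≤ r → r ≤ 1 → T.Run w x (c - x) s →
      x + r • (c - x) ∈ D w := by
    intro w s r hsr hr hrun
    have hs0 := Run.nonneg T hrun
    have h0 := hxs r (hs0.trans hsr) hr
    cases w with
    | nil =>
      simp only [hDd, if_true]
      exact h0
    | cons i w =>
      simp only [hDd, reduceCtorEq, if_false]
      refine ⟨h0, ?_⟩
      have hf := Run.far T hball hrun
      rw [hnW] at hf
      simp only [Set.mem_setOf_eq]
      rw [add_sub_cancel_left, hW, ip_smul_left, ip_smul_left, ip_dir_dir, mul_one]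
      have : s * t ≤ r * t := mul_le_mul_of_nonneg_right hsr hl'.le
      linarith
  have hball' : Metric.ball x' (δ - |h|) ⊆ T.Om := by
    intro z hz
    apply hball
    rw [Metric.mem_ball, dist_eq_norm] at hz ⊢
    have h1 : ‖x' - x‖ = |h| := by
      rw [hx', add_sub_cancel_left, norm_smul_I]
    calc ‖z - x‖ = ‖(z - x') + (x' - x)‖ := by congr 1; ring
      _ ≤ ‖z - x'‖ + ‖x' - x‖ := norm_add_le _ _
      _ < δ := by rw [h1]; linarith
  have hX' : ∀ (w : List ι) (s : ℝ), s < 1 → T.Run w x' (c - x') s → x' + s • (c - x') ∈ D w := by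
    intro w s hs hrun
    have hs0 := Run.nonneg T hrun
    have h0 : x' + s • (c - x') ∈ D0 := by
      apply hD0c.segment_subset hx'D hcD
      rw [segment_eq_image']
      exact ⟨s, ⟨hs0, hs.le⟩, rfl⟩
    cases w with
    | nil =>
      simp only [hDd, if_true]
      exact h0
    | cons i w =>
      simp only [hDd, reduceCtorEq, if_false]
      refine ⟨h0, ?_⟩
      have hf := Run.far T hball' hrun
      rw [hnW'] at hf
      have e1 : x' + s • (c - x') - x = (h - s * h) • (I * dir θ) + (s * t) • dir θ := by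
        rw [hc, hx']
        module
      simp only [Set.mem_setOf_eq]
      rw [e1, ip_add_left, ip_smul_left, ip_smul_left, ip_I_dir', ip_dir_dir, mul_zero, mul_one,
        zero_add]
      -- `(s t)^2 ≥ (s l)^2 - (s h)^2 ≥ (δ - |h|)^2 - h^2`
      have h2 : t ^ 2 + h ^ 2 = l ^ 2 := by
        rw [htd, hhd]
        have := Real.sin_sq_add_cos_sq ε
        calc (l * Real.cos ε) ^ 2 + (l * Real.sin ε) ^ 2
            = l ^ 2 * (Real.sin ε ^ 2 + Real.cos ε ^ 2) := by ring
          _ = l ^ 2 := by rw [this, mul_one]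
      have h3 : 0 ≤ δ - |h| := by linarith
      have h4 : (δ - |h|) ^ 2 ≤ (s * l) ^ 2 := pow_le_pow_left₀ h3 hf 2
      have h5 : (s * h) ^ 2 ≤ |h| ^ 2 := by
        rw [sq_abs, mul_pow]
        have : s ^ 2 ≤ 1 := by nlinarith
        nlinarith [sq_nonneg h]
      have h6 : (s * t) ^ 2 = (s * l) ^ 2 - (s * h) ^ 2 := by
        have : (s * l) ^ 2 = s ^ 2 * (t ^ 2 + h ^ 2) := by rw [mul_pow, h2]
        rw [this]; ring
      have h7 : (δ / 2) ^ 2 ≤ (s * t) ^ 2 := by
        rw [h6]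
        have h8 : (δ - |h|) ^ 2 - |h| ^ 2 = δ ^ 2 - 2 * δ * |h| := by ring
        have h9 : δ * |h| ≤ δ * (δ / 4) := mul_le_mul_of_nonneg_left hh hδ.le
        nlinarith
      exact le_of_sq_le_sq h7 (by positivity)
  have hseg : segment ℝ x x' ⊆ T.Om := by
    intro z hz
    apply hball
    rw [segment_eq_image'] at hz
    obtain ⟨r, hr, rfl⟩ := hz
    rw [Metric.mem_ball, dist_eq_norm]
    simp only
    rw [add_sub_cancel_left, hx', add_sub_cancel_left, norm_smul, norm_smul_I, Real.norm_eq_abs,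
      abs_of_nonneg hr.1]
    have : r * |h| ≤ 1 * |h| := mul_le_mul_of_nonneg_right hr.2 (abs_nonneg _)
    linarith
  obtain ⟨w, hwM, hfin⟩ := T.exists_fin (x := x) (W := t • dir θ) hxO hM (by
      intro w hw s r hrun hsr hr1
      rw [← T.Gw_smul, ← T.gw_add, ← hW]
      rw [← hW] at hrun
      exact hVD w hw _ (hX w s r hsr.le hr1 hrun)) (fun w _ => hF w)
  have hfin' : T.Fin w x (c - x) := by rw [hW]; exact hfin
  have hfin2 := T.fin_tri hDc hcw hseg (fun w s hs hrun => hX w s s le_rfl hs.le hrun) hX' hVD hwM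
    hfin'
  rw [hW'] at hfin2
  have e1 := Fin.inv T hu hl' hfin
  have e2 := Fin.inv T hu hl hfin2
  have e3 : x' + l • dir (θ - (ε : Dir)) = c := by rw [← hW']; ring
  rw [e3] at e2
  refine ⟨w, hfin, ?_⟩
  rw [← e1, ← e2]
  simp only [Kf, Ph]
  rcases T.rw'_parity w with hp | hp
  · have : T.rw' w (θ - (ε : Dir)) = T.rw' w θ - (ε : Dir) := by
      rw [sub_eq_add_neg, hp, ← sub_eq_add_neg]
    rw [this]
    exact le_self_add
  · have : T.rw' w (θ - (ε : Dir)) = T.rw' w θ + (ε : Dir) := by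
      rw [sub_eq_add_neg, hp, sub_neg_eq_add]
    rw [this]
    exact le_add_self

/-- The sum over all words. -/
def Sf (u : ℂ → Dir → ℝ) (ε t : ℝ) (p : Dir × ℂ) : ℝ≥0∞ :=
  ∑' w : List ι, (T.Fs t w).indicator (fun p => Kf u ε (T.Ph t w p)) p

lemma measurable_Sf [Finite ι] {u : ℂ → Dir → ℝ}
    (hm : Measurable (fun p : Dir × ℂ => u p.2 p.1)) (ε t : ℝ) : Measurable (T.Sf u ε t) := by
  have : Countable ι := Finite.to_countable
  unfold Sf
  apply Measurable.tsum
  intro w
  exact ((measurable_Kf hm ε).comp (T.measurable_Ph t w)).indicator (T.measurable_Fs t w)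

lemma lintegral_Sf [Finite ι] {u : ℂ → Dir → ℝ}
    (hm : Measurable (fun p : Dir × ℂ => u p.2 p.1)) (ε t : ℝ) :
    ∫⁻ p, T.Sf u ε t p ≤ 2 * T.Dv u ε := by
  have : Countable ι := Finite.to_countable
  unfold Sf
  have hk : ∀ w : List ι, AEMeasurable
      ((T.Fs t w).indicator (fun p => Kf u ε (T.Ph t w p))) volume := fun w =>
    (((measurable_Kf hm ε).comp (T.measurable_Ph t w)).indicator
      (T.measurable_Fs t w)).aemeasurable
  rw [lintegral_tsum hk]
  have h1 : ∀ w : List ι, ∫⁻ p, (T.Fs t w).indicator (fun p => Kf u ε (T.Ph t w p)) p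
      = ∫⁻ p in T.Fs t w, Kf u ε (T.Ph t w p) := fun w =>
    lintegral_indicator (T.measurable_Fs t w) _
  rw [tsum_congr h1, ← T.lintegral_Kf hm]
  exact T.sum_lintegral_le

end Tab

end Pool.Agent.Helper90.BE
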