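import Mathlib
import Pool.Agent.Helper90.BE.Ineq
import Pool.Agent.Helper90.BE.Cut2

/-!
The main inequality: transversal differences are bounded by angular differences.
-/

set_option linter.dupNamespace false
set_option linter.deprecated false

open MeasureTheory Complex
open scoped Real ENNReal ComplexConjugate

noncomputable section

namespace Pool.Agent.Helper90.BE

variable {ι : Type} (T : Tab ι)

namespace Tab

/-- The main inequality. -/
theorem main_ineq [Finite ι] : ∃ A0 B0 : ℝ, 0 ≤ A0 ∧ 0 ≤ B0 ∧ ∀ (u : ℂ → Dir → ℝ), T.Inv u →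
    Measurable (fun p : Dir × ℂ => u p.2 p.1) → (∀ x θ, |u x θ| ≤ 1) →
    ∀ l ε h t δ : ℝ, 0 < l → 0 < ε → ε < π / 2 → 0 < δ → l * Real.sin ε = h →
    l * Real.cos ε = t → h ≤ δ / 4 → δ / 2 ≤ t →
    ∀ M : ℕ, A0 * t + B0 ≤ M →
    ∀ B : Set (Dir × ℂ), MeasurableSet B → (∀ p ∈ B, Metric.ball p.2 δ ⊆ T.Om) →
    ∫⁻ p in B, ‖u (p.2 + h • (I * dir p.1)) p.1 - u p.2 p.1‖ₑ ≤
      6 * T.Dv u ε + 2 * volume (BD (T.Pv M) δ (h + t) h) := by
  obtain ⟨A0, B0, hA0, hB0, hbounce⟩ := T.exists_bounce
  refine ⟨A0, B0, hA0, hB0, ?_⟩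
  intro u hu hm hb l ε h t δ hl hε0 hε1 hδ hlh hlt hhδ htδ M hMt B hB hBball
  have hcos : 0 < Real.cos ε := Real.cos_pos_of_mem_Ioo ⟨by linarith, hε1⟩
  have hsin : 0 < Real.sin ε := Real.sin_pos_of_pos_of_lt_pi hε0 (by linarith)
  have hh : 0 < h := by rw [← hlh]; positivity
  have ht0 : 0 < t := by rw [← hlt]; positivity
  have hM : ∀ (x : ℂ) (θ : Dir) (w : List ι) (s : ℝ), s ≤ 1 → T.Run w x (t • dir θ) s →
      w.length ≤ M := by
    intro x θ w s hs hrun
    have hW : t • dir θ ≠ 0 := smul_ne_zero ht0.ne' (dir_ne θ)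
    have h1 := hbounce w x _ s hW hrun
    have h2 : ‖t • dir θ‖ = t := by
      rw [norm_smul, norm_dir, mul_one, Real.norm_eq_abs, abs_of_pos ht0]
    rw [h2] at h1
    have hs0 := Run.nonneg T hrun
    have h3 : s * t ≤ t := by
      calc s * t ≤ 1 * t := mul_le_mul_of_nonneg_right hs ht0.le
        _ = t := one_mul _
    have h4 : (w.length : ℝ) ≤ A0 * t + B0 :=
      h1.trans (by linarith [mul_le_mul_of_nonneg_left h3 hA0])
    have h5 : (w.length : ℝ) ≤ (M : ℝ) := h4.trans hMt
    exact_mod_cast h5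
  -- the functions
  set O : Set (Dir × ℂ) := {p | p.2 ∈ T.Om} with hO
  set A1 : Dir × ℂ → ℝ≥0∞ := fun p => O.indicator
    (fun p => ‖u p.2 (p.1 + ((-ε : ℝ) : Dir)) - u p.2 p.1‖ₑ) (p.1, p.2 + h • (I * dir p.1)) with hA1
  set A2 : Dir × ℂ → ℝ≥0∞ := fun p => O.indicator
    (fun p => ‖u p.2 (p.1 + (ε : Dir)) - u p.2 p.1‖ₑ) (p.1, p.2 + h • (I * dir p.1)) with hA2
  set S1 : Dir × ℂ → ℝ≥0∞ := T.Sf u ε t with hS1
  set S2 : Dir × ℂ → ℝ≥0∞ := fun p => T.Sf (rev u) ε t (p.1 + ((π : ℝ) : Dir), p.2) with hS2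
  have hm' := rev_measurable hm
  have hu' := T.rev_inv hu
  have hmA1 : Measurable A1 := by
    have : Measurable (O.indicator (fun p : Dir × ℂ =>
        ‖u p.2 (p.1 + ((-ε : ℝ) : Dir)) - u p.2 p.1‖ₑ)) :=
      Measurable.indicator ((measurable_shift hm _).sub hm).enorm T.measurable_Om
    exact this.comp (mp_trans h).measurable
  have hmA2 : Measurable A2 := by
    have : Measurable (O.indicator (fun p : Dir × ℂ =>
        ‖u p.2 (p.1 + (ε : Dir)) - u p.2 p.1‖ₑ)) :=
      Measurable.indicator ((measurable_shift hm _).sub hm).enorm T.measurable_Om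
    exact this.comp (mp_trans h).measurable
  have hmS1 : Measurable S1 := T.measurable_Sf hm ε t
  have hmS2 : Measurable S2 := (T.measurable_Sf hm' ε t).comp (mp_shift _).measurable
  have hmBC : MeasurableSet (BD (T.Pv M) δ (h + t) h) := measurable_BD (T.Pv_finite M) δ (h + t) h
  -- the exceptional sets
  have hex1 := T.null_end t
  have hex2 : ∀ᵐ p : Dir × ℂ, ∀ w : List ι,
      T.gw w (p.2 + t • dir (p.1 + ((π : ℝ) : Dir))) ∉ frontier T.Om := by
    have := (mp_shift ((π : ℝ) : Dir)).quasiMeasurePreserving.ae (T.null_end t)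
    exact this
  -- the pointwise inequality
  have hpt : ∀ᵐ p : Dir × ℂ, p ∈ B → ‖u (p.2 + h • (I * dir p.1)) p.1 - u p.2 p.1‖ₑ ≤
      A1 p + A2 p + S1 p + S2 p + (BD (T.Pv M) δ (h + t) h).indicator (fun _ => 2) p := by
    filter_upwards [hex1, hex2] with p hp1 hp2 hpB
    obtain ⟨θ, x⟩ := p
    simp only at hp1 hp2 ⊢
    have hball : Metric.ball x δ ⊆ T.Om := hBball _ hpB
    have hx'O : x + h • (I * dir θ) ∈ T.Om := by
      apply hball
      rw [Metric.mem_ball, dist_eq_norm, add_sub_cancel_left, norm_smul_I, abs_of_pos hh]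
      linarith
    by_cases hc1 : ∃ a ∈ T.Pv M, a ∈ convexHull ℝ {x, x + h • (I * dir θ), x + t • dir θ} ∧
        δ / 2 ≤ ip (a - x) (dir θ)
    · by_cases hc2 : ∃ a ∈ T.Pv M, a ∈ convexHull ℝ {x, x + h • (I * dir θ), x - t • dir θ} ∧
          ip (a - x) (dir θ) ≤ -(δ / 2)
      · -- both triangles are cut
        obtain ⟨a, haP, ha, ha2⟩ := hc1
        obtain ⟨b, hbP, hb', hb2⟩ := hc2
        obtain ⟨a1, a2, a3⟩ := hull_fwd hh.le ht0.le ha
        obtain ⟨_, _, a4⟩ := hull_abs ht0.le ha
        obtain ⟨b1, b2, b3⟩ := hull_bwd hh.le ht0.le hb'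
        have hab : δ ≤ ‖a - b‖ := by
          have e : a - b = (a - x) - (b - x) := by ring
          have h1 : δ ≤ ip (a - b) (dir θ) := by
            rw [e, ip_sub_left]
            linarith
          have h2 := abs_ip_le (a - b) (dir θ)
          rw [norm_dir, mul_one] at h2
          exact h1.trans ((le_abs_self _).trans h2)
        have hxa : ‖x - a‖ ≤ h + t := by
          rw [norm_sub_rev]
          have h1 := norm_le_ip (a - x) θ
          rw [abs_of_nonneg a3] at h1
          linarith
        have hmem : (θ, x) ∈ BD (T.Pv M) δ (h + t) h := by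
          refine ⟨a, haP, b, hbP, hab, hxa, a1, ?_⟩
          have e : a - b = (a - x) - (b - x) := by ring
          simp only
          rw [e, ip_sub_left, abs_le]
          rw [abs_of_nonneg a2] at a1
          rw [abs_of_nonneg b2] at b1
          constructor <;> linarith
        rw [Set.indicator_of_mem hmem]
        have h1 : ‖u (x + h • (I * dir θ)) θ - u x θ‖ₑ ≤ 2 := by
          rw [← ofReal_norm, Real.norm_eq_abs]
          have h2 : |u (x + h • (I * dir θ)) θ - u x θ| ≤ 2 := by
            have e1 := abs_le.1 (hb (x + h • (I * dir θ)) θ)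
            have e2 := abs_le.1 (hb x θ)
            rw [abs_le]
            constructor <;> linarith
          calc ENNReal.ofReal |u (x + h • (I * dir θ)) θ - u x θ| ≤ ENNReal.ofReal 2 :=
                ENNReal.ofReal_le_ofReal h2
            _ = 2 := by simp
        exact h1.trans le_add_self
      · -- the backward triangle is not cut
        push Not at hc2
        have hdπ : dir (θ + ((π : ℝ) : Dir)) = -dir θ := dir_add_pi θ
        have e1 : x + (l * Real.sin (-ε)) • (I * dir (θ + ((π : ℝ) : Dir)))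
            = x + h • (I * dir θ) := by
          rw [hdπ, Real.sin_neg, mul_neg, hlh, mul_neg, smul_neg, neg_smul, neg_neg]
        have e2 : x + (l * Real.cos (-ε)) • dir (θ + ((π : ℝ) : Dir)) = x - t • dir θ := by
          rw [hdπ, Real.cos_neg, hlt, smul_neg, ← sub_eq_add_neg]
        have ht' : l * Real.cos (-ε) = t := by rw [Real.cos_neg, hlt]
        have key := T.fwd hu' (l := l) (ε := -ε) (δ := δ) hl hδ
          (by rw [Real.cos_neg]; exact hcos)
          (by rw [Real.sin_neg, mul_neg, hlh, abs_neg, abs_of_pos hh]; exact hhδ)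
          (by rw [ht']; exact htδ)
          (x := x) (θ := θ + ((π : ℝ) : Dir)) (M := M) hball
          (by rw [ht']; exact hM x _) (by
            rw [e1, e2]
            intro a haP ha
            have h1 := hc2 a haP ha
            rw [hdπ]
            have h2 : ip (a - x) (-dir θ) = -ip (a - x) (dir θ) := by
              simp only [ip, map_neg, mul_neg, neg_re]
            rw [h2]
            linarith) (by
            rw [e2]
            intro w
            have := hp2 w
            rw [hdπ, smul_neg, ← sub_eq_add_neg] at this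
            exact this)
        obtain ⟨w, hw1, hw2⟩ := key
        rw [e1, ht', Kf_neg] at hw2
        rw [ht'] at hw1
        have hr1 : rev u (x + h • (I * dir θ)) (θ + ((π : ℝ) : Dir) - ((-ε : ℝ) : Dir))
            = u (x + h • (I * dir θ)) (θ + (ε : Dir)) := by
          simp only [rev, AddCircle.coe_neg, sub_neg_eq_add]
          congr 1
          calc θ + (π : Dir) + (ε : Dir) + (π : Dir) = θ + (ε : Dir) + ((π : Dir) + (π : Dir)) := by
                abel
            _ = _ := by rw [pi_add_pi, add_zero]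
        have hr2 : rev u x (θ + ((π : ℝ) : Dir)) = u x θ := by
          simp only [rev]
          rw [add_assoc, pi_add_pi, add_zero]
        rw [hr1, hr2] at hw2
        have hA : A2 (θ, x) = ‖u (x + h • (I * dir θ)) (θ + (ε : Dir))
            - u (x + h • (I * dir θ)) θ‖ₑ := by
          simp only [hA2]
          rw [Set.indicator_of_mem]
          exact hx'O
        have hS : Kf (rev u) ε (T.Ph t w (θ + ((π : ℝ) : Dir), x)) ≤ S2 (θ, x) := by
          simp only [hS2, Sf]
          refine le_trans ?_ (ENNReal.le_tsum w)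
          rw [Set.indicator_of_mem hw1]
        have htri : ‖u (x + h • (I * dir θ)) θ - u x θ‖ₑ ≤
            ‖u (x + h • (I * dir θ)) (θ + (ε : Dir)) - u (x + h • (I * dir θ)) θ‖ₑ +
            ‖u (x + h • (I * dir θ)) (θ + (ε : Dir)) - u x θ‖ₑ := by
          have e3 : u (x + h • (I * dir θ)) θ - u x θ =
              -(u (x + h • (I * dir θ)) (θ + (ε : Dir)) - u (x + h • (I * dir θ)) θ) +
              (u (x + h • (I * dir θ)) (θ + (ε : Dir)) - u x θ) := by ring
          rw [e3]
          refine (enorm_add_le _ _).trans ?_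
          rw [enorm_neg]
        refine htri.trans ?_
        rw [← hA]
        calc A2 (θ, x) + ‖u (x + h • (I * dir θ)) (θ + (ε : Dir)) - u x θ‖ₑ
            ≤ A2 (θ, x) + S2 (θ, x) := add_le_add le_rfl (hw2.trans hS)
          _ ≤ A1 (θ, x) + A2 (θ, x) + S1 (θ, x) + S2 (θ, x) := by
              gcongr
              rw [add_assoc, add_comm (A1 (θ, x)), add_assoc]
              exact le_self_add
          _ ≤ _ := le_self_add
    · -- the forward triangle is not cut
      push Not at hc1
      have key := T.fwd hu (l := l) (ε := ε) (δ := δ) hl hδ hcos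
        (by rw [hlh, abs_of_pos hh]; exact hhδ) (by rw [hlt]; exact htδ) (x := x) (θ := θ) (M := M)
        hball (by rw [hlt]; exact hM x θ) (by rw [hlh, hlt]; exact hc1) (by rw [hlt]; exact hp1)
      obtain ⟨w, hw1, hw2⟩ := key
      rw [hlt] at hw1 hw2
      rw [hlh] at hw2
      have hA : A1 (θ, x) = ‖u (x + h • (I * dir θ)) (θ - (ε : Dir))
          - u (x + h • (I * dir θ)) θ‖ₑ := by
        simp only [hA1]
        rw [Set.indicator_of_mem (by exact hx'O), AddCircle.coe_neg, ← sub_eq_add_neg]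
      have hS : Kf u ε (T.Ph t w (θ, x)) ≤ S1 (θ, x) := by
        simp only [hS1, Sf]
        refine le_trans ?_ (ENNReal.le_tsum w)
        rw [Set.indicator_of_mem hw1]
      have htri : ‖u (x + h • (I * dir θ)) θ - u x θ‖ₑ ≤
          ‖u (x + h • (I * dir θ)) (θ - (ε : Dir)) - u (x + h • (I * dir θ)) θ‖ₑ +
          ‖u (x + h • (I * dir θ)) (θ - (ε : Dir)) - u x θ‖ₑ := by
        have e3 : u (x + h • (I * dir θ)) θ - u x θ =
            -(u (x + h • (I * dir θ)) (θ - (ε : Dir)) - u (x + h • (I * dir θ)) θ) +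
            (u (x + h • (I * dir θ)) (θ - (ε : Dir)) - u x θ) := by ring
        rw [e3]
        refine (enorm_add_le _ _).trans ?_
        rw [enorm_neg]
      refine htri.trans ?_
      rw [← hA]
      calc A1 (θ, x) + ‖u (x + h • (I * dir θ)) (θ - (ε : Dir)) - u x θ‖ₑ
          ≤ A1 (θ, x) + S1 (θ, x) := add_le_add le_rfl (hw2.trans hS)
        _ ≤ A1 (θ, x) + A2 (θ, x) + S1 (θ, x) := by
            gcongr
            exact le_self_add
        _ ≤ A1 (θ, x) + A2 (θ, x) + S1 (θ, x) + S2 (θ, x) := le_self_add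
        _ ≤ _ := le_self_add
  -- integrate
  calc ∫⁻ p in B, ‖u (p.2 + h • (I * dir p.1)) p.1 - u p.2 p.1‖ₑ
      ≤ ∫⁻ p in B, (A1 p + A2 p + S1 p + S2 p
          + (BD (T.Pv M) δ (h + t) h).indicator (fun _ => 2) p) := by
        apply lintegral_mono_ae
        rw [ae_restrict_iff' hB]
        exact hpt
    _ ≤ ∫⁻ p, (A1 p + A2 p + S1 p + S2 p
          + (BD (T.Pv M) δ (h + t) h).indicator (fun _ => 2) p) := setLIntegral_le_lintegral _ _
    _ = (∫⁻ p, A1 p) + (∫⁻ p, A2 p) + (∫⁻ p, S1 p) + (∫⁻ p, S2 p)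
          + 2 * volume (BD (T.Pv M) δ (h + t) h) := by
        rw [lintegral_add_right _ (measurable_const.indicator hmBC),
          lintegral_add_right _ hmS2, lintegral_add_right _ hmS1, lintegral_add_right _ hmA2,
          lintegral_indicator_const hmBC]
    _ ≤ 6 * T.Dv u ε + 2 * volume (BD (T.Pv M) δ (h + t) h) := by
        gcongr
        have i1 : ∫⁻ p, A1 p = T.Dv u ε := by
          have := T.lintegral_trans hm (-ε) h
          rw [← T.Dv_sub hm ε]
          refine this.trans ?_
          simp only [Dv, AddCircle.coe_neg, ← sub_eq_add_neg]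
        have i2 : ∫⁻ p, A2 p = T.Dv u ε := T.lintegral_trans hm ε h
        have i3 : ∫⁻ p, S1 p ≤ 2 * T.Dv u ε := T.lintegral_Sf hm ε t
        have i4 : ∫⁻ p, S2 p ≤ 2 * T.Dv u ε := by
          have := (mp_shift ((π : ℝ) : Dir)).lintegral_comp (T.measurable_Sf hm' ε t)
          rw [← T.Dv_rev hm ε]
          refine le_trans (le_of_eq this) (T.lintegral_Sf hm' ε t)
        calc (∫⁻ p, A1 p) + (∫⁻ p, A2 p) + (∫⁻ p, S1 p) + (∫⁻ p, S2 p)
            ≤ T.Dv u ε + T.Dv u ε + 2 * T.Dv u ε + 2 * T.Dv u ε := by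
              rw [i1, i2]
              gcongr
          _ = 6 * T.Dv u ε := by ring

end Tab

end Pool.Agent.Helper90.BE
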