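import Mathlib
import Pool.Agent.Helper90.BE.Ineq2

/-!
If the angular differences are `o(ε log(1/ε))` along a sequence then the transversal differences
vanish.
-/

set_option linter.dupNamespace false
set_option linter.deprecated false

open MeasureTheory Complex
open scoped Real ENNReal ComplexConjugate

noncomputable section

namespace Pool.Agent.Helper90.BE

lemma measurable_tr {u : ℂ → Dir → ℝ} (hm : Measurable (fun p : Dir × ℂ => u p.2 p.1)) (h : ℝ) :
    Measurable (fun p : Dir × ℂ => ‖u (p.2 + h • (I * dir p.1)) p.1 - u p.2 p.1‖ₑ) :=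
  ((hm.comp (mp_trans h).measurable).sub hm).enorm

lemma measurable_ballset (z0 : ℂ) (r : ℝ) :
    MeasurableSet {p : Dir × ℂ | p.2 ∈ Metric.ball z0 r} :=
  measurable_snd Metric.isOpen_ball.measurableSet

/-- Many small steps. -/
lemma chain {u : ℂ → Dir → ℝ} (hm : Measurable (fun p : Dir × ℂ => u p.2 p.1)) {z0 : ℂ} {r H : ℝ}
    (hH0 : 0 < H) (hHr : H < r) {N : ℕ} (hN : 0 < N) :
    ∫⁻ p in {p : Dir × ℂ | p.2 ∈ Metric.ball z0 r},
        ‖u (p.2 + H • (I * dir p.1)) p.1 - u p.2 p.1‖ₑ ≤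
      N * ∫⁻ p in {p : Dir × ℂ | p.2 ∈ Metric.ball z0 (2 * r)},
        ‖u (p.2 + (H / N) • (I * dir p.1)) p.1 - u p.2 p.1‖ₑ := by
  have hN0 : (0 : ℝ) < N := by exact_mod_cast hN
  set h : ℝ := H / N with hh
  have hNh : (N : ℝ) * h = H := by rw [hh]; field_simp
  have hh0 : 0 < h := by rw [hh]; positivity
  set G : Dir × ℂ → ℝ≥0∞ := {p : Dir × ℂ | p.2 ∈ Metric.ball z0 (2 * r)}.indicator
    (fun p => ‖u (p.2 + h • (I * dir p.1)) p.1 - u p.2 p.1‖ₑ) with hG
  have hGm : Measurable G := (measurable_tr hm h).indicator (measurable_ballset _ _)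
  have hpt : ∀ p : Dir × ℂ, p.2 ∈ Metric.ball z0 r →
      ‖u (p.2 + H • (I * dir p.1)) p.1 - u p.2 p.1‖ₑ ≤
        ∑ k ∈ Finset.range N, G (p.1, p.2 + ((k : ℝ) * h) • (I * dir p.1)) := by
    intro p hp
    have h1 := Finset.sum_range_sub (fun k : ℕ => u (p.2 + ((k : ℝ) * h) • (I * dir p.1)) p.1) N
    simp only [Nat.cast_zero, zero_mul, zero_smul, add_zero, hNh] at h1
    rw [← h1]
    refine (enorm_sum_le _ _).trans (Finset.sum_le_sum fun k hk => ?_)
    have hk' : (k : ℝ) + 1 ≤ N := by exact_mod_cast Finset.mem_range.1 hk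
    have hkh : (k : ℝ) * h < r := by
      have : (k : ℝ) * h ≤ N * h := mul_le_mul_of_nonneg_right (by linarith) hh0.le
      linarith
    have hmem : p.2 + ((k : ℝ) * h) • (I * dir p.1) ∈ Metric.ball z0 (2 * r) := by
      rw [Metric.mem_ball, dist_eq_norm] at hp ⊢
      have e : p.2 + ((k : ℝ) * h) • (I * dir p.1) - z0 =
          (p.2 - z0) + ((k : ℝ) * h) • (I * dir p.1) := by ring
      rw [e]
      refine lt_of_le_of_lt (norm_add_le _ _) ?_
      rw [Tab.norm_smul_I, abs_of_nonneg (by positivity)]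
      linarith
    have e2 : p.2 + ((k : ℝ) * h) • (I * dir p.1) + h • (I * dir p.1) =
        p.2 + (((k + 1 : ℕ) : ℝ) * h) • (I * dir p.1) := by
      rw [add_assoc, ← add_smul]
      congr 2
      push_cast
      ring
    simp only [hG]
    rw [Set.indicator_of_mem (by exact hmem)]
    simp only
    rw [e2]
  have hterm : ∀ k : ℕ, ∫⁻ p : Dir × ℂ, G (p.1, p.2 + ((k : ℝ) * h) • (I * dir p.1)) =
      ∫⁻ p in {p : Dir × ℂ | p.2 ∈ Metric.ball z0 (2 * r)},
        ‖u (p.2 + h • (I * dir p.1)) p.1 - u p.2 p.1‖ₑ := by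
    intro k
    rw [(mp_trans ((k : ℝ) * h)).lintegral_comp hGm, hG, lintegral_indicator
      (measurable_ballset _ _)]
  calc ∫⁻ p in {p : Dir × ℂ | p.2 ∈ Metric.ball z0 r},
        ‖u (p.2 + H • (I * dir p.1)) p.1 - u p.2 p.1‖ₑ
      ≤ ∫⁻ p in {p : Dir × ℂ | p.2 ∈ Metric.ball z0 r},
          ∑ k ∈ Finset.range N, G (p.1, p.2 + ((k : ℝ) * h) • (I * dir p.1)) :=
        setLIntegral_mono' (measurable_ballset _ _) hpt
    _ ≤ ∫⁻ p : Dir × ℂ, ∑ k ∈ Finset.range N, G (p.1, p.2 + ((k : ℝ) * h) • (I * dir p.1)) :=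
        setLIntegral_le_lintegral _ _
    _ = ∑ k ∈ Finset.range N, ∫⁻ p : Dir × ℂ, G (p.1, p.2 + ((k : ℝ) * h) • (I * dir p.1)) :=
        lintegral_finset_sum _ fun k _ => hGm.comp (mp_trans _).measurable
    _ = _ := by
        simp only [hterm]
        rw [Finset.sum_const, Finset.card_range, nsmul_eq_mul]

lemma tan_bounds {ε : ℝ} (h0 : 0 < ε) (h1 : ε ≤ 1 / 2) :
    ε ≤ Real.tan ε ∧ Real.tan ε ≤ 2 * ε := by
  have hpi := Real.pi_gt_three
  refine ⟨(Real.lt_tan h0 (by linarith)).le, ?_⟩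
  have hc := Real.one_sub_sq_div_two_le_cos (x := ε)
  have hc2 : 1 / 2 ≤ Real.cos ε := by nlinarith
  have hs := (Real.sin_lt h0).le
  rw [Real.tan_eq_sin_div_cos, div_le_iff₀ (by linarith)]
  nlinarith

variable {ι : Type} (T : Tab ι)

namespace Tab

/-- The quantitative bound. -/
theorem step_bound [Finite ι] : ∃ α K : ℝ, 0 < α ∧ 0 ≤ K ∧ ∀ (u : ℂ → Dir → ℝ), T.Inv u →
    Measurable (fun p : Dir × ℂ => u p.2 p.1) → (∀ x θ, |u x θ| ≤ 1) →
    ∀ (z0 : ℂ) (r H η ε : ℝ), 0 < r → Metric.ball z0 (3 * r) ⊆ T.Om → 0 < H → H < r → 0 ≤ η →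
    0 < ε → ε ≤ 1 / 2 → 2 * (-Real.log ε / (2 * α)) * ε ≤ H →
    2 * (-Real.log ε / (2 * α)) * ε ≤ r / 4 → r ≤ -Real.log ε / (2 * α) →
    T.Dv u ε ≤ ENNReal.ofReal (η * (ε * -Real.log ε)) →
    ∫⁻ p in {p : Dir × ℂ | p.2 ∈ Metric.ball z0 r},
        ‖u (p.2 + H • (I * dir p.1)) p.1 - u p.2 p.1‖ₑ ≤
      ENNReal.ofReal (24 * α * H * η + 64 * π * H * K / r *
        ((-Real.log ε / (2 * α)) ^ 2 * (ε * Real.exp (-Real.log ε / 2)))) := by
  obtain ⟨A0, B0, hA0, hB0, hmain⟩ := T.main_ineq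
  set a : ℝ := Real.log ((Nat.card ι : ℝ) + 1) with ha
  have ha0 : 0 ≤ a := Real.log_nonneg (by
    have : (0 : ℝ) ≤ Nat.card ι := Nat.cast_nonneg _
    linarith)
  set α : ℝ := 2 * A0 * a + 1 with hα
  have hα0 : 0 < α := by positivity
  set K : ℝ := (T.V.ncard : ℝ) ^ 2 * Real.exp (2 * a * (B0 + 1)) with hK
  have hK0 : 0 ≤ K := by positivity
  refine ⟨α, K, hα0, hK0, ?_⟩
  intro u hu hm hb z0 r H η ε hr hball hH0 hHr hη hε0 hε1 hc1 hc2 hc3 hD
  have hpi := Real.pi_gt_three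
  set Lg : ℝ := -Real.log ε with hLg
  have hLg0 : 0 < Lg := by
    rw [hLg, neg_pos]
    exact Real.log_neg hε0 (by linarith)
  set T0 : ℝ := Lg / (2 * α) with hT0
  have hT00 : 0 < T0 := by positivity
  have hLT : Lg = 2 * α * T0 := by rw [hT0]; field_simp
  obtain ⟨ht1, ht2⟩ := tan_bounds hε0 hε1
  set τ : ℝ := Real.tan ε with hτ
  have hτ0 : 0 < τ := lt_of_lt_of_le hε0 ht1
  have hTτ : T0 * τ ≤ 2 * T0 * ε := by
    calc T0 * τ ≤ T0 * (2 * ε) := mul_le_mul_of_nonneg_left ht2 hT00.le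
      _ = _ := by ring
  have hTτ0 : 0 < T0 * τ := by positivity
  set x : ℝ := H / (T0 * τ) with hx
  have hx1 : 1 ≤ x := by
    rw [hx, one_le_div hTτ0]
    linarith
  have hxe : x * (T0 * τ) = H := by rw [hx]; field_simp
  set N : ℕ := ⌈x⌉₊ with hN
  have hN1 : x ≤ N := Nat.le_ceil _
  have hN2 : (N : ℝ) ≤ 2 * x := by
    have := (Nat.ceil_lt_add_one (by linarith : (0 : ℝ) ≤ x)).le
    linarith
  have hN0 : (0 : ℝ) < N := by linarith
  have hNpos : 0 < N := by exact_mod_cast hN0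
  set h : ℝ := H / N with hh
  have hNh : (N : ℝ) * h = H := by rw [hh]; field_simp
  have hh0 : 0 < h := by positivity
  have hh1 : h ≤ T0 * τ := by
    rw [hh, div_le_iff₀ hN0, ← hxe, mul_comm]
    exact mul_le_mul_of_nonneg_left hN1 hTτ0.le
  have hh2 : T0 * τ / 2 ≤ h := by
    rw [hh, le_div_iff₀ hN0, ← hxe]
    nlinarith
  have hsin : 0 < Real.sin ε := Real.sin_pos_of_pos_of_lt_pi hε0 (by linarith)
  have hcos : 0 < Real.cos ε := Real.cos_pos_of_mem_Ioo ⟨by linarith, by linarith⟩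
  have hτe : τ = Real.sin ε / Real.cos ε := Real.tan_eq_sin_div_cos ε
  set l : ℝ := h / Real.sin ε with hl
  have hl0 : 0 < l := by positivity
  have hls : l * Real.sin ε = h := by rw [hl]; field_simp
  set t : ℝ := h / τ with ht
  have hlc : l * Real.cos ε = t := by
    rw [hl, ht, hτe]
    field_simp
  have htT : t ≤ T0 := by
    rw [ht, div_le_iff₀ hτ0]
    exact hh1
  have htT2 : T0 / 2 ≤ t := by
    rw [ht, le_div_iff₀ hτ0]
    linarith
  set M : ℕ := ⌈A0 * T0 + B0⌉₊ with hM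
  have hM1 : A0 * t + B0 ≤ M := by
    have h1 : A0 * t ≤ A0 * T0 := mul_le_mul_of_nonneg_left htT hA0
    have h2 := Nat.le_ceil (A0 * T0 + B0)
    linarith
  have hM2 : (M : ℝ) ≤ A0 * T0 + B0 + 1 := (Nat.ceil_lt_add_one (by positivity)).le
  have hballs : ∀ p ∈ {p : Dir × ℂ | p.2 ∈ Metric.ball z0 (2 * r)}, Metric.ball p.2 r ⊆ T.Om := by
    intro p hp y hy
    apply hball
    have hp' : p.2 ∈ Metric.ball z0 (2 * r) := hp
    rw [Metric.mem_ball] at hp' hy ⊢
    have := dist_triangle y p.2 z0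
    linarith
  have hmi := hmain u hu hm hb l ε h t r hl0 hε0 (by linarith) hr hls hlc (by linarith)
    (by linarith) M hM1 {p : Dir × ℂ | p.2 ∈ Metric.ball z0 (2 * r)} (measurable_ballset _ _) hballs
  -- the number of developed vertices
  have hcard : ((T.Pv M).ncard : ℝ) ^ 2 ≤ K * Real.exp (Lg / 2) := by
    have h1 : ((T.Pv M).ncard : ℝ) ≤ Real.exp (a * M) * T.V.ncard := by
      have h2 := T.ncard_Pv M
      have h3 : ((T.Pv M).ncard : ℝ) ≤ ((Nat.card ι : ℝ) + 1) ^ M * T.V.ncard := by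
        exact_mod_cast h2
      have h4 : Real.exp (a * M) = ((Nat.card ι : ℝ) + 1) ^ M := by
        rw [mul_comm, Real.exp_nat_mul, ha, Real.exp_log (by positivity)]
      rw [h4]
      exact h3
    calc ((T.Pv M).ncard : ℝ) ^ 2 ≤ (Real.exp (a * M) * T.V.ncard) ^ 2 :=
          pow_le_pow_left₀ (Nat.cast_nonneg _) h1 2
      _ = (T.V.ncard : ℝ) ^ 2 * Real.exp (2 * a * M) := by
          rw [mul_pow, ← Real.exp_nat_mul, mul_comm]
          congr 2
          push_cast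
          ring
      _ ≤ (T.V.ncard : ℝ) ^ 2 * (Real.exp (2 * a * (B0 + 1)) * Real.exp (Lg / 2)) := by
          rw [← Real.exp_add]
          gcongr
          have h5 : 2 * a * M ≤ 2 * a * (A0 * T0 + B0 + 1) :=
            mul_le_mul_of_nonneg_left hM2 (by positivity)
          have h6 : Lg / 2 = 2 * A0 * a * T0 + T0 := by
            rw [hLT, hα]; ring
          rw [h6]
          linarith
      _ = K * Real.exp (Lg / 2) := by rw [hK]; ring
  have hBD := volume_BD (T.Pv_finite M) (δ := r) (R := h + t) (h := h) hr (by positivity) hh0.le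
  set nc : ℝ := ((T.Pv M).ncard : ℝ) ^ 2 with hnc
  have hnc0 : 0 ≤ nc := by positivity
  have hchain := chain hm (z0 := z0) hH0 hHr hNpos
  rw [← hh] at hchain
  refine hchain.trans ?_
  have hD' : 6 * T.Dv u ε ≤ ENNReal.ofReal (6 * (η * (ε * Lg))) := by
    rw [ENNReal.ofReal_mul (by norm_num)]
    gcongr
    simp
  have hB' : 2 * volume (BD (T.Pv M) r (h + t) h) ≤
      ENNReal.ofReal (2 * (nc * (8 * π * (h + t) * h ^ 2 / r))) := by
    rw [ENNReal.ofReal_mul (by norm_num)]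
    gcongr
    simp
  have hp1 : 0 ≤ 6 * (η * (ε * Lg)) := by positivity
  have hp2 : 0 ≤ 2 * (nc * (8 * π * (h + t) * h ^ 2 / r)) := by positivity
  calc (N : ℝ≥0∞) * ∫⁻ p in {p : Dir × ℂ | p.2 ∈ Metric.ball z0 (2 * r)},
        ‖u (p.2 + h • (I * dir p.1)) p.1 - u p.2 p.1‖ₑ
      ≤ N * (ENNReal.ofReal (6 * (η * (ε * Lg))) +
          ENNReal.ofReal (2 * (nc * (8 * π * (h + t) * h ^ 2 / r)))) := by
        gcongr
        exact hmi.trans (add_le_add hD' hB')
    _ = ENNReal.ofReal (N * (6 * (η * (ε * Lg)) + 2 * (nc * (8 * π * (h + t) * h ^ 2 / r)))) := by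
        rw [← ENNReal.ofReal_add hp1 hp2, ← ENNReal.ofReal_natCast,
          ← ENNReal.ofReal_mul (Nat.cast_nonneg N)]
    _ ≤ _ := by
        apply ENNReal.ofReal_le_ofReal
        have i1 : (N : ℝ) * (6 * (η * (ε * Lg))) ≤ 24 * α * H * η := by
          calc (N : ℝ) * (6 * (η * (ε * Lg))) ≤ (2 * x) * (6 * (η * (ε * Lg))) :=
                mul_le_mul_of_nonneg_right hN2 hp1
            _ = 12 * η * (ε * (2 * α)) * (x * T0) := by rw [hLT]; ring
            _ ≤ 12 * η * (τ * (2 * α)) * (x * T0) := by gcongr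
            _ = 24 * α * (x * (T0 * τ)) * η := by ring
            _ = 24 * α * H * η := by rw [hxe]
        have i2 : (N : ℝ) * (2 * (nc * (8 * π * (h + t) * h ^ 2 / r))) ≤
            64 * π * H * K / r * (T0 ^ 2 * (ε * Real.exp (Lg / 2))) := by
          have j1 : h + t ≤ 2 * T0 := by
            have : T0 * τ ≤ T0 * 1 := mul_le_mul_of_nonneg_left (by linarith) hT00.le
            linarith
          have j2 : h ≤ 2 * T0 * ε := hh1.trans hTτ
          calc (N : ℝ) * (2 * (nc * (8 * π * (h + t) * h ^ 2 / r)))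
              = 16 * π / r * (N * h) * nc * ((h + t) * h) := by ring
            _ = 16 * π / r * H * nc * ((h + t) * h) := by rw [hNh]
            _ ≤ 16 * π / r * H * (K * Real.exp (Lg / 2)) * ((2 * T0) * (2 * T0 * ε)) := by
                gcongr
            _ = _ := by ring
        calc (N : ℝ) * (6 * (η * (ε * Lg)) + 2 * (nc * (8 * π * (h + t) * h ^ 2 / r)))
            = (N : ℝ) * (6 * (η * (ε * Lg))) +
              (N : ℝ) * (2 * (nc * (8 * π * (h + t) * h ^ 2 / r))) := by ring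
          _ ≤ _ := add_le_add i1 i2

/-- The transversal differences vanish. -/
theorem trans_null [Finite ι] {u : ℂ → Dir → ℝ} (hu : T.Inv u)
    (hm : Measurable (fun p : Dir × ℂ => u p.2 p.1)) (hb : ∀ x θ, |u x θ| ≤ 1)
    (hD : ∀ η : ℝ, 0 < η → ∃ᶠ ε in nhdsWithin (0 : ℝ) (Set.Ioi 0),
      T.Dv u ε ≤ ENNReal.ofReal (η * (ε * -Real.log ε)))
    {z0 : ℂ} {r H : ℝ} (hr : 0 < r) (hball : Metric.ball z0 (3 * r) ⊆ T.Om) (hH0 : 0 < H)
    (hHr : H < r) :
    ∫⁻ p in {p : Dir × ℂ | p.2 ∈ Metric.ball z0 r},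
        ‖u (p.2 + H • (I * dir p.1)) p.1 - u p.2 p.1‖ₑ = 0 := by
  obtain ⟨α, K, hα, hK, hstep⟩ := T.step_bound
  have hpi := Real.pi_pos
  -- limits
  have l1 : Filter.Tendsto (fun ε : ℝ => -Real.log ε / (2 * α)) (nhdsWithin 0 (Set.Ioi 0))
      Filter.atTop := by
    apply Filter.Tendsto.atTop_div_const (by positivity)
    exact Filter.tendsto_neg_atBot_atTop.comp Real.tendsto_log_nhdsGT_zero
  have l2 : Filter.Tendsto (fun ε : ℝ => 2 * (-Real.log ε / (2 * α)) * ε)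
      (nhdsWithin 0 (Set.Ioi 0)) (nhds 0) := by
    have h1 := (tendsto_log_mul_rpow_nhdsGT_zero (r := 1) one_pos).const_mul (-(1 / α))
    rw [mul_zero] at h1
    refine h1.congr fun ε => ?_
    rw [Real.rpow_one]
    field_simp
  have l3 : Filter.Tendsto (fun ε : ℝ => 64 * π * H * K / r *
      ((-Real.log ε / (2 * α)) ^ 2 * (ε * Real.exp (-Real.log ε / 2))))
      (nhdsWithin 0 (Set.Ioi 0)) (nhds 0) := by
    have h1 := ((tendsto_log_mul_rpow_nhdsGT_zero (r := 1 / 4) (by norm_num)).pow 2).const_mul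
      (64 * π * H * K / r * (1 / (2 * α)) ^ 2)
    rw [zero_pow two_ne_zero, mul_zero] at h1
    refine h1.congr' ?_
    filter_upwards [self_mem_nhdsWithin] with ε hε
    have hε0 : (0 : ℝ) < ε := hε
    have e1 : ε * Real.exp (-Real.log ε / 2) = (ε ^ (1 / 4 : ℝ)) ^ 2 := by
      have e2 : Real.exp (-Real.log ε / 2) = ε ^ (-(1 / 2) : ℝ) := by
        rw [Real.rpow_def_of_pos hε0]
        congr 1
        ring
      rw [e2, ← Real.rpow_natCast, ← Real.rpow_mul hε0.le]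
      conv_lhs => rw [← Real.rpow_one ε, ← Real.rpow_mul hε0.le, ← Real.rpow_add hε0]
      norm_num
    rw [e1]
    ring
  -- the integral is smaller than every positive number
  refine le_antisymm ?_ zero_le
  refine ENNReal.le_of_forall_pos_le_add fun κ hκ _ => ?_
  rw [zero_add]
  have hκ' : (0 : ℝ) < κ := by exact_mod_cast hκ
  set η : ℝ := (κ / 2) / (24 * α * H) with hη
  have hη0 : 0 < η := by positivity
  have ev : ∀ᶠ ε in nhdsWithin (0 : ℝ) (Set.Ioi 0), 0 < ε ∧ ε ≤ 1 / 2 ∧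
      2 * (-Real.log ε / (2 * α)) * ε ≤ H ∧ 2 * (-Real.log ε / (2 * α)) * ε ≤ r / 4 ∧
      r ≤ -Real.log ε / (2 * α) ∧ 64 * π * H * K / r *
      ((-Real.log ε / (2 * α)) ^ 2 * (ε * Real.exp (-Real.log ε / 2))) ≤ κ / 2 := by
    have e0 : ∀ᶠ ε in nhdsWithin (0 : ℝ) (Set.Ioi 0), 0 < ε := self_mem_nhdsWithin
    have e1 : ∀ᶠ ε in nhdsWithin (0 : ℝ) (Set.Ioi 0), ε ≤ 1 / 2 := by
      have : ∀ᶠ ε in nhds (0 : ℝ), ε < 1 / 2 := gt_mem_nhds (by norm_num)
      filter_upwards [nhdsWithin_le_nhds this] with ε hε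
      exact hε.le
    have e2 := l2.eventually (gt_mem_nhds hH0)
    have e3 := l2.eventually (gt_mem_nhds (show (0 : ℝ) < r / 4 by positivity))
    have e4 := l1.eventually_ge_atTop r
    have e5 := l3.eventually (gt_mem_nhds (show (0 : ℝ) < (κ : ℝ) / 2 by positivity))
    filter_upwards [e0, e1, e2, e3, e4, e5] with ε a0 a1 a2 a3 a4 a5
    exact ⟨a0, a1, a2.le, a3.le, a4, a5.le⟩
  obtain ⟨ε, hε, a0, a1, a2, a3, a4, a5⟩ := ((hD η hη0).and_eventually ev).exists
  refine (hstep u hu hm hb z0 r H η ε hr hball hH0 hHr hη0.le a0 a1 a2 a3 a4 hε).trans ?_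
  have hfin : 24 * α * H * η + 64 * π * H * K / r *
      ((-Real.log ε / (2 * α)) ^ 2 * (ε * Real.exp (-Real.log ε / 2))) ≤ κ := by
    have : 24 * α * H * η = κ / 2 := by
      rw [hη]; field_simp
    linarith
  refine (ENNReal.ofReal_le_ofReal hfin).trans ?_
  rw [ENNReal.ofReal_coe_nnreal]

end Tab

end Pool.Agent.Helper90.BE
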