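import Mathlib
import Pool.Agent.Helper90.BE.NStep

/-!
An invariant function whose transversal differences vanish depends on the direction only.
-/

set_option linter.dupNamespace false
set_option linter.deprecated false

open MeasureTheory Complex
open scoped Real ENNReal ComplexConjugate

noncomputable section

namespace Pool.Agent.Helper90.BE

lemma ip_I_eq_im (w : ℂ) (θ : Dir) : ip w (I * dir θ) = (conj (dir θ) * w).im := by
  rw [ip, map_mul, conj_I]
  have e : w * (-I * conj (dir θ)) = -(I * (conj (dir θ) * w)) := by ring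
  rw [e, neg_re, I_mul_re, neg_neg]

lemma ip_dir_eq_re (w : ℂ) (θ : Dir) : ip w (dir θ) = (conj (dir θ) * w).re := by
  rw [ip, mul_comm]

lemma decomp (w : ℂ) (θ : Dir) :
    w = ip w (dir θ) • dir θ + ip w (I * dir θ) • (I * dir θ) := by
  have h2 : dir θ * conj (dir θ) = 1 := by
    rw [mul_conj, normSq_eq_norm_sq, norm_dir]
    norm_num
  rw [ip_I_eq_im, ip_dir_eq_re, real_smul, real_smul]
  set v := conj (dir θ) * w with hv
  have h3 : w = dir θ * v := by
    rw [hv, ← mul_assoc, h2, one_mul]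
  have h4 : v = (v.re : ℂ) + v.im * I := (re_add_im v).symm
  calc w = dir θ * v := h3
    _ = dir θ * ((v.re : ℂ) + v.im * I) := by rw [← h4]
    _ = _ := by ring

lemma qmp_ip (x : ℂ) (θ : Dir) :
    Measure.QuasiMeasurePreserving (fun y : ℂ => ip (y - x) (I * dir θ)) volume volume := by
  have hu : ‖conj (dir θ)‖ = 1 := by rw [norm_conj, norm_dir]
  have h1 : MeasurePreserving (fun y : ℂ => conj (dir θ) * (y - x)) volume volume := by
    have h2 : MeasurePreserving (rotation (⟨conj (dir θ), by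
      rw [Submonoid.unitSphere]; exact mem_sphere_zero_iff_norm.2 hu⟩ : Circle))
        volume volume := (rotation _).measurePreserving
    have := h2.comp (measurePreserving_sub_right (volume : Measure ℂ) x)
    exact this
  have h3 := Complex.volume_preserving_equiv_real_prod.comp h1
  have h4 : Measure.QuasiMeasurePreserving (Prod.snd : ℝ × ℝ → ℝ) volume volume :=
    Measure.quasiMeasurePreserving_snd
  have h5 := h4.comp h3.quasiMeasurePreserving
  have e : (fun y : ℂ => ip (y - x) (I * dir θ)) =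
      Prod.snd ∘ (measurableEquivRealProd ∘ fun y : ℂ => conj (dir θ) * (y - x)) := by
    funext y
    simp only [Function.comp, measurableEquivRealProd_apply]
    exact ip_I_eq_im _ _
  rw [e]
  exact h5

variable {ι : Type} (T : Tab ι)

namespace Tab

variable {T}

/-- Invariance along a chord of a convex set. -/
lemma Inv.free_convex {u : ℂ → Dir → ℝ} (hu : T.Inv u) {D : Set ℂ} (hD : Convex ℝ D)
    (hDO : D ⊆ T.Om) {x : ℂ} {θ : Dir} {t : ℝ} (hx : x ∈ D) (hy : x + t • dir θ ∈ D) :
    u (x + t • dir θ) θ = u x θ := by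
  have key : ∀ (x : ℂ) (t : ℝ), 0 ≤ t → x ∈ D → x + t • dir θ ∈ D →
      u (x + t • dir θ) θ = u x θ := by
    intro x t ht hx hy
    refine hu.free x θ t ht fun s hs hst => hDO ?_
    rcases ht.eq_or_lt with h | h
    · have : s = 0 := by linarith
      rw [this, zero_smul, add_zero]
      exact hx
    · have h1 := hD hx hy (a := 1 - s / t) (b := s / t)
        (by rw [sub_nonneg, div_le_one h]; exact hst) (by positivity) (by ring)
      have e : (1 - s / t) • x + (s / t) • (x + t • dir θ) = x + s • dir θ := by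
        rw [smul_add, smul_smul, div_mul_cancel₀ _ h.ne', ← add_assoc, ← add_smul,
          sub_add_cancel, one_smul]
      rwa [e] at h1
  rcases le_total 0 t with ht | ht
  · exact key x t ht hx hy
  · have h1 := key (x + t • dir θ) (-t) (by linarith) hy (by
      rw [neg_smul, add_neg_cancel_right]; exact hx)
    rw [neg_smul, add_neg_cancel_right] at h1
    exact h1.symm

variable (T)

/-- Local constancy in the position. -/
theorem loc_const [Finite ι] {u : ℂ → Dir → ℝ} (hu : T.Inv u)
    (hm : Measurable (fun p : Dir × ℂ => u p.2 p.1)) (hb : ∀ x θ, |u x θ| ≤ 1)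
    (hD : ∀ η : ℝ, 0 < η → ∃ᶠ ε in nhdsWithin (0 : ℝ) (Set.Ioi 0),
      T.Dv u ε ≤ ENNReal.ofReal (η * (ε * -Real.log ε)))
    {z0 : ℂ} {r : ℝ} (hr : 0 < r) (hball : Metric.ball z0 (3 * r) ⊆ T.Om) :
    ∀ᵐ θ : Dir, ∃ c : ℝ, ∀ᵐ y : ℂ, y ∈ Metric.ball z0 (r / 2) → u y θ = c := by
  have hmeas3 : Measurable (fun q : ℝ × (Dir × ℂ) =>
      u (q.2.2 + q.1 • (I * dir q.2.1)) q.2.1) := by
    have h1 : Measurable (fun q : ℝ × (Dir × ℂ) => (q.2.1, q.2.2 + q.1 • (I * dir q.2.1))) := by
      have hd : Measurable (fun q : ℝ × (Dir × ℂ) => dir q.2.1) :=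
        measurable_dir.comp (measurable_fst.comp measurable_snd)
      exact (measurable_fst.comp measurable_snd).prodMk ((measurable_snd.comp measurable_snd).add
        (measurable_fst.smul (hd.const_mul I)))
    exact hm.comp h1
  -- step 1
  have s1 : ∀ᵐ H : ℝ, ∀ᵐ p : Dir × ℂ, H ∈ Set.Ioo 0 r → p.2 ∈ Metric.ball z0 r →
      u (p.2 + H • (I * dir p.1)) p.1 = u p.2 p.1 := by
    refine Filter.Eventually.of_forall fun H => ?_
    by_cases hH : H ∈ Set.Ioo 0 r
    · have h1 := T.trans_null hu hm hb hD hr hball hH.1 hH.2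
      rw [lintegral_eq_zero_iff (measurable_tr hm H)] at h1
      have h2 := (ae_restrict_iff' (measurable_ballset z0 r)).1 h1
      filter_upwards [h2] with p hp _ hpB
      have h3 := hp hpB
      simp only [Pi.zero_apply, enorm_eq_zero] at h3
      exact sub_eq_zero.1 h3
    · exact Filter.Eventually.of_forall fun p h => absurd h hH
  -- step 2
  have s2 : ∀ᵐ p : Dir × ℂ, ∀ᵐ H : ℝ, H ∈ Set.Ioo 0 r → p.2 ∈ Metric.ball z0 r →
      u (p.2 + H • (I * dir p.1)) p.1 = u p.2 p.1 := by
    refine (Measure.ae_ae_comm ?_).1 s1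
    have e : {q : ℝ × (Dir × ℂ) | q.1 ∈ Set.Ioo 0 r → q.2.2 ∈ Metric.ball z0 r →
        u (q.2.2 + q.1 • (I * dir q.2.1)) q.2.1 = u q.2.2 q.2.1} =
        {q : ℝ × (Dir × ℂ) | q.1 ∈ Set.Ioo 0 r}ᶜ ∪ ({q | q.2.2 ∈ Metric.ball z0 r}ᶜ ∪
          {q | u (q.2.2 + q.1 • (I * dir q.2.1)) q.2.1 = u q.2.2 q.2.1}) := by
      ext q
      simp only [Set.mem_setOf_eq, Set.mem_union, Set.mem_compl_iff]
      tauto
    rw [e]
    refine ((measurable_fst measurableSet_Ioo).compl).union
      (((measurable_snd.comp measurable_snd) Metric.isOpen_ball.measurableSet).compl.union ?_)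
    exact measurableSet_eq_fun hmeas3 (hm.comp measurable_snd)
  -- step 3
  have s3 : ∀ᵐ p : Dir × ℂ, ∀ᵐ y : ℂ, p.2 ∈ Metric.ball z0 (r / 2) →
      y ∈ Metric.ball z0 (r / 2) → 0 < ip (y - p.2) (I * dir p.1) → u y p.1 = u p.2 p.1 := by
    filter_upwards [s2] with p hp
    have h1 := (qmp_ip p.2 p.1).ae hp
    filter_upwards [h1] with y hy hpB hyB hpos
    have hb1 : ‖p.2 - z0‖ < r / 2 := by rwa [Metric.mem_ball, dist_eq_norm] at hpB
    have hb2 : ‖y - z0‖ < r / 2 := by rwa [Metric.mem_ball, dist_eq_norm] at hyB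
    have hyx : ‖y - p.2‖ < r := by
      have e : y - p.2 = (y - z0) - (p.2 - z0) := by ring
      rw [e]
      refine lt_of_le_of_lt (norm_sub_le _ _) ?_
      linarith
    set H := ip (y - p.2) (I * dir p.1) with hH
    have hHr : H < r := by
      have h2 := abs_ip_le (y - p.2) (I * dir p.1)
      rw [norm_mul, norm_I, norm_dir, one_mul, mul_one] at h2
      exact lt_of_le_of_lt ((le_abs_self _).trans h2) hyx
    have h3 := hy ⟨hpos, hHr⟩ (by
      rw [Metric.mem_ball, dist_eq_norm]
      linarith)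
    have h4 : y = (p.2 + H • (I * dir p.1)) + ip (y - p.2) (dir p.1) • dir p.1 := by
      have := decomp (y - p.2) p.1
      rw [← hH] at this
      have e : y = p.2 + (y - p.2) := by ring
      rw [e]
      conv_lhs => rw [this]
      rw [e] at this ⊢
      simp only [add_sub_cancel_left] at this ⊢
      ring
    have h5 : u y p.1 = u (p.2 + H • (I * dir p.1)) p.1 := by
      conv_lhs => rw [h4]
      refine hu.free_convex (convex_ball z0 (3 * r)) hball ?_ ?_
      · rw [Metric.mem_ball, dist_eq_norm]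
        have e : p.2 + H • (I * dir p.1) - z0 = (p.2 - z0) + H • (I * dir p.1) := by ring
        rw [e]
        refine lt_of_le_of_lt (norm_add_le _ _) ?_
        rw [Tab.norm_smul_I, abs_of_pos hpos]
        linarith
      · rw [← h4, Metric.mem_ball, dist_eq_norm]
        linarith
    rw [h5, h3]
  -- step 4
  have s4 := Measure.ae_ae_of_ae_prod (μ := (volume : Measure Dir)) (ν := (volume : Measure ℂ)) s3
  filter_upwards [s4] with θ hθ
  have hmθ : Measurable (fun y : ℂ => u y θ) := hm.comp (measurable_const.prodMk measurable_id)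
  have hcip : Continuous (fun q : ℂ × ℂ => ip (q.2 - q.1) (I * dir θ)) := by
    unfold ip
    fun_prop
  have s5 : ∀ᵐ y : ℂ, ∀ᵐ x : ℂ, x ∈ Metric.ball z0 (r / 2) →
      y ∈ Metric.ball z0 (r / 2) → 0 < ip (y - x) (I * dir θ) → u y θ = u x θ := by
    refine (Measure.ae_ae_comm ?_).1 hθ
    have e : {q : ℂ × ℂ | q.1 ∈ Metric.ball z0 (r / 2) → q.2 ∈ Metric.ball z0 (r / 2) →
        0 < ip (q.2 - q.1) (I * dir θ) → u q.2 θ = u q.1 θ} =
        {q : ℂ × ℂ | q.1 ∈ Metric.ball z0 (r / 2)}ᶜ ∪ ({q | q.2 ∈ Metric.ball z0 (r / 2)}ᶜ ∪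
          ({q | 0 < ip (q.2 - q.1) (I * dir θ)}ᶜ ∪ {q | u q.2 θ = u q.1 θ})) := by
      ext q
      simp only [Set.mem_setOf_eq, Set.mem_union, Set.mem_compl_iff]
      tauto
    rw [e]
    refine (measurable_fst Metric.isOpen_ball.measurableSet).compl.union
      ((measurable_snd Metric.isOpen_ball.measurableSet).compl.union
        ((isOpen_lt continuous_const hcip).measurableSet.compl.union ?_))
    exact measurableSet_eq_fun (hmθ.comp measurable_snd) (hmθ.comp measurable_fst)
  have s6 : ∀ᵐ x : ℂ, ∀ᵐ y : ℂ, x ∈ Metric.ball z0 (r / 2) → y ∈ Metric.ball z0 (r / 2) →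
      u y θ = u x θ := by
    filter_upwards [hθ, s5] with x h1 h2
    have h3 : ∀ᵐ y : ℂ, ip (y - x) (I * dir θ) ≠ 0 := by
      have h4 : ∀ᵐ t : ℝ, t ≠ 0 := by
        rw [ae_iff]
        simp
      exact (qmp_ip x θ).ae h4
    filter_upwards [h1, h2, h3] with y a1 a2 a3 hx hy
    rcases lt_or_gt_of_ne a3 with h | h
    · refine (a2 hy hx ?_).symm
      have e : x - y = -(y - x) := by ring
      rw [e]
      have : ip (-(y - x)) (I * dir θ) = -ip (y - x) (I * dir θ) := by
        simp only [ip, neg_mul, neg_re]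
      rw [this]
      linarith
    · exact a1 hx hy h
  -- choose a point
  have hpos : volume (Metric.ball z0 (r / 2)) ≠ 0 :=
    (Metric.measure_ball_pos volume z0 (by positivity)).ne'
  obtain ⟨x, hx, hx2⟩ : ∃ x, x ∈ Metric.ball z0 (r / 2) ∧
      ∀ᵐ y : ℂ, x ∈ Metric.ball z0 (r / 2) → y ∈ Metric.ball z0 (r / 2) → u y θ = u x θ := by
    by_contra hcon
    apply hpos
    rw [measure_eq_zero_iff_ae_notMem]
    filter_upwards [s6] with x hx hxB
    exact hcon ⟨x, hxB, hx⟩
  exact ⟨u x θ, by filter_upwards [hx2] with y hy hyB; exact hy hx hyB⟩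

end Tab

end Pool.Agent.Helper90.BE
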