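import Mathlib
import Pool.Agent.Helper90.BE.Loc

/-!
From local constancy to global constancy, and the reflections.
-/

set_option linter.dupNamespace false
set_option linter.deprecated false

open MeasureTheory Complex
open scoped Real ENNReal ComplexConjugate

noncomputable section

namespace Pool.Agent.Helper90.BE

/-- the average over a ball -/
def avg (u : ℂ → Dir → ℝ) (z : ℂ) (ρ : ℝ) (θ : Dir) : ℝ :=
  (volume (Metric.ball z ρ)).toReal⁻¹ * ∫ y in Metric.ball z ρ, u y θ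

lemma measurable_avg {u : ℂ → Dir → ℝ} (hm : Measurable (fun p : Dir × ℂ => u p.2 p.1)) (z : ℂ)
    (ρ : ℝ) : Measurable (avg u z ρ) := by
  unfold avg
  refine Measurable.const_mul ?_ _
  have h := (hm.stronglyMeasurable).integral_prod_right' (ν := volume.restrict (Metric.ball z ρ))
  exact h.measurable

lemma avg_eq {u : ℂ → Dir → ℝ} {z : ℂ} {ρ : ℝ} (hρ : 0 < ρ) {θ : Dir} {c : ℝ}
    (h : ∀ᵐ y : ℂ, y ∈ Metric.ball z ρ → u y θ = c) : avg u z ρ θ = c := by
  have h0 : volume (Metric.ball z ρ) ≠ 0 := (Metric.measure_ball_pos volume z hρ).ne'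
  have h1 : volume (Metric.ball z ρ) ≠ ⊤ := measure_ball_lt_top.ne
  have h2 : (volume (Metric.ball z ρ)).toReal ≠ 0 := ENNReal.toReal_ne_zero.2 ⟨h0, h1⟩
  have h3 : ∫ y in Metric.ball z ρ, u y θ = ∫ _ in Metric.ball z ρ, c := by
    refine setIntegral_congr_ae Metric.isOpen_ball.measurableSet ?_
    filter_upwards [h] with y hy hyB
    exact hy hyB
  rw [avg, h3, setIntegral_const, smul_eq_mul, measureReal_def]
  field_simp

variable {ι : Type} (T : Tab ι)

namespace Tab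

/-- The function depends on the direction only. -/
theorem dir_only [Finite ι] (hconn : IsPreconnected T.Om) {u : ℂ → Dir → ℝ} (hu : T.Inv u)
    (hm : Measurable (fun p : Dir × ℂ => u p.2 p.1)) (hb : ∀ x θ, |u x θ| ≤ 1)
    (hD : ∀ η : ℝ, 0 < η → ∃ᶠ ε in nhdsWithin (0 : ℝ) (Set.Ioi 0),
      T.Dv u ε ≤ ENNReal.ofReal (η * (ε * -Real.log ε))) :
    ∃ f : Dir → ℝ, Measurable f ∧ ∀ᵐ p : Dir × ℂ, p.2 ∈ T.Om → u p.2 p.1 = f p.1 := by
  rcases T.Om.eq_empty_or_nonempty with hem | ⟨z0, hz0⟩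
  · refine ⟨0, measurable_zero, Filter.Eventually.of_forall fun p hp => ?_⟩
    rw [hem] at hp
    exact absurd hp (Set.notMem_empty _)
  -- radii
  have hrad : ∀ z ∈ T.Om, ∃ r : ℝ, 0 < r ∧ Metric.ball z (3 * r) ⊆ T.Om := by
    intro z hz
    obtain ⟨ε, hε, h⟩ := Metric.isOpen_iff.1 T.isOpen z hz
    exact ⟨ε / 3, by positivity, by rw [mul_div_cancel₀ _ (by norm_num)]; exact h⟩
  obtain ⟨r0, hr0, hball0⟩ := hrad z0 hz0
  set f : Dir → ℝ := avg u z0 (r0 / 2) with hf
  have hfm : Measurable f := measurable_avg hm _ _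
  have hmS : ∀ (z : ℂ) (ρ : ℝ), MeasurableSet {p : Dir × ℂ | p.2 ∈ Metric.ball z ρ →
      u p.2 p.1 = f p.1} := by
    intro z ρ
    have e : {p : Dir × ℂ | p.2 ∈ Metric.ball z ρ → u p.2 p.1 = f p.1} =
        {p : Dir × ℂ | p.2 ∈ Metric.ball z ρ}ᶜ ∪ {p | u p.2 p.1 = f p.1} := by
      ext q
      simp only [Set.mem_setOf_eq, Set.mem_union, Set.mem_compl_iff]
      tauto
    rw [e]
    exact (measurable_ballset z ρ).compl.union
      (measurableSet_eq_fun hm (hfm.comp measurable_fst))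
  set G : Set ℂ := {z | ∃ ρ : ℝ, 0 < ρ ∧ ∀ᵐ p : Dir × ℂ, p.2 ∈ Metric.ball z ρ →
    u p.2 p.1 = f p.1} with hG
  have hGo : IsOpen G := by
    rw [Metric.isOpen_iff]
    rintro z ⟨ρ, hρ, h⟩
    refine ⟨ρ / 2, by positivity, fun z' hz' => ⟨ρ / 2, by positivity, ?_⟩⟩
    filter_upwards [h] with p hp hpB
    refine hp (Metric.ball_subset_ball' ?_ hpB)
    rw [Metric.mem_ball] at hz'
    linarith
  have hz0G : z0 ∈ G := by
    refine ⟨r0 / 2, by positivity, ?_⟩
    refine (Measure.ae_prod_iff_ae_ae (hmS _ _)).2 ?_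
    filter_upwards [T.loc_const hu hm hb hD hr0 hball0] with θ hθ
    obtain ⟨c, hc⟩ := hθ
    have h1 : f θ = c := avg_eq (by positivity) hc
    filter_upwards [hc] with y hy hyB
    rw [hy hyB]
    exact h1.symm
  have hGc : closure G ∩ T.Om ⊆ G := by
    rintro z ⟨hz, hzO⟩
    obtain ⟨r, hr, hball⟩ := hrad z hzO
    obtain ⟨z', ⟨ρ, hρ, h⟩, hd⟩ := Metric.mem_closure_iff.1 hz (r / 2) (by positivity)
    refine ⟨r / 2, by positivity, ?_⟩
    refine (Measure.ae_prod_iff_ae_ae (hmS _ _)).2 ?_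
    have h' := Measure.ae_ae_of_ae_prod (μ := (volume : Measure Dir)) (ν := (volume : Measure ℂ)) h
    filter_upwards [T.loc_const hu hm hb hD hr hball, h'] with θ hθ hθ'
    obtain ⟨c, hc⟩ := hθ
    have hcf : c = f θ := by
      by_contra hne
      have hB : volume (Metric.ball z (r / 2) ∩ Metric.ball z' ρ) = 0 := by
        rw [measure_eq_zero_iff_ae_notMem]
        filter_upwards [hc, hθ'] with y a b hy
        exact hne ((a hy.1).symm.trans (b hy.2))
      have hB' : (Metric.ball z (r / 2) ∩ Metric.ball z' ρ).Nonempty :=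
        ⟨z', by rw [Metric.mem_ball, dist_comm]; exact hd, Metric.mem_ball_self hρ⟩
      exact ((Metric.isOpen_ball.inter Metric.isOpen_ball).measure_pos volume hB').ne' hB
    filter_upwards [hc] with y hy hyB
    rw [hy hyB, hcf]
  have hsub : T.Om ⊆ G := hconn.subset_of_closure_inter_subset hGo ⟨z0, hz0, hz0G⟩ hGc
  refine ⟨f, hfm, ?_⟩
  rw [ae_iff]
  refine measure_null_of_locally_null _ fun p hp => ?_
  have hp' : p.2 ∈ T.Om := by
    by_contra hcon
    exact hp fun h => absurd h hcon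
  obtain ⟨ρ, hρ, h⟩ := hsub hp'
  refine ⟨{q | ¬(q.2 ∈ Metric.ball p.2 ρ → u q.2 q.1 = f q.1)} ∪ {q | q.2 ∉ Metric.ball p.2 ρ} ∩
    ∅, ?_, ?_⟩
  · have hn : {q : Dir × ℂ | q.2 ∈ Metric.ball p.2 ρ} ∈ nhds p :=
      (Metric.isOpen_ball.preimage continuous_snd).mem_nhds (Metric.mem_ball_self hρ)
    refine Filter.mem_of_superset (inter_mem_nhdsWithin _ hn) ?_
    rintro q ⟨hq1, hq2⟩
    left
    intro hcon
    exact hq1 fun _ => hcon hq2
  · rw [Set.inter_empty, Set.union_empty]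
    exact h

end Tab

end Pool.Agent.Helper90.BE
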