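import Mathlib
import Pool.Agent.Helper90.BE.Glob

/-!
Invariance of the direction function under the reflections, and the conclusion.
-/

set_option linter.dupNamespace false
set_option linter.deprecated false

open MeasureTheory Complex
open scoped Real ENNReal ComplexConjugate

noncomputable section

namespace Pool.Agent.Helper90.BE

variable {ι : Type} (T : Tab ι)

namespace Tab

lemma mid_sd (i : ι) : T.a i + (1 / 2 : ℝ) • (T.b i - T.a i) ∈ T.sd i := by
  have hside : T.a i + (1 / 2 : ℝ) • (T.b i - T.a i) ∈ T.side i := by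
    rw [side, segment_eq_image']
    exact ⟨1 / 2, ⟨by norm_num, by norm_num⟩, rfl⟩
  refine ⟨hside, ?_⟩
  have hna : T.a i + (1 / 2 : ℝ) • (T.b i - T.a i) ≠ T.a i := by
    intro h
    have h1 : (1 / 2 : ℝ) • (T.b i - T.a i) = 0 := by
      have := add_eq_left.1 h
      exact this
    rcases smul_eq_zero.1 h1 with h2 | h2
    · norm_num at h2
    · exact T.sub_ne i h2
  have hnb : T.a i + (1 / 2 : ℝ) • (T.b i - T.a i) ≠ T.b i := by
    intro h
    have h1 : (1 / 2 : ℝ) • (T.b i - T.a i) = 0 := by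
      have e : (1 / 2 : ℝ) • (T.b i - T.a i) =
          T.b i - (T.a i + (1 / 2 : ℝ) • (T.b i - T.a i)) := by
        simp only [real_smul]
        push_cast
        ring
      rw [e, h, sub_self]
    rcases smul_eq_zero.1 h1 with h2 | h2
    · norm_num at h2
    · exact T.sub_ne i h2
  rintro ⟨j, hj⟩
  by_cases hij : i = j
  · subst hij
    rcases hj with h | h
    · exact hna h
    · exact hnb h
  · have hjs : T.a i + (1 / 2 : ℝ) • (T.b i - T.a i) ∈ T.side j := by
      rcases hj with h | h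
      · rw [h]; exact T.a_mem_side j
      · rw [h]; exact T.b_mem_side j
    rcases (T.cross i j hij ⟨hside, hjs⟩).1 with h | h
    · exact hna h
    · exact hnb h

lemma continuous_ps (i : ι) : Continuous (T.ps i) := by
  unfold ps
  fun_prop

/-- A half disc at an interior point of a side. -/
lemma half_disc [Finite ι] (i : ι) : ∃ (z : ℂ) (ρ σ : ℝ), z ∈ T.side i ∧ 0 < ρ ∧ σ ≠ 0 ∧
    (∀ p ∈ Metric.ball z ρ, p ∉ T.V) ∧
    ∀ x ∈ Metric.ball z ρ, 0 < σ * T.ps i x → x ∈ T.Om := by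
  set z := T.a i + (1 / 2 : ℝ) • (T.b i - T.a i) with hz
  have hzs : z ∈ T.sd i := T.mid_sd i
  -- a ball which meets only the side `i`
  obtain ⟨ρ, hρ, hball⟩ : ∃ ρ : ℝ, 0 < ρ ∧ ∀ p ∈ Metric.ball z ρ, p ∉ T.V ∧
      ∀ j, j ≠ i → p ∉ T.side j := by
    have hcl : IsClosed (T.V ∪ ⋃ j ∈ {j : ι | j ≠ i}, T.side j) :=
      T.V_finite.isClosed.union (Set.Finite.isClosed_biUnion (Set.toFinite _)
        fun j _ => T.side_isClosed j)
    have hnz : z ∈ (T.V ∪ ⋃ j ∈ {j : ι | j ≠ i}, T.side j)ᶜ := by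
      rintro (h | h)
      · exact hzs.2 h
      · obtain ⟨j, hj, hj2⟩ := Set.mem_iUnion₂.1 h
        exact hj (T.eq_of_mem_sd hzs hj2).symm
    obtain ⟨ρ, hρ, h⟩ := Metric.isOpen_iff.1 hcl.isOpen_compl z hnz
    refine ⟨ρ, hρ, fun p hp => ⟨fun hV => h hp (Or.inl hV), fun j hj hps => h hp (Or.inr ?_)⟩⟩
    exact Set.mem_iUnion₂.2 ⟨j, hj, hps⟩
  have hV : ∀ p ∈ Metric.ball z ρ, p ∉ T.V := fun p hp => (hball p hp).1
  -- a point of `Om` in the ball
  have hzc : z ∈ closure T.Om := frontier_subset_closure (T.side_fr i hzs.1)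
  obtain ⟨x, hxO, hxd⟩ := Metric.mem_closure_iff.1 hzc ρ hρ
  have hxB : x ∈ Metric.ball z ρ := by rw [Metric.mem_ball, dist_comm]; exact hxd
  have hx0 : T.ps i x ≠ 0 := by
    intro h
    exact T.not_mem_of_side (T.full_chord (convex_ball z ρ) hV (Metric.mem_ball_self hρ) hzs.1 hxB h)
      hxO
  refine ⟨z, ρ, T.ps i x, hzs.1, hρ, hx0, hV, ?_⟩
  have hconv : Convex ℝ {y : ℂ | y ∈ Metric.ball z ρ ∧ 0 < T.ps i x * T.ps i y} := by
    intro y hy y' hy' a b ha hb hab
    refine ⟨convex_ball z ρ hy.1 hy'.1 ha hb hab, ?_⟩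
    have e : a • y + b • y' = y + b • (y' - y) := by
      have : a = 1 - b := by linarith
      rw [this]
      simp only [real_smul]
      push_cast
      ring
    rw [Set.mem_setOf_eq] at hy hy'
    rw [e, T.ps_lin]
    have h1 : T.ps i x * ((1 - b) * T.ps i y + b * T.ps i y') =
        a * (T.ps i x * T.ps i y) + b * (T.ps i x * T.ps i y') := by
      have : a = 1 - b := by linarith
      rw [this]
      ring
    rw [h1]
    rcases ha.eq_or_lt with h | h
    · have hb1 : b = 1 := by linarith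
      rw [← h, hb1, zero_mul, zero_add, one_mul]
      exact hy'.2
    · exact add_pos_of_pos_of_nonneg (mul_pos h hy.2) (mul_nonneg hb hy'.2.le)
  have hsub := T.subset_Om hconv.isPreconnected (fun j p hp hps => by
    by_cases hj : j = i
    · subst hj
      have hp2 : 0 < T.ps j x * T.ps j p := hp.2
      rw [T.ps_side hps, mul_zero] at hp2
      exact lt_irrefl _ hp2
    · exact (hball p hp.1).2 j hj hps)
    (x := x) ⟨hxB, mul_self_pos.2 hx0⟩ hxO
  intro y hy hpos
  exact hsub ⟨hy, hpos⟩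

/-- One reflection. -/
lemma Inv.refl_step {T : Tab ι} {u : ℂ → Dir → ℝ} (hu : T.Inv u) {i : ι} {z : ℂ} {ρ σ : ℝ}
    (hz : z ∈ T.side i) (hρ : 0 < ρ) (hV : ∀ p ∈ Metric.ball z ρ, p ∉ T.V)
    (hO : ∀ x ∈ Metric.ball z ρ, 0 < σ * T.ps i x → x ∈ T.Om) {x : ℂ} {θ : Dir}
    (hx : x ∈ Metric.ball z (ρ / 3)) (h1 : 0 < σ * T.ps i x)
    (h2 : σ * T.ps i (x + (ρ / 3) • dir θ) < 0) :
    u (T.R i (x + (ρ / 3) • dir θ)) (T.rho i θ) = u x θ ∧
      T.R i (x + (ρ / 3) • dir θ) ∈ T.Om := by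
  have hps : ∀ s : ℝ, T.ps i (x + s • dir θ) = T.ps i x + s * T.pl i (dir θ) := by
    intro s
    rw [T.ps_add, T.pl_smul]
  have hd : ‖x - z‖ < ρ / 3 := by rwa [Metric.mem_ball, dist_eq_norm] at hx
  rw [hps] at h2
  set P := T.ps i x with hP
  set m := T.pl i (dir θ) with hm
  have hm0 : σ * m < 0 := by
    have e : σ * (P + ρ / 3 * m) = σ * P + ρ / 3 * (σ * m) := by ring
    rw [e] at h2
    by_contra hcon
    push Not at hcon
    have : 0 ≤ ρ / 3 * (σ * m) := by positivity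
    linarith
  have hm1 : m ≠ 0 := by
    intro h
    rw [h, mul_zero] at hm0
    exact lt_irrefl _ hm0
  set s0 := -P / m with hs0
  have hs0m : s0 * m = -P := by rw [hs0]; field_simp
  have hs0pos : 0 < s0 := by
    have e : s0 * (σ * m) = -(σ * P) := by
      calc s0 * (σ * m) = σ * (s0 * m) := by ring
        _ = _ := by rw [hs0m]; ring
    by_contra hcon
    push Not at hcon
    have : 0 ≤ s0 * (σ * m) := mul_nonneg_of_nonpos_of_nonpos hcon hm0.le
    linarith
  have hs0t : s0 < ρ / 3 := by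
    by_contra hcon
    push Not at hcon
    have h3 : s0 * (σ * m) ≤ ρ / 3 * (σ * m) := mul_le_mul_of_nonpos_right hcon hm0.le
    have h4 : s0 * (σ * m) = -(σ * P) := by
      calc s0 * (σ * m) = σ * (s0 * m) := by ring
        _ = _ := by rw [hs0m]; ring
    have h5 : σ * (P + ρ / 3 * m) = σ * P + ρ / 3 * (σ * m) := by ring
    linarith
  set z' := x + s0 • dir θ with hz'
  have hps' : T.ps i z' = 0 := by
    rw [hz', hps, hs0m]
    ring
  have hnorm : ∀ (s r : ℝ) (v : ℂ), 0 ≤ s → 0 ≤ r → s + r ≤ ρ / 3 → ‖v‖ = 1 →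
      x + s • dir θ + r • v ∈ Metric.ball z ρ := by
    intro s r v hs hr hsr hv
    rw [Metric.mem_ball, dist_eq_norm]
    have e : x + s • dir θ + r • v - z = (x - z) + (s • dir θ + r • v) := by ring
    rw [e]
    refine lt_of_le_of_lt (norm_add_le _ _) ?_
    have h3 : ‖s • dir θ + r • v‖ ≤ s + r := by
      refine (norm_add_le _ _).trans ?_
      rw [norm_smul, norm_smul, norm_dir, hv, mul_one, mul_one, Real.norm_of_nonneg hs,
        Real.norm_of_nonneg hr]
    linarith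
  have hz'B : z' ∈ Metric.ball z ρ := by
    have := hnorm s0 0 (dir θ) hs0pos.le le_rfl (by linarith) (norm_dir θ)
    rwa [zero_smul, add_zero] at this
  have hz's : z' ∈ T.side i := T.full_chord (convex_ball z ρ) hV (Metric.mem_ball_self hρ) hz hz'B hps'
  have hz'sd : z' ∈ T.sd i := ⟨hz's, hV z' hz'B⟩
  have hbefore : ∀ r : ℝ, 0 < r → r ≤ s0 → z' - r • dir θ ∈ T.Om := by
    intro r hr hrs
    have e : z' - r • dir θ = x + (s0 - r) • dir θ := by
      rw [hz', sub_smul]
      ring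
    rw [e]
    refine hO _ ?_ ?_
    · have := hnorm (s0 - r) 0 (dir θ) (by linarith) le_rfl (by linarith) (norm_dir θ)
      rwa [zero_smul, add_zero] at this
    · rw [hps]
      have e2 : σ * (P + (s0 - r) * m) = -(r * (σ * m)) := by
        calc σ * (P + (s0 - r) * m) = σ * (P + s0 * m) - r * (σ * m) := by ring
          _ = _ := by rw [hs0m]; ring
      rw [e2, neg_pos]
      exact mul_neg_of_pos_of_neg hr hm0
  have hafter : ∀ r : ℝ, 0 < r → r ≤ ρ / 3 - s0 → z' + r • dir (T.rho i θ) ∈ T.Om := by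
    intro r hr hrs
    refine hO _ ?_ ?_
    · exact hnorm s0 r (dir (T.rho i θ)) hs0pos.le hr.le (by linarith) (norm_dir _)
    · rw [T.ps_add, hps', T.pl_smul, T.dir_rho, T.pl_L]
      have e2 : σ * (0 + r * -m) = -(r * (σ * m)) := by ring
      rw [← hm, e2, neg_pos]
      exact mul_neg_of_pos_of_neg hr hm0
  have hend : z' + (ρ / 3 - s0) • dir (T.rho i θ) = T.R i (x + (ρ / 3) • dir θ) := by
    have e : x + (ρ / 3) • dir θ = z' + (ρ / 3 - s0) • dir θ := by
      rw [hz', sub_smul]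
      ring
    rw [e, T.R_add, T.R_of_ps hps', T.L_smul, T.dir_rho]
  have hr := hu.refl i z' θ s0 (ρ / 3 - s0) hz'sd hs0pos (by linarith) hbefore hafter
  rw [hend] at hr
  have hstart : z' - s0 • dir θ = x := by
    rw [hz']
    ring
  rw [hstart] at hr
  refine ⟨hr, ?_⟩
  rw [← hend]
  exact hafter _ (by linarith) le_rfl

lemma volume_pl (i : ι) : volume {θ : Dir | T.pl i (dir θ) = 0} = 0 := by
  have h1 : {θ : Dir | T.pl i (dir θ) = 0} = {θ : Dir | ip (I * (T.b i - T.a i)) (dir θ) = 0} := by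
    ext θ
    simp only [Set.mem_setOf_eq]
    have : T.pl i (dir θ) = ip (I * (T.b i - T.a i)) (dir θ) := by
      rw [ip_comm, ip, pl, map_mul, conj_I]
      have e : dir θ * (-I * conj (T.b i - T.a i)) = -(I * (dir θ * conj (T.b i - T.a i))) := by
        ring
      rw [e, neg_re, I_mul_re, neg_neg]
    rw [this]
  rw [h1]
  exact volume_of_finite (finite_ip (mul_ne_zero I_ne_zero (T.sub_ne i)))

/-- Invariance of the direction function under the reflections. -/
theorem f_rho [Finite ι] {u : ℂ → Dir → ℝ} (hu : T.Inv u) {f : Dir → ℝ}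
    (hf : ∀ᵐ p : Dir × ℂ, p.2 ∈ T.Om → u p.2 p.1 = f p.1) (i : ι) :
    ∀ᵐ θ : Dir, f (T.rho i θ) = f θ := by
  obtain ⟨z, ρ, σ, hz, hρ, hσ, hV, hO⟩ := T.half_disc i
  have hf2 := (T.mp_Ph (ρ / 3) [i]).quasiMeasurePreserving.ae hf
  have h1 : ∀ᵐ p : Dir × ℂ, (p.2 ∈ Metric.ball z (ρ / 3) ∧ 0 < σ * T.ps i p.2 ∧
      σ * T.ps i (p.2 + (ρ / 3) • dir p.1) < 0) → f (T.rho i p.1) = f p.1 := by
    filter_upwards [hf, hf2] with p a1 a2 hp
    obtain ⟨b1, b2⟩ := hu.refl_step hz hρ hV hO hp.1 hp.2.1 hp.2.2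
    have b3 := a2 b2
    have b4 := a1 (hO _ (Metric.ball_subset_ball (by linarith) hp.1) hp.2.1)
    have b5 : u (T.R i (p.2 + (ρ / 3) • dir p.1)) (T.rho i p.1) = f (T.rho i p.1) := b3
    rw [← b5, b1, b4]
  have h2 := Measure.ae_ae_of_ae_prod (μ := (volume : Measure Dir)) (ν := (volume : Measure ℂ)) h1
  have h3 : ∀ᵐ θ : Dir, σ * T.pl i (dir θ) < 0 → f (T.rho i θ) = f θ := by
    filter_upwards [h2] with θ hθ hneg
    by_contra hne
    have hnull : volume {x : ℂ | x ∈ Metric.ball z (ρ / 3) ∧ 0 < σ * T.ps i x ∧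
        σ * T.ps i (x + (ρ / 3) • dir θ) < 0} = 0 := by
      rw [measure_eq_zero_iff_ae_notMem]
      filter_upwards [hθ] with x hx hxm
      exact hne (hx hxm)
    have hopen : IsOpen {x : ℂ | x ∈ Metric.ball z (ρ / 3) ∧ 0 < σ * T.ps i x ∧
        σ * T.ps i (x + (ρ / 3) • dir θ) < 0} := by
      have hc := T.continuous_ps i
      exact Metric.isOpen_ball.inter ((isOpen_lt continuous_const (continuous_const.mul hc)).inter
        (isOpen_lt (continuous_const.mul (hc.comp (continuous_id.add continuous_const)))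
          continuous_const))
    have hne' : {x : ℂ | x ∈ Metric.ball z (ρ / 3) ∧ 0 < σ * T.ps i x ∧
        σ * T.ps i (x + (ρ / 3) • dir θ) < 0}.Nonempty := by
      refine ⟨z + (-(ρ / 6)) • dir θ, ?_, ?_, ?_⟩
      · rw [Metric.mem_ball, dist_eq_norm, add_sub_cancel_left, norm_smul, norm_dir, mul_one,
          Real.norm_eq_abs, abs_neg, abs_of_pos (by positivity)]
        linarith
      · rw [T.ps_add, T.ps_side hz, T.pl_smul, zero_add]
        have e : σ * (-(ρ / 6) * T.pl i (dir θ)) = -((ρ / 6) * (σ * T.pl i (dir θ))) := by ring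
        rw [e, neg_pos]
        exact mul_neg_of_pos_of_neg (by positivity) hneg
      · rw [T.ps_add, T.ps_add, T.ps_side hz, T.pl_smul, T.pl_smul, zero_add]
        have e : σ * (-(ρ / 6) * T.pl i (dir θ) + ρ / 3 * T.pl i (dir θ)) =
            (ρ / 6) * (σ * T.pl i (dir θ)) := by ring
        rw [e]
        exact mul_neg_of_pos_of_neg (by positivity) hneg
    exact (hopen.measure_pos volume hne').ne' hnull
  have h4 := (T.mp_rho i).quasiMeasurePreserving.ae h3
  have h5 : ∀ᵐ θ : Dir, T.pl i (dir θ) ≠ 0 := by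
    rw [ae_iff]
    simp only [ne_eq, not_not]
    exact T.volume_pl i
  filter_upwards [h3, h4, h5] with θ a1 a2 a3
  rcases lt_trichotomy (σ * T.pl i (dir θ)) 0 with h | h | h
  · exact a1 h
  · rcases mul_eq_zero.1 h with h' | h'
    · exact absurd h' hσ
    · exact absurd h' a3
  · have b := a2 (by
      rw [T.dir_rho, T.pl_L, mul_neg]
      linarith)
    rw [T.rho_rho] at b
    exact b.symm

/-- The conclusion for bounded functions. -/
theorem ae_const [Finite ι] (hconn : IsPreconnected T.Om) (i j : ι)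
    (hirr : addOrderOf (((2 * arg (T.b j - T.a j) : ℝ) : Dir) -
      ((2 * arg (T.b i - T.a i) : ℝ) : Dir)) = 0)
    {u : ℂ → Dir → ℝ} (hu : T.Inv u)
    (hm : Measurable (fun p : Dir × ℂ => u p.2 p.1)) (hb : ∀ x θ, |u x θ| ≤ 1)
    (hD : ∀ η : ℝ, 0 < η → ∃ᶠ ε in nhdsWithin (0 : ℝ) (Set.Ioi 0),
      T.Dv u ε ≤ ENNReal.ofReal (η * (ε * -Real.log ε))) :
    ∃ c : ℝ, ∀ᵐ p : Dir × ℂ, p.2 ∈ T.Om → u p.2 p.1 = c := by
  obtain ⟨f, hfm, hf⟩ := T.dir_only hconn hu hm hb hD
  have h1 := T.f_rho hu hf i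
  have h2 := (T.mp_rho i).quasiMeasurePreserving.ae (T.f_rho hu hf j)
  set α : Dir := ((2 * arg (T.b j - T.a j) : ℝ) : Dir) - ((2 * arg (T.b i - T.a i) : ℝ) : Dir)
    with hα
  have h3 : f ∘ (fun θ => α + θ) =ᵐ[volume] f := by
    filter_upwards [h1, h2] with θ a1 a2
    have e : T.rho j (T.rho i θ) = α + θ := by
      simp only [rho, hα]
      abel
    rw [e, a1] at a2
    exact a2
  have herg : Ergodic (fun θ : Dir => α + θ) volume := AddCircle.ergodic_add_left.2 hirr
  obtain ⟨c, hc⟩ := herg.ae_eq_const_of_ae_eq_comp₀ hfm.nullMeasurable h3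
  refine ⟨c, ?_⟩
  have h4 : ∀ᵐ p : Dir × ℂ, f p.1 = c :=
    (Measure.quasiMeasurePreserving_fst (μ := (volume : Measure Dir))
      (ν := (volume : Measure ℂ))).ae hc
  filter_upwards [hf, h4] with p a1 a2 hp
  rw [a1 hp, a2]

end Tab

end Pool.Agent.Helper90.BE
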